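import Mathlib

/-!
# A van den Berg–Kesten type inequality for maxima of products
-/

open MeasureTheory ProbabilityTheory MeasureTheory.Measure
open scoped ENNReal

namespace Pool.Agent.R963.LR

variable {ι : Type*}

/-! ### Pairs of independent families as one family of pairs -/

/-- Zip two families into a family of pairs. -/
def zip (p : (ι → ℝ) × (ι → ℝ)) : ι → ℝ × ℝ := fun i => (p.1 i, p.2 i)

theorem measurable_zip : Measurable (zip : (ι → ℝ) × (ι → ℝ) → ι → ℝ × ℝ) := by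
  unfold zip
  fun_prop

theorem map_zip (ν : ι → Measure ℝ) [∀ i, IsProbabilityMeasure (ν i)] :
    ((infinitePi ν).prod (infinitePi ν)).map zip = infinitePi fun i => (ν i).prod (ν i) := by
  refine IsProjectiveLimit.unique
    (P := fun I : Finset ι => Measure.pi (fun i : I => (ν i).prod (ν i))) ?_
    (isProjectiveLimit_infinitePi fun i => (ν i).prod (ν i))
  intro I
  rw [Measure.map_map (Finset.measurable_restrict I) measurable_zip]
  have h1 : (I.restrict ∘ (zip : (ι → ℝ) × (ι → ℝ) → ι → ℝ × ℝ)) =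
      (MeasurableEquiv.arrowProdEquivProdArrow ℝ ℝ I).symm ∘
        (Prod.map I.restrict I.restrict) := by
    ext p i <;> rfl
  rw [h1, ← Measure.map_map (MeasurableEquiv.arrowProdEquivProdArrow ℝ ℝ I).symm.measurable
    ((Finset.measurable_restrict I).prodMap (Finset.measurable_restrict I)),
    ← Measure.map_prod_map _ _ (Finset.measurable_restrict I) (Finset.measurable_restrict I),
    infinitePi_map_restrict]
  have h2 := (measurePreserving_arrowProdEquivProdArrow ℝ ℝ I (fun i => ν i) (fun i => ν i)).symm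
  exact h2.map_eq

/-- Swapping the two coordinates at `e`. -/
def swapAt [DecidableEq ι] (e : ι) (ω : ι → ℝ × ℝ) : ι → ℝ × ℝ :=
  fun i => (if i = e then Prod.swap else id) (ω i)

theorem measurePreserving_swapAt [DecidableEq ι] (ν : ι → Measure ℝ)
    [∀ i, IsProbabilityMeasure (ν i)] (e : ι) :
    MeasurePreserving (swapAt e) (infinitePi fun i => (ν i).prod (ν i))
      (infinitePi fun i => (ν i).prod (ν i)) := by
  have hmeas : ∀ i : ι, Measurable (if i = e then Prod.swap else id : ℝ × ℝ → ℝ × ℝ) := by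
    intro i
    split_ifs
    · exact measurable_swap
    · exact measurable_id
  refine ⟨?_, ?_⟩
  · exact measurable_pi_lambda _ fun i => (hmeas i).comp (measurable_pi_apply i)
  · have := infinitePi_map_pi (fun i => (ν i).prod (ν i)) hmeas
    unfold swapAt
    rw [this]
    congr 1
    ext1 i
    split_ifs
    · exact prod_swap
    · exact map_id

/-! ### The interpolation -/

variable [DecidableEq ι]

/-- The product attached to a pair `p = (A, B)` when the coordinates in `D` are duplicated. -/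
noncomputable def mono (φ : ι → ℝ → ℝ≥0∞) (D : Finset ι) (p : Finset ι × Finset ι)
    (ω : ι → ℝ × ℝ) : ℝ≥0∞ :=
  (∏ i ∈ p.1, φ i (ω i).1) * ∏ i ∈ p.2, φ i (if i ∈ D then (ω i).2 else (ω i).1)

/-- The maximum over the family `PP`. -/
noncomputable def Z (φ : ι → ℝ → ℝ≥0∞) (PP : Set (Finset ι × Finset ι)) (D : Finset ι)
    (ω : ι → ℝ × ℝ) : ℝ≥0∞ := ⨆ p ∈ PP, mono φ D p ω

/-- The part of the product that does not involve the coordinate `e`. -/
noncomputable def rest (φ : ι → ℝ → ℝ≥0∞) (D : Finset ι) (e : ι) (p : Finset ι × Finset ι)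
    (ω : ι → ℝ × ℝ) : ℝ≥0∞ :=
  (∏ i ∈ p.1.erase e, φ i (ω i).1) * ∏ i ∈ p.2.erase e, φ i (if i ∈ D then (ω i).2 else (ω i).1)

theorem rest_swapAt (φ : ι → ℝ → ℝ≥0∞) (D : Finset ι) (e : ι) (p : Finset ι × Finset ι)
    (ω : ι → ℝ × ℝ) : rest φ D e p (swapAt e ω) = rest φ D e p ω := by
  unfold rest swapAt
  congr 1
  · refine Finset.prod_congr rfl fun i hi => ?_
    rw [if_neg (Finset.ne_of_mem_erase hi)]
    rfl
  · refine Finset.prod_congr rfl fun i hi => ?_
    rw [if_neg (Finset.ne_of_mem_erase hi)]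
    rfl

theorem rest_insert (φ : ι → ℝ → ℝ≥0∞) (D : Finset ι) (e : ι) (p : Finset ι × Finset ι)
    (ω : ι → ℝ × ℝ) : rest φ (insert e D) e p ω = rest φ D e p ω := by
  unfold rest
  congr 1
  refine Finset.prod_congr rfl fun i hi => ?_
  simp [Finset.ne_of_mem_erase hi]

theorem mono_of_notMem (φ : ι → ℝ → ℝ≥0∞) (D : Finset ι) {e : ι} {p : Finset ι × Finset ι}
    (h1 : e ∉ p.1) (h2 : e ∉ p.2) (ω : ι → ℝ × ℝ) :
    mono φ D p ω = rest φ D e p ω := by
  unfold mono rest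
  rw [Finset.erase_eq_of_notMem h1, Finset.erase_eq_of_notMem h2]

theorem mono_of_mem_left (φ : ι → ℝ → ℝ≥0∞) (D : Finset ι) {e : ι} {p : Finset ι × Finset ι}
    (h1 : e ∈ p.1) (h2 : e ∉ p.2) (ω : ι → ℝ × ℝ) :
    mono φ D p ω = φ e (ω e).1 * rest φ D e p ω := by
  unfold mono rest
  rw [Finset.erase_eq_of_notMem h2, ← Finset.mul_prod_erase _ _ h1, mul_assoc]

theorem mono_of_mem_right (φ : ι → ℝ → ℝ≥0∞) (D : Finset ι) {e : ι} {p : Finset ι × Finset ι}
    (h1 : e ∉ p.1) (h2 : e ∈ p.2) (ω : ι → ℝ × ℝ) :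
    mono φ D p ω = φ e (if e ∈ D then (ω e).2 else (ω e).1) * rest φ D e p ω := by
  unfold mono rest
  rw [Finset.erase_eq_of_notMem h1, ← Finset.mul_prod_erase p.2 _ h2]
  ring

theorem swapAt_self (e : ι) (ω : ι → ℝ × ℝ) : swapAt e ω e = (ω e).swap := by
  simp [swapAt]

theorem Z_add_le (φ : ι → ℝ → ℝ≥0∞) {PP : Set (Finset ι × Finset ι)}
    (hPP : ∀ p ∈ PP, Disjoint p.1 p.2) {D : Finset ι} {e : ι} (he : e ∉ D) (ω : ι → ℝ × ℝ) :
    Z φ PP D ω + Z φ PP D (swapAt e ω) ≤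
      Z φ PP (insert e D) ω + Z φ PP (insert e D) (swapAt e ω) := by
  set β : ℝ≥0∞ := ⨆ p ∈ {p ∈ PP | e ∈ p.1}, rest φ D e p ω with hβ
  set γ : ℝ≥0∞ := ⨆ p ∈ {p ∈ PP | e ∈ p.2}, rest φ D e p ω with hγ
  have hl : ∀ p ∈ PP, e ∈ p.1 → e ∉ p.2 := fun p hp h1 h2 =>
    Finset.disjoint_left.1 (hPP p hp) h1 h2
  have hr : ∀ p ∈ PP, e ∈ p.2 → e ∉ p.1 := fun p hp h1 h2 =>
    Finset.disjoint_left.1 (hPP p hp) h2 h1
  -- the four bounds for a configuration `w` with the same `rest` as `ω`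
  have key1 : γ ≤ β → ∀ w : ι → ℝ × ℝ, (∀ p, rest φ D e p w = rest φ D e p ω) →
      Z φ PP D w ≤ Z φ PP (insert e D) w := by
    intro hle w hw
    refine iSup₂_le fun p hp => ?_
    by_cases h2 : e ∈ p.2
    · rw [mono_of_mem_right φ D (hr p hp h2) h2, if_neg he, hw]
      have h3 : rest φ D e p ω ≤ γ := le_iSup₂_of_le (f := fun p (_ : p ∈ {p ∈ PP | e ∈ p.2}) =>
        rest φ D e p ω) p ⟨hp, h2⟩ le_rfl
      refine (mul_le_mul_right (h3.trans hle) _).trans ?_
      rw [hβ, ENNReal.mul_iSup]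
      refine iSup_le fun p' => ?_
      rw [ENNReal.mul_iSup]
      refine iSup_le fun hp' => ?_
      have h4 : mono φ (insert e D) p' w = φ e (w e).1 * rest φ D e p' ω := by
        rw [mono_of_mem_left φ _ hp'.2 (hl p' hp'.1 hp'.2), rest_insert, hw]
      rw [← h4]
      exact le_iSup₂_of_le (f := fun p (_ : p ∈ PP) => mono φ (insert e D) p w) p' hp'.1 le_rfl
    · refine le_iSup₂_of_le (f := fun p (_ : p ∈ PP) => mono φ (insert e D) p w) p hp ?_
      by_cases h1 : e ∈ p.1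
      · rw [mono_of_mem_left φ _ h1 h2, mono_of_mem_left φ _ h1 h2, rest_insert]
      · rw [mono_of_notMem φ _ h1 h2, mono_of_notMem φ _ h1 h2, rest_insert]
  have key2 : β ≤ γ → ∀ w : ι → ℝ × ℝ, (∀ p, rest φ D e p w = rest φ D e p ω) →
      Z φ PP D w ≤ Z φ PP (insert e D) (swapAt e w) := by
    intro hle w hw
    refine iSup₂_le fun p hp => ?_
    have hsw : (swapAt e w e).2 = (w e).1 := by rw [swapAt_self]; rfl
    by_cases h1 : e ∈ p.1
    · rw [mono_of_mem_left φ D h1 (hl p hp h1), hw]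
      have h3 : rest φ D e p ω ≤ β := le_iSup₂_of_le (f := fun p (_ : p ∈ {p ∈ PP | e ∈ p.1}) =>
        rest φ D e p ω) p ⟨hp, h1⟩ le_rfl
      refine (mul_le_mul_right (h3.trans hle) _).trans ?_
      rw [hγ, ENNReal.mul_iSup]
      refine iSup_le fun p' => ?_
      rw [ENNReal.mul_iSup]
      refine iSup_le fun hp' => ?_
      have h4 : mono φ (insert e D) p' (swapAt e w) = φ e (w e).1 * rest φ D e p' ω := by
        rw [mono_of_mem_right φ _ (hr p' hp'.1 hp'.2) hp'.2, if_pos (Finset.mem_insert_self e D),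
          hsw, rest_insert, rest_swapAt, hw]
      rw [← h4]
      exact le_iSup₂_of_le (f := fun p (_ : p ∈ PP) => mono φ (insert e D) p (swapAt e w))
        p' hp'.1 le_rfl
    · refine le_iSup₂_of_le (f := fun p (_ : p ∈ PP) => mono φ (insert e D) p (swapAt e w)) p hp ?_
      by_cases h2 : e ∈ p.2
      · rw [mono_of_mem_right φ _ h1 h2, mono_of_mem_right φ _ h1 h2, if_neg he,
          if_pos (Finset.mem_insert_self e D), hsw, rest_insert, rest_swapAt]
      · rw [mono_of_notMem φ _ h1 h2, mono_of_notMem φ _ h1 h2, rest_insert, rest_swapAt]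
  have hinv : swapAt e (swapAt e ω) = ω := by
    ext1 i
    by_cases hi : i = e
    · subst hi; simp [swapAt]
    · simp [swapAt, hi]
  rcases le_total γ β with h | h
  · exact add_le_add (key1 h ω fun p => rfl) (key1 h _ fun p => rest_swapAt φ D e p ω)
  · have h1 := key2 h ω fun p => rfl
    have h2 := key2 h (swapAt e ω) fun p => rest_swapAt φ D e p ω
    rw [hinv] at h2
    rw [add_comm (Z φ PP (insert e D) ω)]
    exact add_le_add h1 h2

theorem measurable_mono {φ : ι → ℝ → ℝ≥0∞} (hφ : ∀ i, Measurable (φ i)) (D : Finset ι)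
    (p : Finset ι × Finset ι) : Measurable (mono φ D p) := by
  unfold mono
  refine Measurable.mul ?_ ?_
  · exact Finset.measurable_fun_prod _ fun i _ =>
      (hφ i).comp (measurable_fst.comp (measurable_pi_apply i))
  · refine Finset.measurable_fun_prod _ fun i _ => ?_
    by_cases h : i ∈ D
    · simp only [h, if_true]
      exact (hφ i).comp (measurable_snd.comp (measurable_pi_apply i))
    · simp only [h, if_false]
      exact (hφ i).comp (measurable_fst.comp (measurable_pi_apply i))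

theorem measurable_Z [Countable ι] {φ : ι → ℝ → ℝ≥0∞} (hφ : ∀ i, Measurable (φ i))
    (PP : Set (Finset ι × Finset ι)) (D : Finset ι) : Measurable (Z φ PP D) := by
  unfold Z
  exact Measurable.biSup _ (Set.to_countable PP) fun p _ => measurable_mono hφ D p

theorem lintegral_Z_le [Countable ι] (ν : ι → Measure ℝ) [∀ i, IsProbabilityMeasure (ν i)]
    {φ : ι → ℝ → ℝ≥0∞} (hφ : ∀ i, Measurable (φ i)) {PP : Set (Finset ι × Finset ι)}
    (hPP : ∀ p ∈ PP, Disjoint p.1 p.2) (D : Finset ι) :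
    ∫⁻ ω, Z φ PP ∅ ω ∂(infinitePi fun i => (ν i).prod (ν i)) ≤
      ∫⁻ ω, Z φ PP D ω ∂(infinitePi fun i => (ν i).prod (ν i)) := by
  induction D using Finset.induction_on with
  | empty => exact le_rfl
  | insert e D he ih =>
    refine ih.trans ?_
    have hsw : ∀ D', ∫⁻ ω, Z φ PP D' (swapAt e ω) ∂(infinitePi fun i => (ν i).prod (ν i)) =
        ∫⁻ ω, Z φ PP D' ω ∂(infinitePi fun i => (ν i).prod (ν i)) := fun D' =>
      (measurePreserving_swapAt ν e).lintegral_comp (measurable_Z hφ PP D')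
    have h1 : ∫⁻ ω, (Z φ PP D ω + Z φ PP D (swapAt e ω))
          ∂(infinitePi fun i => (ν i).prod (ν i)) ≤
        ∫⁻ ω, (Z φ PP (insert e D) ω + Z φ PP (insert e D) (swapAt e ω))
          ∂(infinitePi fun i => (ν i).prod (ν i)) :=
      lintegral_mono fun ω => Z_add_le φ hPP he ω
    rw [lintegral_add_left (measurable_Z hφ PP D), lintegral_add_left (measurable_Z hφ PP _),
      hsw, hsw, ← two_mul, ← two_mul] at h1
    exact (ENNReal.mul_le_mul_iff_right two_ne_zero ENNReal.ofNat_ne_top).1 h1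

/-- Products over a finite set. -/
noncomputable def prd (φ : ι → ℝ → ℝ≥0∞) (A : Finset ι) (ω : ι → ℝ) : ℝ≥0∞ := ∏ i ∈ A, φ i (ω i)

omit [DecidableEq ι] in
theorem measurable_prd {φ : ι → ℝ → ℝ≥0∞} (hφ : ∀ i, Measurable (φ i)) (A : Finset ι) :
    Measurable (prd φ A) := by
  unfold prd
  exact Finset.measurable_fun_prod _ fun i _ => (hφ i).comp (measurable_pi_apply i)

theorem measurable_sup_prd [Countable ι] {φ : ι → ℝ → ℝ≥0∞} (hφ : ∀ i, Measurable (φ i))
    (F : Set (Finset ι)) : Measurable fun ω => ⨆ A ∈ F, prd φ A ω :=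
  Measurable.biSup _ (Set.to_countable F) fun A _ => measurable_prd hφ A

/-- **BK inequality for maxima of products**, finite family. -/
theorem bk_finite [Countable ι] (ν : ι → Measure ℝ) [∀ i, IsProbabilityMeasure (ν i)]
    {φ : ι → ℝ → ℝ≥0∞} (hφ : ∀ i, Measurable (φ i)) (F₁ F₂ : Set (Finset ι))
    (PP : Finset (Finset ι × Finset ι))
    (hPP : ∀ p ∈ PP, p.1 ∈ F₁ ∧ p.2 ∈ F₂ ∧ Disjoint p.1 p.2) :
    ∫⁻ ω, ⨆ p ∈ PP, prd φ p.1 ω * prd φ p.2 ω ∂(infinitePi ν) ≤
      (∫⁻ ω, ⨆ A ∈ F₁, prd φ A ω ∂(infinitePi ν)) *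
        ∫⁻ ω, ⨆ B ∈ F₂, prd φ B ω ∂(infinitePi ν) := by
  set D : Finset ι := PP.biUnion fun p => p.2 with hD
  have h0 := lintegral_Z_le ν hφ (PP := (PP : Set (Finset ι × Finset ι)))
    (fun p hp => (hPP p hp).2.2) D
  rw [← map_zip ν, lintegral_map (measurable_Z hφ _ _) measurable_zip,
    lintegral_map (measurable_Z hφ _ _) measurable_zip] at h0
  have h1 : ∀ q : (ι → ℝ) × (ι → ℝ), Z φ (PP : Set (Finset ι × Finset ι)) ∅ (zip q) =
      ⨆ p ∈ PP, prd φ p.1 q.1 * prd φ p.2 q.1 := by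
    intro q
    simp [Z, mono, zip, prd]
  have h2 : ∀ q : (ι → ℝ) × (ι → ℝ), Z φ (PP : Set (Finset ι × Finset ι)) D (zip q) ≤
      (⨆ A ∈ F₁, prd φ A q.1) * ⨆ B ∈ F₂, prd φ B q.2 := by
    intro q
    refine iSup₂_le fun p hp => ?_
    have hp' : p ∈ PP := hp
    have h3 : mono φ D p (zip q) = prd φ p.1 q.1 * prd φ p.2 q.2 := by
      unfold mono prd zip
      congr 1
      refine Finset.prod_congr rfl fun i hi => ?_
      have hiD : i ∈ D := Finset.mem_biUnion.2 ⟨p, hp', hi⟩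
      simp [hiD]
    rw [h3]
    exact mul_le_mul' (le_iSup₂_of_le (f := fun A (_ : A ∈ F₁) => prd φ A q.1) p.1
      (hPP p hp').1 le_rfl) (le_iSup₂_of_le (f := fun B (_ : B ∈ F₂) => prd φ B q.2) p.2
      (hPP p hp').2.1 le_rfl)
  have h4 : Measurable fun ω : ι → ℝ => ⨆ p ∈ PP, prd φ p.1 ω * prd φ p.2 ω := by
    refine Measurable.biSup (PP : Set (Finset ι × Finset ι)) (Set.to_countable _) fun p _ => ?_
    exact (measurable_prd hφ _).mul (measurable_prd hφ _)
  calc ∫⁻ ω, ⨆ p ∈ PP, prd φ p.1 ω * prd φ p.2 ω ∂(infinitePi ν)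
      = ∫⁻ q : (ι → ℝ) × (ι → ℝ), ⨆ p ∈ PP, prd φ p.1 q.1 * prd φ p.2 q.1
          ∂((infinitePi ν).prod (infinitePi ν)) :=
        ((measurePreserving_fst (μ := infinitePi ν) (ν := infinitePi ν)).lintegral_comp h4).symm
    _ = ∫⁻ q, Z φ (PP : Set (Finset ι × Finset ι)) ∅ (zip q)
          ∂((infinitePi ν).prod (infinitePi ν)) := by simp_rw [h1]
    _ ≤ ∫⁻ q, Z φ (PP : Set (Finset ι × Finset ι)) D (zip q)
          ∂((infinitePi ν).prod (infinitePi ν)) := h0
    _ ≤ ∫⁻ q : (ι → ℝ) × (ι → ℝ), (⨆ A ∈ F₁, prd φ A q.1) * ⨆ B ∈ F₂, prd φ B q.2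
          ∂((infinitePi ν).prod (infinitePi ν)) := lintegral_mono h2
    _ = _ := lintegral_prod_mul (measurable_sup_prd hφ F₁).aemeasurable
        (measurable_sup_prd hφ F₂).aemeasurable

/-- **BK inequality for maxima of products.** -/
theorem bk [Countable ι] (ν : ι → Measure ℝ) [∀ i, IsProbabilityMeasure (ν i)]
    {φ : ι → ℝ → ℝ≥0∞} (hφ : ∀ i, Measurable (φ i)) (F₁ F₂ : Set (Finset ι))
    (PP : Set (Finset ι × Finset ι))
    (hPP : ∀ p ∈ PP, p.1 ∈ F₁ ∧ p.2 ∈ F₂ ∧ Disjoint p.1 p.2) :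
    ∫⁻ ω, ⨆ p ∈ PP, prd φ p.1 ω * prd φ p.2 ω ∂(infinitePi ν) ≤
      (∫⁻ ω, ⨆ A ∈ F₁, prd φ A ω ∂(infinitePi ν)) *
        ∫⁻ ω, ⨆ B ∈ F₂, prd φ B ω ∂(infinitePi ν) := by
  classical
  have h1 : ∀ ω : ι → ℝ, ⨆ p ∈ PP, prd φ p.1 ω * prd φ p.2 ω =
      ⨆ QQ : Finset (Finset ι × Finset ι), ⨆ p ∈ QQ.filter (· ∈ PP), prd φ p.1 ω * prd φ p.2 ω := by
    intro ω
    apply le_antisymm
    · refine iSup₂_le fun p hp => ?_
      refine le_iSup_of_le {p} (le_iSup₂_of_le p ?_ le_rfl)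
      simp [hp]
    · refine iSup_le fun QQ => iSup₂_le fun p hp => ?_
      rw [Finset.mem_filter] at hp
      exact le_iSup₂_of_le (f := fun p (_ : p ∈ PP) => prd φ p.1 ω * prd φ p.2 ω) p hp.2 le_rfl
  simp_rw [h1]
  rw [lintegral_iSup_directed_of_measurable]
  · refine iSup_le fun QQ => ?_
    exact bk_finite ν hφ F₁ F₂ _ fun p hp => hPP p (Finset.mem_filter.1 hp).2
  · intro QQ
    refine Measurable.biSup ((QQ.filter (· ∈ PP) : Finset _) : Set (Finset ι × Finset ι))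
      (Set.to_countable _) fun p _ => ?_
    exact (measurable_prd hφ _).mul (measurable_prd hφ _)
  · intro QQ₁ QQ₂
    refine ⟨QQ₁ ∪ QQ₂, ?_, ?_⟩
    · intro ω
      refine iSup₂_le fun p hp => ?_
      refine le_iSup₂_of_le (f := fun p (_ : p ∈ (QQ₁ ∪ QQ₂).filter (· ∈ PP)) =>
        prd φ p.1 ω * prd φ p.2 ω) p ?_ le_rfl
      rw [Finset.mem_filter] at hp ⊢
      exact ⟨Finset.mem_union_left _ hp.1, hp.2⟩
    · intro ω
      refine iSup₂_le fun p hp => ?_
      refine le_iSup₂_of_le (f := fun p (_ : p ∈ (QQ₁ ∪ QQ₂).filter (· ∈ PP)) =>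
        prd φ p.1 ω * prd φ p.2 ω) p ?_ le_rfl
      rw [Finset.mem_filter] at hp ⊢
      exact ⟨Finset.mem_union_right _ hp.1, hp.2⟩

end Pool.Agent.R963.LR
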