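import Mathlib

/-!
# Long-range first-passage percolation with exponent `2d+1`
-/

open MeasureTheory ProbabilityTheory Filter Topology
open scoped ENNReal

namespace Pool.Agent.R963.LR

/-- The vertex set `ℤ^d`. -/
abbrev V (d : ℕ) := Fin d → ℤ

variable {d : ℕ}

/-- The `ℓ¹`-norm on `ℤ^d`. -/
def l1 (x : V d) : ℕ := ∑ i, (x i).natAbs

/-- The length `‖y - z‖₁` of the pair `{y,z}`. -/
def len (e : Sym2 (V d)) : ℕ :=
  Sym2.lift ⟨fun y z => l1 (y - z), fun y z => Finset.sum_congr rfl fun i _ => by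
    simp only [Pi.sub_apply]; omega⟩ e

/-- The edges of the complete graph on `ℤ^d`: the unordered pairs of distinct points. -/
abbrev Edge (d : ℕ) := (⊤ : SimpleGraph (V d)).edgeSet

/-- The traversal time `W_e = ω_e ‖e‖₁^(2d+1)`. -/
noncomputable def traversal (x : Edge d → ℝ) (e : Edge d) : ℝ≥0∞ :=
  ENNReal.ofReal (x e * (len (e : Sym2 (V d)) : ℝ) ^ (2 * d + 1))

/-- The first-passage time `T(y,z)`: the infimum over the finite paths from `y` to `z` of the sum
of the traversal times of their edges. -/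
noncomputable def passage (x : Edge d → ℝ) (y z : V d) : ℝ≥0∞ :=
  ⨅ w : (⊤ : SimpleGraph (V d)).Walk y z,
    (w.darts.map fun a => traversal x ⟨a.edge, a.edge_mem⟩).sum

/-- The random variables `(ω_e)` are i.i.d. exponential with mean one. -/
structure IsExpFamily {Ω : Type*} [MeasurableSpace Ω] (X : Edge d → Ω → ℝ) (P : Measure Ω) :
    Prop where
  measurable : ∀ e, Measurable (X e)
  indep : iIndepFun X P
  law : ∀ e, P.map (X e) = expMeasure 1

/-- `a_n = Θ(b_n)`: for some constants `0 < c < C < ∞`, `P(c b_n ≤ a_n ≤ C b_n) → 1`. -/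
def IsTheta {Ω : Type*} [MeasurableSpace Ω] (P : Measure Ω) (a : ℕ → Ω → ℝ≥0∞) (b : ℕ → ℝ) :
    Prop :=
  ∃ c C : ℝ, 0 < c ∧ c < C ∧
    Tendsto (fun n : ℕ => P {ω | ENNReal.ofReal (c * b n) ≤ a n ω ∧
      a n ω ≤ ENNReal.ofReal (C * b n)}) atTop (𝓝 1)

end Pool.Agent.R963.LR
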