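import Pool.Agent.R963.LR.Up7

open MeasureTheory ProbabilityTheory MeasureTheory.Measure Filter Topology
open scoped ENNReal RealInnerProductSpace

namespace Pool.Agent.R963.LR

variable {d : ℕ}

/-! ### Transfer to an arbitrary i.i.d. family on the edges -/

theorem passage_restrict (ω : Sym2 (V d) → ℝ) (y z : V d) :
    passage (fun e : Edge d => ω e) y z = TT ω y z := by
  unfold passage TT
  refine iInf_congr fun w => ?_
  unfold cost
  rw [SimpleGraph.Walk.edges, List.map_map]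
  rfl

theorem measurable_passage (y z : V d) : Measurable fun x : Edge d → ℝ => passage x y z := by
  unfold passage
  refine Measurable.iInf fun w => ?_
  induction w.darts with
  | nil => simp
  | cons a l ih =>
    simp only [List.map_cons, List.sum_cons]
    refine Measurable.add ?_ ih
    unfold traversal
    fun_prop

theorem law_eq {Ω : Type*} [MeasurableSpace Ω] {X : Edge d → Ω → ℝ} {P : Measure Ω}
    [IsProbabilityMeasure P] (hX : IsExpFamily X P) :
    P.map (fun ω e => X e ω) = (Pr d).map (fun ω (e : Edge d) => ω e) := by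
  have h1 : P.map (fun ω e => X e ω) = infinitePi (fun _ : Edge d => expMeasure 1) := by
    rw [(iIndepFun_iff_map_fun_eq_infinitePi_map hX.measurable).1 hX.indep]
    congr 1
    ext1 e
    exact hX.law e
  rw [h1]
  exact (infinitePi_map_restrict' (μ := fun _ : Sym2 (V d) => expMeasure 1)
    (I := (⊤ : SimpleGraph (V d)).edgeSet)).symm

theorem prob_eq {Ω : Type*} [MeasurableSpace Ω] {X : Edge d → Ω → ℝ} {P : Measure Ω}
    [IsProbabilityMeasure P] (hX : IsExpFamily X P) {A : Set ℝ≥0∞} (hA : MeasurableSet A)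
    (y z : V d) : P {ω | passage (fun e => X e ω) y z ∈ A} = Pr d {ω | TT ω y z ∈ A} := by
  have hm : MeasurableSet {x : Edge d → ℝ | passage x y z ∈ A} := measurable_passage y z hA
  have h1 : P {ω | passage (fun e => X e ω) y z ∈ A} =
      P.map (fun ω e => X e ω) {x : Edge d → ℝ | passage x y z ∈ A} := by
    rw [Measure.map_apply (measurable_pi_lambda _ fun e => hX.measurable e) hm]
    rfl
  rw [h1, law_eq hX, Measure.map_apply (measurable_pi_lambda _ fun e => measurable_pi_apply _) hm]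
  congr 1
  ext ω
  show passage (fun e : Edge d => ω e) y z ∈ A ↔ TT ω y z ∈ A
  rw [passage_restrict]

theorem rpow_eq {L : ℝ} (hL : 0 ≤ L) (d : ℕ) :
    L ^ (-(((d : ℝ) + 1) / 2)) = 1 / Real.sqrt L ^ (d + 1) := by
  rw [Real.rpow_neg hL, Real.sqrt_eq_rpow, ← Real.rpow_natCast, ← Real.rpow_mul hL, one_div]
  congr 2
  push_cast
  ring

theorem one_le_dim {x : V d} (hx : x ≠ 0) : 1 ≤ d := by
  rcases Nat.eq_zero_or_pos d with h | h
  · subst h
    exact absurd (Subsingleton.elim x 0) hx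
  · exact h

/-- The main estimate for a general family. -/
theorem main {x : V d} (hx : x ≠ 0) {Ω : Type*} [MeasurableSpace Ω] {X : Edge d → Ω → ℝ}
    {P : Measure Ω} [IsProbabilityMeasure P] (hX : IsExpFamily X P) :
    IsTheta P (fun n ω => passage (fun e => X e ω) 0 (n • x))
      (fun n => n * Real.log n ^ (-(((d : ℝ) + 1) / 2))) := by
  have hd := one_le_dim hx
  have hc := clow_pos d
  refine ⟨clow d, clow d + cupp x, hc, ?_, ?_⟩
  · have h1 := Cup_pos hd
    have h2 := one_le_norm hx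
    have : 0 < cupp x := by unfold cupp; positivity
    linarith
  have h1 := lower_tail hd hx
  have h2 := upper_tail hd hx
  have h3 : Tendsto (fun n : ℕ => 1 - (Pr d {ω | TT ω 0 (n • x) <
      ENNReal.ofReal (clow d * (n / Real.sqrt (Real.log n) ^ (d + 1)))} +
      Pr d {ω | ENNReal.ofReal (cupp x * (n / Real.sqrt (Real.log n) ^ (d + 1)))
      < TT ω 0 (n • x)})) atTop (𝓝 (1 - (0 + 0))) :=
    ENNReal.Tendsto.sub tendsto_const_nhds (h1.add h2) (Or.inl ENNReal.one_ne_top)
  rw [add_zero, tsub_zero] at h3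
  refine tendsto_of_tendsto_of_tendsto_of_le_of_le' h3 tendsto_const_nhds ?_
    (Eventually.of_forall fun n => prob_le_one)
  filter_upwards [eventually_gt_atTop 1] with n hn
  have hn1 : (1 : ℝ) < n := by exact_mod_cast hn
  have hlog : 0 < Real.log n := Real.log_pos hn1
  have hb : (n : ℝ) * Real.log n ^ (-(((d : ℝ) + 1) / 2)) =
      n / Real.sqrt (Real.log n) ^ (d + 1) := by
    rw [rpow_eq hlog.le]; ring
  rw [hb]
  set b : ℝ := n / Real.sqrt (Real.log n) ^ (d + 1) with hbdef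
  have hb0 : 0 ≤ b := by rw [hbdef]; positivity
  have hA : MeasurableSet (Set.Icc (ENNReal.ofReal (clow d * b))
      (ENNReal.ofReal ((clow d + cupp x) * b))) := measurableSet_Icc
  have h4 := prob_eq hX hA 0 (n • x)
  have h5 : P {ω | ENNReal.ofReal (clow d * b) ≤ passage (fun e => X e ω) 0 (n • x) ∧
      passage (fun e => X e ω) 0 (n • x) ≤ ENNReal.ofReal ((clow d + cupp x) * b)} =
      Pr d {ω | TT ω 0 (n • x) ∈ Set.Icc (ENNReal.ofReal (clow d * b))
      (ENNReal.ofReal ((clow d + cupp x) * b))} := h4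
  rw [h5]
  have hm : MeasurableSet {ω : Sym2 (V d) → ℝ | TT ω 0 (n • x) ∈
      Set.Icc (ENNReal.ofReal (clow d * b)) (ENNReal.ofReal ((clow d + cupp x) * b))} :=
    measurable_TT 0 (n • x) hA
  have h6 := prob_compl_eq_one_sub (μ := Pr d) hm
  have h7 : Pr d {ω : Sym2 (V d) → ℝ | TT ω 0 (n • x) ∈
      Set.Icc (ENNReal.ofReal (clow d * b)) (ENNReal.ofReal ((clow d + cupp x) * b))}ᶜ ≤
      Pr d {ω | TT ω 0 (n • x) < ENNReal.ofReal (clow d * b)} +
        Pr d {ω | ENNReal.ofReal (cupp x * b) < TT ω 0 (n • x)} := by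
    refine (measure_mono ?_).trans (measure_union_le _ _)
    intro ω hω
    have hω' : ¬ (ENNReal.ofReal (clow d * b) ≤ TT ω 0 (n • x) ∧
      TT ω 0 (n • x) ≤ ENNReal.ofReal ((clow d + cupp x) * b)) := hω
    rw [not_and_or, not_le, not_le] at hω'
    rcases hω' with h | h
    · left; exact h
    · right
      refine lt_of_le_of_lt (ENNReal.ofReal_le_ofReal ?_) h
      nlinarith
  rw [tsub_le_iff_right]
  calc (1 : ℝ≥0∞) = Pr d {ω : Sym2 (V d) → ℝ | TT ω 0 (n • x) ∈
      Set.Icc (ENNReal.ofReal (clow d * b)) (ENNReal.ofReal ((clow d + cupp x) * b))} +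
      Pr d {ω : Sym2 (V d) → ℝ | TT ω 0 (n • x) ∈
      Set.Icc (ENNReal.ofReal (clow d * b)) (ENNReal.ofReal ((clow d + cupp x) * b))}ᶜ := by
        rw [h6, add_tsub_cancel_of_le prob_le_one]
    _ ≤ _ := by gcongr

/-- The exponent is unique. -/
theorem theta_unique {Ω : Type*} [MeasurableSpace Ω] {P : Measure Ω} [IsProbabilityMeasure P]
    {a : ℕ → Ω → ℝ≥0∞} (ha : ∀ n, Measurable (a n)) {θ θ' : ℝ} (hθ : θ < θ')
    (h : IsTheta P a fun n => n * Real.log n ^ (-θ))
    (h' : IsTheta P a fun n => n * Real.log n ^ (-θ')) : False := by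
  obtain ⟨c, C, hc, hcC, h1⟩ := h
  obtain ⟨c', C', hc', hcC', h2⟩ := h'
  have hlogn : Tendsto (fun n : ℕ => Real.log n) atTop atTop :=
    Real.tendsto_log_atTop.comp tendsto_natCast_atTop_atTop
  have hratio : Tendsto (fun n : ℕ => Real.log n ^ (θ' - θ)) atTop atTop :=
    (tendsto_rpow_atTop (by linarith)).comp hlogn
  have e1 : ∀ᶠ n : ℕ in atTop, (1 / 2 : ℝ≥0∞) < P {ω | ENNReal.ofReal (c * (n * Real.log n ^ (-θ)))
      ≤ a n ω ∧ a n ω ≤ ENNReal.ofReal (C * (n * Real.log n ^ (-θ)))} :=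
    h1.eventually (lt_mem_nhds (by norm_num))
  have e2 : ∀ᶠ n : ℕ in atTop, (1 / 2 : ℝ≥0∞) < P {ω | ENNReal.ofReal (c' * (n * Real.log n ^ (-θ')))
      ≤ a n ω ∧ a n ω ≤ ENNReal.ofReal (C' * (n * Real.log n ^ (-θ')))} :=
    h2.eventually (lt_mem_nhds (by norm_num))
  obtain ⟨n, ⟨⟨hn1, hn2⟩, hn3⟩, hn4⟩ := (((e1.and e2).and (hratio.eventually_gt_atTop (C' / c))).and
    (eventually_gt_atTop 2)).exists
  have hn5 : (1 : ℝ) < n := by exact_mod_cast (by omega : 1 < n)
  have hlog : 0 < Real.log n := Real.log_pos hn5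
  have hn0 : (0 : ℝ) < n := by linarith
  -- the two events intersect
  obtain ⟨ω, ⟨hω1, -⟩, ⟨-, hω2⟩⟩ : ({ω | ENNReal.ofReal (c * (n * Real.log n ^ (-θ)))
      ≤ a n ω ∧ a n ω ≤ ENNReal.ofReal (C * (n * Real.log n ^ (-θ)))} ∩
      {ω | ENNReal.ofReal (c' * (n * Real.log n ^ (-θ')))
      ≤ a n ω ∧ a n ω ≤ ENNReal.ofReal (C' * (n * Real.log n ^ (-θ')))}).Nonempty := by
    by_contra hcon
    rw [Set.not_nonempty_iff_eq_empty, ← Set.disjoint_iff_inter_eq_empty] at hcon
    have hm : MeasurableSet {ω | ENNReal.ofReal (c' * (n * Real.log n ^ (-θ')))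
      ≤ a n ω ∧ a n ω ≤ ENNReal.ofReal (C' * (n * Real.log n ^ (-θ')))} :=
      (measurableSet_le measurable_const (ha n)).inter (measurableSet_le (ha n) measurable_const)
    have h3 := measure_union (μ := P) hcon hm
    have h4 : P ({ω | ENNReal.ofReal (c * (n * Real.log n ^ (-θ)))
      ≤ a n ω ∧ a n ω ≤ ENNReal.ofReal (C * (n * Real.log n ^ (-θ)))} ∪
      {ω | ENNReal.ofReal (c' * (n * Real.log n ^ (-θ')))
      ≤ a n ω ∧ a n ω ≤ ENNReal.ofReal (C' * (n * Real.log n ^ (-θ')))}) ≤ 1 := prob_le_one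
    rw [h3] at h4
    have h5 := ENNReal.add_lt_add hn1 hn2
    rw [ENNReal.add_halves] at h5
    exact absurd h5 (not_lt.2 h4)
  have h6 := hω1.trans hω2
  have hp1 := Real.rpow_pos_of_pos hlog (-θ)
  have hp2 := Real.rpow_pos_of_pos hlog (-θ')
  rw [ENNReal.ofReal_le_ofReal_iff (by
    have : 0 < C' := by linarith
    positivity)] at h6
  have h7 : c * Real.log n ^ (-θ) ≤ C' * Real.log n ^ (-θ') := by
    have : (c * Real.log n ^ (-θ)) * n ≤ (C' * Real.log n ^ (-θ')) * n := by
      calc (c * Real.log n ^ (-θ)) * n = c * (n * Real.log n ^ (-θ)) := by ring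
        _ ≤ C' * (n * Real.log n ^ (-θ')) := h6
        _ = _ := by ring
    exact le_of_mul_le_mul_right this hn0
  have h8 : Real.log n ^ (-θ) = Real.log n ^ (-θ') * Real.log n ^ (θ' - θ) := by
    rw [← Real.rpow_add hlog]
    congr 1; ring
  rw [h8] at h7
  have h9 : c * Real.log n ^ (θ' - θ) ≤ C' := by
    have : (c * Real.log n ^ (θ' - θ)) * Real.log n ^ (-θ') ≤ C' * Real.log n ^ (-θ') := by
      calc (c * Real.log n ^ (θ' - θ)) * Real.log n ^ (-θ')
          = c * (Real.log n ^ (-θ') * Real.log n ^ (θ' - θ)) := by ring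
        _ ≤ _ := h7
    exact le_of_mul_le_mul_right this hp2
  rw [div_lt_iff₀ hc] at hn3
  linarith

theorem exists_family (d : ℕ) : ∃ P : Measure (Edge d → ℝ), IsProbabilityMeasure P ∧
    IsExpFamily (fun (e : Edge d) (ω : Edge d → ℝ) => ω e) P := by
  refine ⟨infinitePi fun _ : Edge d => expMeasure 1, inferInstance, ?_, ?_, ?_⟩
  · intro e
    exact measurable_pi_apply e
  · exact iIndepFun_infinitePi (X := fun _ x => x) (fun _ => measurable_id)
  · intro e
    exact infinitePi_map_eval _ e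

end Pool.Agent.R963.LR
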