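import Mathlib

open scoped ENNReal

namespace Pool.Agent.R963.LR

/-! ### Geometric sums over `ℤ` and `ℤ^n` -/

theorem tsum_exp_nat {κ : ℝ} (hκ : 0 < κ) :
    ∑' n : ℕ, ENNReal.ofReal (Real.exp (-(κ * n))) ≤ ENNReal.ofReal (1 + 1 / κ) := by
  have h1 : ∀ n : ℕ, ENNReal.ofReal (Real.exp (-(κ * n))) =
      (ENNReal.ofReal (Real.exp (-κ))) ^ n := by
    intro n
    rw [← ENNReal.ofReal_pow (Real.exp_pos _).le, ← Real.exp_nat_mul]
    congr 2
    ring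
  simp_rw [h1]
  have hlt : Real.exp (-κ) < 1 := by
    rw [Real.exp_lt_one_iff]; linarith
  rw [ENNReal.tsum_geometric, ← ENNReal.ofReal_one, ← ENNReal.ofReal_sub _ (Real.exp_pos _).le,
    ← ENNReal.ofReal_inv_of_pos (by linarith)]
  apply ENNReal.ofReal_le_ofReal
  have h2 : 1 + κ ≤ Real.exp κ := by
    have := Real.add_one_le_exp κ; linarith
  have h3 : Real.exp (-κ) ≤ (1 + κ)⁻¹ := by
    rw [Real.exp_neg]
    exact inv_anti₀ (by linarith) h2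
  have h4 : κ / (1 + κ) ≤ 1 - Real.exp (-κ) := by
    have : 1 - (1 + κ)⁻¹ = κ / (1 + κ) := by field_simp; ring
    linarith
  calc (1 - Real.exp (-κ))⁻¹ ≤ (κ / (1 + κ))⁻¹ := inv_anti₀ (by positivity) h4
    _ = 1 + 1 / κ := by field_simp; ring

theorem tsum_exp_int {κ : ℝ} (hκ : 0 < κ) (β : ℝ) :
    ∑' m : ℤ, ENNReal.ofReal (Real.exp (-(κ * |(m : ℝ) - β|))) ≤
      ENNReal.ofReal (2 * (1 + 1 / κ)) := by
  have hshift := (Equiv.addRight ⌊β⌋).tsum_eq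
    (fun m : ℤ => ENNReal.ofReal (Real.exp (-(κ * |(m : ℝ) - β|))))
  rw [← hshift]
  simp only [Equiv.coe_addRight, Int.cast_add]
  set f : ℝ := β - ⌊β⌋ with hf
  have hf0 : 0 ≤ f := by have := Int.floor_le β; linarith
  have hf1 : f < 1 := by have := Int.lt_floor_add_one β; linarith
  have hcong : ∀ m : ℤ, (m : ℝ) + (⌊β⌋ : ℝ) - β = m - f := by intro m; rw [hf]; ring
  simp_rw [hcong]
  rw [← Equiv.tsum_eq (Equiv.addRight (1 : ℤ))
    (fun m : ℤ => ENNReal.ofReal (Real.exp (-(κ * |(m : ℝ) - f|))))]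
  simp only [Equiv.coe_addRight, Int.cast_add, Int.cast_one]
  rw [tsum_of_nat_of_neg_add_one ENNReal.summable ENNReal.summable]
  have hb := tsum_exp_nat hκ
  have hsum : ENNReal.ofReal (2 * (1 + 1 / κ)) =
      ENNReal.ofReal (1 + 1 / κ) + ENNReal.ofReal (1 + 1 / κ) := by
    rw [← ENNReal.ofReal_add (by positivity) (by positivity)]
    congr 1; ring
  rw [hsum]
  refine add_le_add (le_trans (ENNReal.tsum_le_tsum fun n => ?_) hb)
    (le_trans (ENNReal.tsum_le_tsum fun n => ?_) hb)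
  · apply ENNReal.ofReal_le_ofReal
    apply Real.exp_le_exp.2
    have h1 : (n : ℝ) ≤ |((n : ℤ) : ℝ) + 1 - f| := by
      push_cast
      have : (n : ℝ) ≤ (n : ℝ) + 1 - f := by linarith
      exact this.trans (le_abs_self _)
    have := mul_le_mul_of_nonneg_left h1 hκ.le
    linarith
  · apply ENNReal.ofReal_le_ofReal
    apply Real.exp_le_exp.2
    have h1 : (n : ℝ) ≤ |((-((n : ℤ) + 1) : ℤ) : ℝ) + 1 - f| := by
      push_cast
      have : -(n : ℝ) ≥ -((n : ℝ) + 1) + 1 - f := by linarith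
      have h2 : (n : ℝ) ≤ -(-((n : ℝ) + 1) + 1 - f) := by linarith
      exact h2.trans (neg_le_abs _)
    have := mul_le_mul_of_nonneg_left h1 hκ.le
    linarith

/-- Products of sums over `ℤ^n`. -/
theorem tsum_prod_pi (n : ℕ) (g : Fin n → ℤ → ℝ≥0∞) :
    ∑' y : Fin n → ℤ, ∏ j, g j (y j) = ∏ j, ∑' m : ℤ, g j m := by
  induction n with
  | zero => simp [tsum_fintype]
  | succ n ih =>
    rw [← (Fin.consEquiv (fun _ : Fin (n + 1) => ℤ)).tsum_eq, ENNReal.tsum_prod']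
    simp only [Fin.consEquiv_apply, Fin.prod_univ_succ, Fin.cons_zero, Fin.cons_succ]
    simp_rw [ENNReal.tsum_mul_left, ih (fun j => g j.succ), ENNReal.tsum_mul_right]

theorem tsum_shifted (n : ℕ) (i₀ : Fin (n + 1)) (β : Fin n → ℝ) {κ₁ κ₂ : ℝ} (h1 : 0 < κ₁)
    (h2 : 0 < κ₂) :
    ∑' z : Fin (n + 1) → ℤ, ENNReal.ofReal (Real.exp (-(κ₁ * |(z i₀ : ℝ)| +
      κ₂ * ∑ j : Fin n, |(z (i₀.succAbove j) : ℝ) - β j * z i₀|))) ≤
      ENNReal.ofReal (2 * (1 + 1 / κ₁)) * (ENNReal.ofReal (2 * (1 + 1 / κ₂))) ^ n := by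
  rw [← (Fin.insertNthEquiv (fun _ : Fin (n + 1) => ℤ) i₀).tsum_eq, ENNReal.tsum_prod']
  simp only [Fin.insertNthEquiv_apply, Fin.insertNth_apply_same, Fin.insertNth_apply_succAbove]
  have h3 : ∀ (m : ℤ) (y : Fin n → ℤ), ENNReal.ofReal (Real.exp (-(κ₁ * |(m : ℝ)| +
      κ₂ * ∑ j : Fin n, |(y j : ℝ) - β j * m|))) =
      ENNReal.ofReal (Real.exp (-(κ₁ * |(m : ℝ) - 0|))) *
        ∏ j : Fin n, ENNReal.ofReal (Real.exp (-(κ₂ * |(y j : ℝ) - β j * m|))) := by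
    intro m y
    rw [← ENNReal.ofReal_prod_of_nonneg fun i _ => (Real.exp_pos _).le,
      ← ENNReal.ofReal_mul (Real.exp_pos _).le, ← Real.exp_sum, ← Real.exp_add]
    congr 2
    rw [sub_zero, Finset.sum_neg_distrib, Finset.mul_sum]
    ring
  simp_rw [h3, ENNReal.tsum_mul_left]
  calc ∑' m : ℤ, ENNReal.ofReal (Real.exp (-(κ₁ * |(m : ℝ) - 0|))) *
        ∑' y : Fin n → ℤ, ∏ j : Fin n, ENNReal.ofReal (Real.exp (-(κ₂ * |(y j : ℝ) - β j * m|)))
      ≤ ∑' m : ℤ, ENNReal.ofReal (Real.exp (-(κ₁ * |(m : ℝ) - 0|))) *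
          (ENNReal.ofReal (2 * (1 + 1 / κ₂))) ^ n := by
        gcongr with m
        rw [tsum_prod_pi n (fun j k => ENNReal.ofReal (Real.exp (-(κ₂ * |(k : ℝ) - β j * m|))))]
        calc ∏ j : Fin n, ∑' k : ℤ, ENNReal.ofReal (Real.exp (-(κ₂ * |(k : ℝ) - β j * m|)))
            ≤ ∏ _j : Fin n, ENNReal.ofReal (2 * (1 + 1 / κ₂)) :=
              Finset.prod_le_prod' fun j _ => tsum_exp_int h2 _
          _ = _ := by simp
    _ = (∑' m : ℤ, ENNReal.ofReal (Real.exp (-(κ₁ * |(m : ℝ) - 0|)))) *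
          (ENNReal.ofReal (2 * (1 + 1 / κ₂))) ^ n := ENNReal.tsum_mul_right
    _ ≤ _ := by
        gcongr
        exact tsum_exp_int h1 0

end Pool.Agent.R963.LR
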