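import Pool.Agent.R963.LR.Defs
import Pool.Agent.R963.LR.Sums

open scoped ENNReal RealInnerProductSpace

namespace Pool.Agent.R963.LR

/-- Euclidean space. -/
abbrev E (d : ℕ) := EuclideanSpace ℝ (Fin d)

variable {d : ℕ}

/-- A lattice point as a point of `ℝ^d`. -/
noncomputable def toE (v : V d) : E d := WithLp.toLp 2 (fun i => (v i : ℝ))

theorem toE_apply (v : V d) (i : Fin d) : toE v i = (v i : ℝ) := rfl

theorem toE_add (u v : V d) : toE (u + v) = toE u + toE v := by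
  ext i; simp [toE_apply]

theorem toE_sub (u v : V d) : toE (u - v) = toE u - toE v := by
  ext i; simp [toE_apply]

theorem toE_neg (u : V d) : toE (-u) = -toE u := by
  ext i; simp [toE_apply]

theorem toE_zero : toE (0 : V d) = 0 := by
  ext i; simp [toE_apply]

theorem abs_apply_le (z : E d) (i : Fin d) : |z i| ≤ ‖z‖ := by
  have := PiLp.norm_apply_le z i
  rwa [Real.norm_eq_abs] at this

theorem norm_le_sum (z : E d) : ‖z‖ ≤ ∑ i, |z i| := by
  have h2 : z = ∑ i, z i • EuclideanSpace.single i (1 : ℝ) := by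
    ext j
    simp [Pi.single_apply]
  calc ‖z‖ = ‖∑ i, z i • EuclideanSpace.single i (1 : ℝ)‖ := by rw [← h2]
    _ ≤ ∑ i, ‖z i • EuclideanSpace.single i (1 : ℝ)‖ := norm_sum_le _ _
    _ = ∑ i, |z i| := by
      apply Finset.sum_congr rfl
      intro i _
      rw [norm_smul]
      simp

theorem sum_le_norm (z : E d) : ∑ i, |z i| ≤ d * ‖z‖ := by
  calc ∑ i, |z i| ≤ ∑ _i : Fin d, ‖z‖ := Finset.sum_le_sum fun i _ => abs_apply_le z i
    _ = d * ‖z‖ := by simp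

theorem l1_cast (v : V d) : (l1 v : ℝ) = ∑ i, |toE v i| := by
  unfold l1
  push_cast
  refine Finset.sum_congr rfl fun i _ => ?_
  rw [toE_apply]
  exact Nat.cast_natAbs (α := ℝ) (v i) ▸ by push_cast; rfl

theorem norm_le_l1 (v : V d) : ‖toE v‖ ≤ l1 v := by
  rw [l1_cast]; exact norm_le_sum _

theorem l1_le_norm (v : V d) : (l1 v : ℝ) ≤ d * ‖toE v‖ := by
  rw [l1_cast]; exact sum_le_norm _

theorem one_le_norm {v : V d} (hv : v ≠ 0) : 1 ≤ ‖toE v‖ := by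
  obtain ⟨i, hi⟩ := Function.ne_iff.1 hv
  have h1 : (1 : ℤ) ≤ |v i| := Int.one_le_abs hi
  have h2 : (1 : ℝ) ≤ |(v i : ℝ)| := by exact_mod_cast h1
  have h3 := abs_apply_le (toE v) i
  rw [toE_apply] at h3
  linarith

/-- The Euclidean length of a pair. -/
noncomputable def elen (e : Sym2 (V d)) : ℝ :=
  Sym2.lift ⟨fun y z => ‖toE (y - z)‖, fun y z => by
    show ‖toE (y - z)‖ = ‖toE (z - y)‖
    rw [toE_sub, toE_sub, norm_sub_rev]⟩ e

theorem elen_mk (y z : V d) : elen s(y, z) = ‖toE (y - z)‖ := rfl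

theorem len_mk (y z : V d) : len s(y, z) = l1 (y - z) := rfl

theorem elen_le_len (e : Sym2 (V d)) : elen e ≤ len e := by
  induction e using Sym2.ind with
  | _ y z => rw [elen_mk, len_mk]; exact norm_le_l1 _

theorem len_le_elen (e : Sym2 (V d)) : (len e : ℝ) ≤ d * elen e := by
  induction e using Sym2.ind with
  | _ y z => rw [elen_mk, len_mk]; exact l1_le_norm _

/-! ### The tilt inequality -/

theorem tilt_basic {s p r q : ℝ} (hp : 0 ≤ p) (hr : 0 ≤ r) (hq : 0 < q) (hq1 : q ≤ 1)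
    (h : r ^ 2 = s ^ 2 + p ^ 2) :
    (q ^ 2 * |s| + q * p) / 2 ≤ r - (1 - q ^ 2) * s := by
  have hrs : |s| ≤ r := abs_le_of_sq_le_sq (by nlinarith) hr
  have hrp : p ≤ r := by nlinarith
  have hq2 : q ^ 2 ≤ 1 := by nlinarith
  rcases le_total 0 s with hs | hs
  · rw [abs_of_nonneg hs]
    have h1 : ((1 - q ^ 2 / 2) * s + q * p / 2) ^ 2 ≤ r ^ 2 := by
      rw [h]
      have h2 : 0 ≤ (1 - q ^ 2 / 4) * (q * s - p) ^ 2 := by
        have : 0 ≤ 1 - q ^ 2 / 4 := by nlinarith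
        positivity
      have h3 : 0 ≤ q * s * p := by positivity
      nlinarith
    have h4 : (1 - q ^ 2 / 2) * s + q * p / 2 ≤ r := by
      apply le_of_sq_le_sq h1 hr
    linarith
  · rw [abs_of_nonpos hs] at hrs ⊢
    have h1 : q ^ 2 * -s ≤ -s := by nlinarith
    have h2 : q * p ≤ p := by nlinarith
    have h3 : 0 ≤ (1 - q ^ 2) * -s := by
      apply mul_nonneg <;> nlinarith
    nlinarith

theorem tilt_inner {y : E d} (hy : ‖y‖ = 1) (z : E d) {q : ℝ} (hq : 0 < q) (hq1 : q ≤ 1) :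
    (q ^ 2 * |⟪y, z⟫| + q * ‖z - ⟪y, z⟫ • y‖) / 2 ≤ ‖z‖ - (1 - q ^ 2) * ⟪y, z⟫ := by
  apply tilt_basic (norm_nonneg _) (norm_nonneg _) hq hq1
  rw [norm_sub_sq_real, norm_smul, hy, inner_smul_right, real_inner_comm]
  simp only [Real.norm_eq_abs, mul_one, sq_abs]
  ring

theorem exists_big_coord (hd : 1 ≤ d) {y : E d} (hy : ‖y‖ = 1) : ∃ i : Fin d, 1 / (d : ℝ) ≤ |y i| := by
  by_contra hcon
  push Not at hcon
  have hd0 : (0 : ℝ) < d := by exact_mod_cast hd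
  have h1 : ∑ i, |y i| < ∑ _i : Fin d, 1 / (d : ℝ) := by
    apply Finset.sum_lt_sum_of_nonempty
    · exact ⟨⟨0, hd⟩, Finset.mem_univ _⟩
    · intro i _; exact hcon i
  rw [Finset.sum_const, Finset.card_univ, Fintype.card_fin, nsmul_eq_mul,
    mul_one_div_cancel hd0.ne'] at h1
  have h2 := norm_le_sum y
  linarith

/-- The tilt inequality in coordinates. -/
theorem tilt_coord {n : ℕ} {y : E (n + 1)} (hy : ‖y‖ = 1) {i₀ : Fin (n + 1)}
    (hi₀ : 1 / ((n + 1 : ℕ) : ℝ) ≤ |y i₀|) (z : E (n + 1)) {q : ℝ} (hq : 0 < q) (hq1 : q ≤ 1) :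
    (1 / (2 * (n + 2 : ℝ) ^ 2)) * (q ^ 2 * |z i₀| +
      q * ∑ j : Fin n, |z (i₀.succAbove j) - y (i₀.succAbove j) / y i₀ * z i₀|) ≤
      ‖z‖ - (1 - q ^ 2) * ⟪y, z⟫ := by
  set s : ℝ := ⟪y, z⟫ with hs
  set w : E (n + 1) := z - s • y with hw
  have h0 := tilt_inner hy z hq hq1
  rw [← hs, ← hw] at h0
  have hn0 : (0 : ℝ) < (n + 1 : ℕ) := by positivity
  have hyi : 0 < |y i₀| := lt_of_lt_of_le (by positivity) hi₀
  have hyi' : y i₀ ≠ 0 := abs_pos.1 hyi
  have hq2 : q ^ 2 ≤ q := by nlinarith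
  have hzw : ∀ i, z i = s * y i + w i := by intro i; simp [hw]
  have hwn : ∀ i, |w i| ≤ ‖w‖ := fun i => abs_apply_le w i
  have hyn : ∀ i, |y i| ≤ 1 := fun i => by rw [← hy]; exact abs_apply_le y i
  have h1 : q ^ 2 * |z i₀| ≤ q ^ 2 * |s| + q * ‖w‖ := by
    have h2 : |z i₀| ≤ |s| + ‖w‖ := by
      rw [hzw]
      calc |s * y i₀ + w i₀| ≤ |s * y i₀| + |w i₀| := abs_add_le _ _
        _ ≤ |s| * 1 + ‖w‖ := by
          rw [abs_mul]
          gcongr
          · exact hyn i₀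
          · exact hwn i₀
        _ = _ := by ring
    have h3 : q ^ 2 * |z i₀| ≤ q ^ 2 * (|s| + ‖w‖) := by gcongr
    have h4 : q ^ 2 * ‖w‖ ≤ q * ‖w‖ := by gcongr
    linarith
  have h5 : ∀ j : Fin n, |z (i₀.succAbove j) - y (i₀.succAbove j) / y i₀ * z i₀| ≤
      (n + 2 : ℝ) * ‖w‖ := by
    intro j
    have h6 : z (i₀.succAbove j) - y (i₀.succAbove j) / y i₀ * z i₀ =
        w (i₀.succAbove j) - y (i₀.succAbove j) / y i₀ * w i₀ := by
      rw [hzw (i₀.succAbove j), hzw i₀]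
      field_simp
      ring
    have h7 : |y (i₀.succAbove j) / y i₀| ≤ (n + 1 : ℝ) := by
      rw [abs_div, div_le_iff₀ hyi]
      have h8 : (1 : ℝ) ≤ (n + 1 : ℝ) * |y i₀| := by
        rw [div_le_iff₀ hn0] at hi₀
        push_cast at hi₀
        linarith
      exact (hyn _).trans h8
    rw [h6]
    calc |w (i₀.succAbove j) - y (i₀.succAbove j) / y i₀ * w i₀|
        ≤ |w (i₀.succAbove j)| + |y (i₀.succAbove j) / y i₀ * w i₀| := abs_sub _ _
      _ ≤ ‖w‖ + (n + 1 : ℝ) * ‖w‖ := by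
        rw [abs_mul]
        gcongr
        · exact hwn _
        · exact hwn _
      _ = _ := by ring
  have h6 : q * ∑ j : Fin n, |z (i₀.succAbove j) - y (i₀.succAbove j) / y i₀ * z i₀| ≤
      (n : ℝ) * (n + 2) * (q * ‖w‖) := by
    calc q * ∑ j : Fin n, |z (i₀.succAbove j) - y (i₀.succAbove j) / y i₀ * z i₀|
        ≤ q * ∑ _j : Fin n, (n + 2 : ℝ) * ‖w‖ := by
          gcongr with j
          exact h5 j
      _ = _ := by
        rw [Finset.sum_const, Finset.card_univ, Fintype.card_fin, nsmul_eq_mul]; ring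
  have hA : 0 ≤ q ^ 2 * |s| := by positivity
  have hB : 0 ≤ q * ‖w‖ := by positivity
  have h7 : q ^ 2 * |z i₀| +
      q * ∑ j : Fin n, |z (i₀.succAbove j) - y (i₀.succAbove j) / y i₀ * z i₀| ≤
      (n + 2 : ℝ) ^ 2 * (q ^ 2 * |s| + q * ‖w‖) := by
    have hn : (0 : ℝ) ≤ n := by positivity
    have h8 : (q ^ 2 * |s| + q * ‖w‖) + (n : ℝ) * (n + 2) * (q * ‖w‖) ≤
        (n + 2 : ℝ) ^ 2 * (q ^ 2 * |s| + q * ‖w‖) := by
      nlinarith [mul_nonneg hn hA, mul_nonneg (mul_nonneg hn hn) hA, mul_nonneg hn hB,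
        mul_nonneg (mul_nonneg hn hn) hB]
    linarith
  have hn2 : (0 : ℝ) < (n + 2 : ℝ) ^ 2 := by positivity
  calc (1 / (2 * (n + 2 : ℝ) ^ 2)) * (q ^ 2 * |z i₀| +
      q * ∑ j : Fin n, |z (i₀.succAbove j) - y (i₀.succAbove j) / y i₀ * z i₀|)
      ≤ (1 / (2 * (n + 2 : ℝ) ^ 2)) * ((n + 2 : ℝ) ^ 2 * (q ^ 2 * |s| + q * ‖w‖)) := by gcongr
    _ = (q ^ 2 * |s| + q * ‖w‖) / 2 := by field_simp
    _ ≤ _ := h0

/-- The constant of the tilted sum. -/
noncomputable def Ctilt (d : ℕ) : ℝ := (8 * (d + 1 : ℝ) ^ 2) ^ d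

theorem Ctilt_pos (d : ℕ) : 0 < Ctilt d := by unfold Ctilt; positivity

/-- The tilted lattice sum. -/
theorem tilt_sum (hd : 1 ≤ d) {y : E d} (hy : ‖y‖ = 1) {a q : ℝ} (ha : 0 < a) (ha1 : a ≤ 1)
    (hq : 0 < q) (hq1 : q ≤ 1) :
    ∑' z : V d, ENNReal.ofReal (Real.exp (-(a * (‖toE z‖ - (1 - q ^ 2) * ⟪y, toE z⟫)))) ≤
      ENNReal.ofReal (Ctilt d / (a ^ d * q ^ (d + 1))) := by
  obtain ⟨n, rfl⟩ : ∃ n, d = n + 1 := ⟨d - 1, by omega⟩
  obtain ⟨i₀, hi₀⟩ := exists_big_coord (by omega) hy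
  set c : ℝ := 1 / (2 * (n + 2 : ℝ) ^ 2) with hc
  have hc0 : 0 < c := by positivity
  have hc1 : c ≤ 1 := by
    rw [hc, div_le_one (by positivity)]
    have : (0 : ℝ) ≤ n := by positivity
    nlinarith
  have hκ₁ : 0 < a * c * q ^ 2 := by positivity
  have hκ₂ : 0 < a * c * q := by positivity
  have h1 := tsum_shifted n i₀ (fun j => y (i₀.succAbove j) / y i₀) hκ₁ hκ₂
  refine le_trans (ENNReal.tsum_le_tsum fun z => ?_) (h1.trans ?_)
  · apply ENNReal.ofReal_le_ofReal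
    apply Real.exp_le_exp.2
    apply neg_le_neg
    have h2 := tilt_coord hy hi₀ (toE z) hq hq1
    have h3 := mul_le_mul_of_nonneg_left h2 ha.le
    refine le_trans (le_of_eq ?_) h3
    simp only [toE_apply]
    rw [← hc]
    ring
  · rw [← ENNReal.ofReal_pow (by positivity), ← ENNReal.ofReal_mul (by positivity)]
    apply ENNReal.ofReal_le_ofReal
    have hb : ∀ κ : ℝ, 0 < κ → κ ≤ 1 → 2 * (1 + 1 / κ) ≤ 4 / κ := by
      intro κ h h'
      have : 1 ≤ 1 / κ := by rw [le_div_iff₀ h]; linarith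
      calc 2 * (1 + 1 / κ) ≤ 2 * (1 / κ + 1 / κ) := by gcongr
        _ = 4 / κ := by ring
    have hac : a * c ≤ 1 := by nlinarith
    have h2 := hb _ hκ₁ (by
      have : q ^ 2 ≤ 1 := by nlinarith
      nlinarith [mul_pos ha hc0])
    have h3 := hb _ hκ₂ (by nlinarith [mul_pos ha hc0])
    calc 2 * (1 + 1 / (a * c * q ^ 2)) * (2 * (1 + 1 / (a * c * q))) ^ n
        ≤ 4 / (a * c * q ^ 2) * (4 / (a * c * q)) ^ n := by gcongr
      _ = Ctilt (n + 1) / (a ^ (n + 1) * q ^ (n + 1 + 1)) := by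
        have hC : Ctilt (n + 1) = (4 / c) ^ (n + 1) := by
          unfold Ctilt
          congr 1
          rw [hc]
          push_cast
          rw [show (n : ℝ) + 1 + 1 = n + 2 by ring]
          field_simp
          norm_num
        rw [hC, div_pow, div_pow, mul_pow, mul_pow]
        field_simp
        ring

end Pool.Agent.R963.LR
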