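import Pool.Agent.R963.LR.Lower2

open MeasureTheory ProbabilityTheory MeasureTheory.Measure
open scoped ENNReal RealInnerProductSpace

namespace Pool.Agent.R963.LR

variable {d : ℕ}

/-- Traversal time of a pair (internal version, indexed by all unordered pairs). -/
noncomputable def Wt (ω : Sym2 (V d) → ℝ) (e : Sym2 (V d)) : ℝ≥0∞ :=
  ENNReal.ofReal (ω e * (len e : ℝ) ^ (2 * d + 1))

/-- The passage time of a walk. -/
noncomputable def cost (ω : Sym2 (V d) → ℝ) {x y : V d} (w : (⊤ : SimpleGraph (V d)).Walk x y) :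
    ℝ≥0∞ := (w.edges.map (Wt ω)).sum

/-- First-passage time (internal version). -/
noncomputable def TT (ω : Sym2 (V d) → ℝ) (x y : V d) : ℝ≥0∞ :=
  ⨅ w : (⊤ : SimpleGraph (V d)).Walk x y, cost ω w

theorem Wt_eq (ω : Sym2 (V d) → ℝ) (e : Sym2 (V d)) :
    Wt ω e = ENNReal.ofReal (max (ω e) 0 * (len e : ℝ) ^ (2 * d + 1)) := by
  unfold Wt
  rcases le_total 0 (ω e) with h | h
  · rw [max_eq_left h]
  · rw [max_eq_right h, zero_mul, ENNReal.ofReal_zero, ENNReal.ofReal_of_nonpos]
    exact mul_nonpos_of_nonpos_of_nonneg h (by positivity)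

theorem exp_le_prd {lam t : ℝ} (hlam : 0 ≤ lam) {A : Finset (Sym2 (V d))}
    {ω : Sym2 (V d) → ℝ} (h : ∑ e ∈ A, Wt ω e < ENNReal.ofReal t) :
    ENNReal.ofReal (Real.exp (-(lam * t))) ≤ prd (phi lam) A ω := by
  have h1 : ∑ e ∈ A, Wt ω e =
      ENNReal.ofReal (∑ e ∈ A, max (ω e) 0 * (len e : ℝ) ^ (2 * d + 1)) := by
    rw [ENNReal.ofReal_sum_of_nonneg fun e _ => by positivity]
    exact Finset.sum_congr rfl fun e _ => Wt_eq ω e
  have h2 : prd (phi lam) A ω =
      ENNReal.ofReal (Real.exp (-(lam * ∑ e ∈ A, max (ω e) 0 * (len e : ℝ) ^ (2 * d + 1)))) := by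
    unfold prd phi
    rw [← ENNReal.ofReal_prod_of_nonneg fun e _ => (Real.exp_pos _).le, ← Real.exp_sum,
      Finset.mul_sum, Finset.sum_neg_distrib]
  rw [h1] at h
  have h3 : ∑ e ∈ A, max (ω e) 0 * (len e : ℝ) ^ (2 * d + 1) < t :=
    (ENNReal.ofReal_lt_ofReal_iff_of_nonneg (Finset.sum_nonneg fun e _ => by positivity)).1 h
  rw [h2]
  apply ENNReal.ofReal_le_ofReal
  apply Real.exp_le_exp.2
  have := mul_le_mul_of_nonneg_left h3.le hlam
  linarith

theorem exists_trail {ω : Sym2 (V d) → ℝ} {x y : V d} {t : ℝ≥0∞} (h : TT ω x y < t) :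
    ∃ w : (⊤ : SimpleGraph (V d)).Walk x y, w.edges.Nodup ∧ cost ω w < t := by
  classical
  obtain ⟨w, hw⟩ := iInf_lt_iff.1 h
  refine ⟨w.bypass, w.bypass_isPath.isTrail.edges_nodup, lt_of_le_of_lt ?_ hw⟩
  unfold cost
  exact (w.edges_bypass_sublist_edges.map _).sum_le_sum fun _ _ => zero_le

/-- Pointwise bound for the event `T(x,y) < t`. -/
theorem indicator_le {lam t : ℝ} (hlam : 0 ≤ lam) (S : Set (Sym2 (V d))) (x y : V d)
    (ω : Sym2 (V d) → ℝ) :
    ({ω | TT ω x y < ENNReal.ofReal t}.indicator 1 ω : ℝ≥0∞) ≤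
      ENNReal.ofReal (Real.exp (lam * t)) * (K lam S x y ω +
        ∑' q : V d × V d, (Sᶜ.indicator 1 s(q.1, q.2) : ℝ≥0∞) *
          ⨆ p ∈ {p : Finset (Sym2 (V d)) × Finset (Sym2 (V d)) | p.1 ∈ paths S x q.1 ∧
            p.2 ∈ ({({s(q.1, q.2)} : Finset (Sym2 (V d)))} : Set (Finset (Sym2 (V d)))) ∧
            Disjoint p.1 p.2}, prd (phi lam) p.1 ω * prd (phi lam) p.2 ω) := by
  classical
  by_cases h : ω ∈ {ω | TT ω x y < ENNReal.ofReal t}
  · rw [Set.indicator_of_mem h, Pi.one_apply]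
    have h' : TT ω x y < ENNReal.ofReal t := h
    obtain ⟨w, hn, hw⟩ := exists_trail h'
    have hexp : (1 : ℝ≥0∞) = ENNReal.ofReal (Real.exp (lam * t)) *
        ENNReal.ofReal (Real.exp (-(lam * t))) := by
      rw [← ENNReal.ofReal_mul (Real.exp_pos _).le, ← Real.exp_add]
      simp
    rw [hexp]
    refine mul_le_mul' le_rfl ?_
    have hcost : cost ω w = ∑ e ∈ w.edges.toFinset, Wt ω e := (List.sum_toFinset _ hn).symm
    rcases walk_dec (S := S) (L := Sᶜ) w (fun e _ => by simp) hn with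
      h1 | ⟨u, v, w₁, w₂, huv, h1, h2⟩
    · refine le_add_right ?_
      refine (exp_le_prd hlam (A := w.edges.toFinset) (hcost ▸ hw)).trans ?_
      exact le_iSup₂_of_le (f := fun A (_ : A ∈ paths S x y) => prd (phi lam) A ω)
        w.edges.toFinset ⟨w, ⟨hn⟩, h1, rfl⟩ le_rfl
    · refine le_add_left ?_
      refine le_trans ?_ (ENNReal.le_tsum (u, v))
      rw [Set.indicator_of_mem huv, Pi.one_apply, one_mul]
      rw [h2, List.nodup_append] at hn
      obtain ⟨hn1, hn2, hn3⟩ := hn
      have hnot1 : s(u, v) ∉ w₁.edges.toFinset := by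
        rw [List.mem_toFinset]
        intro h'
        exact hn3 _ h' _ List.mem_cons_self rfl
      have hd : Disjoint w₁.edges.toFinset {s(u, v)} := by
        rw [Finset.disjoint_singleton_right]; exact hnot1
      refine le_trans ?_ (le_iSup₂_of_le (f := fun p (_ : p ∈ {p : Finset (Sym2 (V d)) ×
          Finset (Sym2 (V d)) | p.1 ∈ paths S x u ∧
            p.2 ∈ ({({s(u, v)} : Finset (Sym2 (V d)))} : Set (Finset (Sym2 (V d)))) ∧
            Disjoint p.1 p.2}) => prd (phi lam) p.1 ω * prd (phi lam) p.2 ω)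
        (w₁.edges.toFinset, {s(u, v)}) ⟨⟨w₁, ⟨hn1⟩, h1, rfl⟩, rfl, hd⟩ le_rfl)
      rw [← prd_union hd]
      apply exp_le_prd hlam
      refine lt_of_le_of_lt ?_ hw
      rw [hcost]
      apply Finset.sum_le_sum_of_subset
      rw [h2]
      intro e he
      simp only [Finset.mem_union, List.mem_toFinset, Finset.mem_singleton, List.mem_append,
        List.mem_cons] at he ⊢
      tauto
  · rw [Set.indicator_of_notMem h]
    exact zero_le

theorem measurable_Wt (e : Sym2 (V d)) : Measurable fun ω : Sym2 (V d) → ℝ => Wt ω e := by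
  unfold Wt
  fun_prop

theorem measurable_cost {x y : V d} (w : (⊤ : SimpleGraph (V d)).Walk x y) :
    Measurable fun ω : Sym2 (V d) → ℝ => cost ω w := by
  unfold cost
  induction w.edges with
  | nil => simp
  | cons e l ih =>
    simp only [List.map_cons, List.sum_cons]
    exact (measurable_Wt e).add ih

instance walk_countable (x y : V d) : Countable ((⊤ : SimpleGraph (V d)).Walk x y) := by
  have : Function.Injective (fun w : (⊤ : SimpleGraph (V d)).Walk x y => w.support) := by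
    intro w₁ w₂ h
    exact SimpleGraph.Walk.ext_support h
  exact this.countable

theorem measurable_TT (x y : V d) : Measurable fun ω : Sym2 (V d) → ℝ => TT ω x y :=
  Measurable.iInf fun w => measurable_cost w

/-- First bound on the probability of the event `T(x,y) < t`. -/
theorem prob_le {lam t : ℝ} (hlam : 0 ≤ lam) (S : Set (Sym2 (V d))) (x y : V d) :
    Pr d {ω | TT ω x y < ENNReal.ofReal t} ≤
      ENNReal.ofReal (Real.exp (lam * t)) * (∫⁻ ω, K lam S x y ω ∂(Pr d) +
        ∑' q : V d × V d, (Sᶜ.indicator 1 s(q.1, q.2) : ℝ≥0∞) *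
          ((∫⁻ ω, K lam S x q.1 ω ∂(Pr d)) * ephi lam s(q.1, q.2))) := by
  classical
  have hmeas : MeasurableSet {ω : Sym2 (V d) → ℝ | TT ω x y < ENNReal.ofReal t} :=
    measurableSet_lt (measurable_TT x y) measurable_const
  rw [← lintegral_indicator_one hmeas]
  refine (lintegral_mono (indicator_le hlam S x y)).trans ?_
  have hm := measurable_phi (d := d) lam
  rw [lintegral_const_mul' _ _ ENNReal.ofReal_ne_top]
  refine mul_le_mul' le_rfl ?_
  rw [lintegral_add_left (measurable_K lam S x y), lintegral_tsum]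
  · gcongr with q
    rw [lintegral_const_mul' _ _ (by
      by_cases h : s(q.1, q.2) ∈ Sᶜ
      · simp [Set.indicator_of_mem h]
      · simp [Set.indicator_of_notMem h])]
    gcongr
    refine (bk (fun _ => expMeasure 1) hm (paths S x q.1) {{s(q.1, q.2)}} _
      fun p hp => ⟨hp.1, hp.2.1, hp.2.2⟩).trans ?_
    refine mul_le_mul' le_rfl ?_
    simp only [Set.mem_singleton_iff, iSup_iSup_eq_left]
    exact (lintegral_phi lam s(q.1, q.2)).le
  · intro q
    refine Measurable.aemeasurable (Measurable.const_mul ?_ _)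
    refine Measurable.biSup _ (Set.to_countable _) fun p _ => ?_
    exact (measurable_prd hm _).mul (measurable_prd hm _)

/-- The sum of the expected factors over all long pairs at a given vertex. -/
theorem long_sum {lam r : ℝ} (hlam : 0 < lam) (hr : 1 ≤ r) (u : V d) :
    ∑' v : V d, ((shortE d r)ᶜ.indicator 1 s(u, v) : ℝ≥0∞) * ephi lam s(u, v) ≤
      ENNReal.ofReal (2 * 5 ^ d / (lam * r ^ (d + 1))) := by
  have hr0 : 0 < r := by linarith
  rw [← (Equiv.addRight u).tsum_eq]
  have hterm : ∀ w : V d, ((shortE d r)ᶜ.indicator 1 s(u, (Equiv.addRight u) w) : ℝ≥0∞) *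
      ephi lam s(u, (Equiv.addRight u) w) ≤
      ∑' j : ℕ, ({w : V d | ‖toE w‖ < 2 * (2 ^ j * r)}.indicator 1 w : ℝ≥0∞) *
        ENNReal.ofReal (1 / (lam * (2 ^ j * r) ^ (2 * d + 1))) := by
    intro w
    have hel : elen s(u, (Equiv.addRight u) w) = ‖toE w‖ := by
      rw [elen_mk, Equiv.coe_addRight, ← norm_neg, ← toE_neg]
      have : -(u - (w + u)) = w := by
        ext i
        simp
      rw [this]
    by_cases h : s(u, (Equiv.addRight u) w) ∈ (shortE d r)ᶜ
    · rw [Set.indicator_of_mem h, Pi.one_apply, one_mul]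
      have h1 : r ≤ ‖toE w‖ := by
        rw [← hel]
        by_contra hlt
        exact h (not_le.1 hlt)
      obtain ⟨j, hj1, hj2⟩ := exists_nat_pow_near (x := ‖toE w‖ / r) (y := 2)
        (by rw [le_div_iff₀ hr0]; linarith) one_lt_two
      rw [le_div_iff₀ hr0] at hj1
      rw [div_lt_iff₀ hr0] at hj2
      refine le_trans ?_ (ENNReal.le_tsum j)
      have hw : w ∈ {w : V d | ‖toE w‖ < 2 * (2 ^ j * r)} := by
        show ‖toE w‖ < 2 * (2 ^ j * r)
        calc ‖toE w‖ < 2 ^ (j + 1) * r := hj2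
          _ = _ := by ring
      rw [Set.indicator_of_mem hw, Pi.one_apply, one_mul]
      apply ephi_le hlam (by positivity)
      rw [hel]
      exact hj1
    · rw [Set.indicator_of_notMem h, zero_mul]
      exact zero_le
  refine (ENNReal.tsum_le_tsum hterm).trans ?_
  rw [ENNReal.tsum_comm]
  have hj : ∀ j : ℕ, ∑' w : V d, ({w : V d | ‖toE w‖ < 2 * (2 ^ j * r)}.indicator 1 w : ℝ≥0∞) *
        ENNReal.ofReal (1 / (lam * (2 ^ j * r) ^ (2 * d + 1))) ≤
      ENNReal.ofReal (5 ^ d / (lam * r ^ (d + 1))) * (ENNReal.ofReal (1 / 2)) ^ j := by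
    intro j
    rw [ENNReal.tsum_mul_right]
    have h2j : (1 : ℝ) ≤ 2 ^ j := one_le_pow₀ one_le_two
    have h1 := count_ball (d := d) (r := 2 ^ j * r) (by nlinarith)
      (fun w => ‖toE w‖ < 2 * (2 ^ j * r)) (fun w hw => hw)
    refine (mul_le_mul' h1 le_rfl).trans ?_
    rw [← ENNReal.ofReal_mul (by positivity), ← ENNReal.ofReal_pow (by norm_num),
      ← ENNReal.ofReal_mul (by positivity)]
    apply ENNReal.ofReal_le_ofReal
    have h3 : (5 * (2 ^ j * r)) ^ d * (1 / (lam * (2 ^ j * r) ^ (2 * d + 1))) =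
        5 ^ d / (lam * r ^ (d + 1)) * (1 / (2 ^ j) ^ (d + 1)) := by
      have : (2 * d + 1) = d + (d + 1) := by ring
      rw [this, pow_add, mul_pow 5, mul_pow _ r (d + 1)]
      field_simp
    rw [h3]
    gcongr
    rw [one_div_pow]
    apply one_div_le_one_div_of_le (by positivity)
    calc (2 : ℝ) ^ j = (2 ^ j) ^ 1 := (pow_one _).symm
      _ ≤ (2 ^ j) ^ (d + 1) := pow_le_pow_right₀ h2j (by omega)
  refine (ENNReal.tsum_le_tsum hj).trans ?_
  rw [ENNReal.tsum_mul_left, ENNReal.tsum_geometric]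
  have h2 : (1 - ENNReal.ofReal (1 / 2))⁻¹ = ENNReal.ofReal 2 := by
    rw [← ENNReal.ofReal_one, ← ENNReal.ofReal_sub _ (by norm_num),
      ← ENNReal.ofReal_inv_of_pos (by norm_num)]
    norm_num
  rw [h2, ← ENNReal.ofReal_mul (by positivity)]
  apply ENNReal.ofReal_le_ofReal
  apply le_of_eq
  ring

/-- The constant of the final lower bound. -/
noncomputable def Cfin (d : ℕ) : ℝ := 8 * Ctilt d * 5 ^ d

/-- Bound on the probability of the event `T(0,y) < t` at scale `k`. -/
theorem prob_bound (hd : 1 ≤ d) (k : ℕ) (y : V d) (t : ℝ) :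
    Pr d {ω | TT ω 0 y < ENNReal.ofReal t} ≤
      ENNReal.ofReal (Real.exp (1 / (mk d k * 2 ^ k) * t) *
        (4 * Real.exp (-(1 / 2 ^ k * ‖toE y‖)) + Cfin d * mk d k)) := by
  have hmk := mk_pos d k
  have hCt := Ctilt_pos d
  have H := hyp_all hd k
  set r : ℝ := 2 ^ k with hr
  have hr1 : 1 ≤ r := one_le_pow₀ one_le_two
  have hr0 : 0 < r := by linarith
  set lam : ℝ := 1 / (mk d k * r) with hlam
  have hlam0 : 0 < lam := by positivity
  refine (prob_le hlam0.le (shortE d r) 0 y).trans ?_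
  rw [ENNReal.ofReal_mul (Real.exp_pos _).le]
  refine mul_le_mul' le_rfl ?_
  rw [ENNReal.ofReal_add (by positivity) (by unfold Cfin; positivity)]
  refine add_le_add ?_ ?_
  · have := H 0 y
    rwa [sub_zero] at this
  · calc ∑' q : V d × V d, ((shortE d r)ᶜ.indicator 1 s(q.1, q.2) : ℝ≥0∞) *
          ((∫⁻ ω, K lam (shortE d r) 0 q.1 ω ∂(Pr d)) * ephi lam s(q.1, q.2))
        = ∑' u : V d, ∑' v : V d, (∫⁻ ω, K lam (shortE d r) 0 u ω ∂(Pr d)) *
            (((shortE d r)ᶜ.indicator 1 s(u, v) : ℝ≥0∞) * ephi lam s(u, v)) := by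
          rw [ENNReal.tsum_prod']
          refine tsum_congr fun u => tsum_congr fun v => ?_
          ring
      _ ≤ ∑' u : V d, ENNReal.ofReal (4 * Real.exp (-(1 / r * ‖toE u‖))) *
            ENNReal.ofReal (2 * 5 ^ d / (lam * r ^ (d + 1))) := by
          refine ENNReal.tsum_le_tsum fun u => ?_
          rw [ENNReal.tsum_mul_left]
          refine mul_le_mul' ?_ (long_sum hlam0 hr1 u)
          have := H 0 u
          rwa [sub_zero] at this
      _ = ENNReal.ofReal 4 * (∑' u : V d, ENNReal.ofReal (Real.exp (-(1 / r * ‖toE u‖)))) *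
            ENNReal.ofReal (2 * 5 ^ d / (lam * r ^ (d + 1))) := by
          rw [ENNReal.tsum_mul_right, ← ENNReal.tsum_mul_left]
          congr 2
          ext1 u
          rw [ENNReal.ofReal_mul (by norm_num)]
      _ ≤ ENNReal.ofReal 4 * ENNReal.ofReal (Ctilt d / ((1 / r) ^ d * 1 ^ (d + 1))) *
            ENNReal.ofReal (2 * 5 ^ d / (lam * r ^ (d + 1))) := by
          gcongr
          set y₀ : E d := EuclideanSpace.single ⟨0, hd⟩ (1 : ℝ) with hy₀
          have hy₀n : ‖y₀‖ = 1 := by simp [hy₀]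
          have := tilt_sum hd hy₀n (a := 1 / r) (q := 1) (by positivity)
            (by rw [div_le_one hr0]; exact hr1) one_pos le_rfl
          refine le_trans (le_of_eq ?_) this
          refine tsum_congr fun u => ?_
          congr 3
          ring
      _ ≤ ENNReal.ofReal (Cfin d * mk d k) := by
          rw [← ENNReal.ofReal_mul (by norm_num), ← ENNReal.ofReal_mul (by positivity)]
          apply ENNReal.ofReal_le_ofReal
          apply le_of_eq
          rw [hlam]
          unfold Cfin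
          rw [div_pow, one_pow, one_pow, pow_succ r d]
          field_simp
          norm_num

end Pool.Agent.R963.LR
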