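import Pool.Agent.R963.LR.Low3

open MeasureTheory ProbabilityTheory MeasureTheory.Measure Filter Topology
open scoped ENNReal RealInnerProductSpace

namespace Pool.Agent.R963.LR

variable {d : ℕ}

theorem toE_nsmul (n : ℕ) (x : V d) : toE (n • x) = (n : ℝ) • toE x := by
  ext i; simp [toE_apply]

theorem norm_nsmul_toE (n : ℕ) (x : V d) : ‖toE (n • x)‖ = n * ‖toE x‖ := by
  rw [toE_nsmul, norm_smul, Real.norm_eq_abs, abs_of_nonneg (by positivity)]

theorem mk_le (hd : 1 ≤ d) (k : ℕ) : mk d k ≤ cm d / (k + 1) := by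
  have hcm := cm_pos d
  unfold mk
  gcongr
  have h1 : (k : ℝ) + 1 ≤ k + kz d := by
    have : 1 ≤ kz d := by unfold kz; omega
    have : (1 : ℝ) ≤ kz d := by exact_mod_cast this
    linarith
  have h2 : (0 : ℝ) ≤ k := by positivity
  have h3 : 1 ≤ Real.sqrt ((k : ℝ) + kz d) := by
    rw [Real.one_le_sqrt]; linarith
  calc (k : ℝ) + 1 ≤ k + kz d := h1
    _ = Real.sqrt ((k : ℝ) + kz d) ^ 2 := (Real.sq_sqrt (by linarith)).symm
    _ ≤ Real.sqrt ((k : ℝ) + kz d) ^ (d + 1) := pow_le_pow_right₀ h3 (by omega)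

theorem mk_tendsto (hd : 1 ≤ d) : Tendsto (fun k : ℕ => mk d k) atTop (𝓝 0) := by
  refine squeeze_zero (fun k => (mk_pos d k).le) (fun k => mk_le hd k) ?_
  have h1 : Tendsto (fun k : ℕ => cm d * (1 / ((k : ℝ) + 1))) atTop (𝓝 (cm d * 0)) :=
    (tendsto_one_div_add_atTop_nhds_zero_nat).const_mul _
  rw [mul_zero] at h1
  refine h1.congr fun k => ?_
  ring

/-- The constant of the lower bound. -/
noncomputable def clow (d : ℕ) : ℝ := cm d / (2 * Real.sqrt 2 ^ (d + 1))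

theorem clow_pos (d : ℕ) : 0 < clow d := by
  have := cm_pos d
  unfold clow; positivity

theorem lower_tail (hd : 1 ≤ d) {x : V d} (hx : x ≠ 0) :
    Tendsto (fun n : ℕ => Pr d {ω | TT ω 0 (n • x) <
      ENNReal.ofReal (clow d * (n / Real.sqrt (Real.log n) ^ (d + 1)))}) atTop (𝓝 0) := by
  rw [ENNReal.tendsto_nhds_zero]
  intro ε hε
  obtain ⟨ε', hε', hεε'⟩ : ∃ ε' : ℝ, 0 < ε' ∧ ENNReal.ofReal ε' ≤ ε := by
    rcases eq_or_ne ε ⊤ with h | h
    · exact ⟨1, one_pos, by rw [h]; exact le_top⟩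
    · exact ⟨ε.toReal, ENNReal.toReal_pos hε.ne' h, by rw [ENNReal.ofReal_toReal h]⟩
  set X : ℝ := ‖toE x‖ with hX
  have hX1 : 1 ≤ X := one_le_norm hx
  have hCf : 0 < Cfin d := by
    have := Ctilt_pos d
    unfold Cfin; positivity
  -- the ratio `J`
  obtain ⟨J, hJ1, hJ⟩ : ∃ J : ℝ, 1 ≤ J ∧ 4 * Real.exp (-(J / 2)) < ε' / 2 := by
    have h1 : Tendsto (fun J : ℝ => 4 * Real.exp (-(J / 2))) atTop (𝓝 (4 * 0)) := by
      refine Tendsto.const_mul 4 ?_
      refine Real.tendsto_exp_neg_atTop_nhds_zero.comp ?_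
      exact tendsto_id.atTop_div_const (by norm_num)
    rw [mul_zero] at h1
    obtain ⟨J, h2, h3⟩ := ((h1.eventually (gt_mem_nhds (half_pos hε'))).and
      (eventually_ge_atTop 1)).exists
    exact ⟨J, h3, h2⟩
  -- the scale threshold
  obtain ⟨K₀, hK₀⟩ : ∃ K₀ : ℕ, ∀ k, K₀ ≤ k → Real.exp J * (Cfin d * mk d k) < ε' / 2 := by
    have h1 : Tendsto (fun k : ℕ => Real.exp J * (Cfin d * mk d k)) atTop
        (𝓝 (Real.exp J * (Cfin d * 0))) := ((mk_tendsto hd).const_mul _).const_mul _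
    rw [mul_zero, mul_zero] at h1
    exact eventually_atTop.1 (h1.eventually (gt_mem_nhds (half_pos hε')))
  have hlogn : Tendsto (fun n : ℕ => Real.log n) atTop atTop :=
    Real.tendsto_log_atTop.comp tendsto_natCast_atTop_atTop
  filter_upwards [hlogn.eventually_ge_atTop (3 * Real.log X + 2 * kz d + 1),
    eventually_ge_atTop (⌈J * 2 ^ (K₀ + 1)⌉₊), eventually_gt_atTop 0] with n hn1 hn2 hn3
  have hn0 : (0 : ℝ) < n := by exact_mod_cast hn3
  have hJn : J * 2 ^ (K₀ + 1) ≤ n := (Nat.le_ceil _).trans (by exact_mod_cast hn2)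
  have hJ0 : 0 < J := by linarith
  have hnX : J * 2 ^ (K₀ + 1) ≤ n * X := by nlinarith
  have hge1 : 1 ≤ n * X / J := by
    rw [le_div_iff₀ hJ0]
    have : (1 : ℝ) ≤ 2 ^ (K₀ + 1) := one_le_pow₀ one_le_two
    nlinarith
  obtain ⟨k, hk1, hk2⟩ := exists_nat_pow_near hge1 one_lt_two
  have hkK : K₀ ≤ k := by
    by_contra hlt
    push Not at hlt
    have h1 : (2 : ℝ) ^ (k + 1) ≤ 2 ^ (K₀ + 1) := pow_le_pow_right₀ one_le_two (by omega)
    have h2 : (2 : ℝ) ^ (K₀ + 1) ≤ n * X / J := by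
      rw [le_div_iff₀ hJ0]; linarith
    linarith
  have h2k : (0 : ℝ) < 2 ^ k := by positivity
  rw [le_div_iff₀ hJ0] at hk1
  rw [div_lt_iff₀ hJ0] at hk2
  -- `J ≤ n X / 2^k < 2 J`
  have hr1 : J ≤ 1 / 2 ^ k * (n * X) := by
    rw [one_div_mul_eq_div, le_div_iff₀ h2k]; linarith
  have hr2 : 1 / 2 ^ k * (n * X) ≤ 2 * J := by
    rw [one_div_mul_eq_div, div_le_iff₀ h2k]
    calc (n : ℝ) * X ≤ 2 ^ (k + 1) * J := hk2.le
      _ = _ := by ring
  -- comparison of `k` with `log n`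
  have hlogX : 0 ≤ Real.log X := Real.log_nonneg hX1
  have hk3 : (k : ℝ) + kz d ≤ 2 * Real.log n := by
    have h1 : (2 : ℝ) ^ k ≤ n * X := by nlinarith
    have h2 : (k : ℝ) * Real.log 2 ≤ Real.log n + Real.log X := by
      rw [← Real.log_pow, ← Real.log_mul hn0.ne' (by positivity)]
      exact Real.log_le_log (by positivity) h1
    have h3 := Real.log_two_gt_d9
    have hk0 : (0 : ℝ) ≤ k := by positivity
    have h4 : (k : ℝ) * (2 / 3) ≤ (k : ℝ) * Real.log 2 := by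
      gcongr
      linarith
    linarith
  have hlog0 : 0 < Real.log n := by
    have : (0 : ℝ) ≤ kz d := by positivity
    linarith
  have hmk := mk_pos d k
  have hcmp := cm_pos d
  have hmkge : cm d / (Real.sqrt 2 ^ (d + 1) * Real.sqrt (Real.log n) ^ (d + 1)) ≤ mk d k := by
    unfold mk
    rw [← mul_pow, ← Real.sqrt_mul (by norm_num)]
    have := sq_pos' d k
    gcongr
  set t : ℝ := clow d * (n / Real.sqrt (Real.log n) ^ (d + 1)) with ht
  have hsl : 0 < Real.sqrt (Real.log n) := Real.sqrt_pos.2 hlog0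
  have htle : t ≤ mk d k * (n * X) / 2 := by
    have h1 : t = (cm d / (Real.sqrt 2 ^ (d + 1) * Real.sqrt (Real.log n) ^ (d + 1))) * n / 2 := by
      rw [ht]; unfold clow; field_simp
    rw [h1]
    have h2 : (n : ℝ) ≤ n * X := by nlinarith
    have h3 : 0 < Real.sqrt 2 := by positivity
    gcongr
  have hexp : 1 / (mk d k * 2 ^ k) * t ≤ 1 / 2 ^ k * (n * X) / 2 := by
    calc 1 / (mk d k * 2 ^ k) * t ≤ 1 / (mk d k * 2 ^ k) * (mk d k * (n * X) / 2) := by gcongr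
      _ = _ := by field_simp
  refine (prob_bound hd k (n • x) t).trans (le_trans (ENNReal.ofReal_le_ofReal ?_) hεε')
  rw [norm_nsmul_toE, ← hX]
  set ρ : ℝ := 1 / 2 ^ k * (n * X) with hρ
  have hb1 : Real.exp (ρ / 2) * (4 * Real.exp (-ρ)) < ε' / 2 := by
    calc Real.exp (ρ / 2) * (4 * Real.exp (-ρ)) = 4 * Real.exp (-(ρ / 2)) := by
          rw [mul_left_comm, ← Real.exp_add]
          congr 2
          ring
      _ ≤ 4 * Real.exp (-(J / 2)) := by gcongr
      _ < ε' / 2 := hJ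
  have hb2 : Real.exp (ρ / 2) * (Cfin d * mk d k) < ε' / 2 := by
    refine lt_of_le_of_lt ?_ (hK₀ k hkK)
    gcongr
    linarith
  have hb3 : 0 < 4 * Real.exp (-ρ) + Cfin d * mk d k := by positivity
  calc Real.exp (1 / (mk d k * 2 ^ k) * t) * (4 * Real.exp (-ρ) + Cfin d * mk d k)
      ≤ Real.exp (ρ / 2) * (4 * Real.exp (-ρ) + Cfin d * mk d k) := by gcongr
    _ = Real.exp (ρ / 2) * (4 * Real.exp (-ρ)) + Real.exp (ρ / 2) * (Cfin d * mk d k) := by ring
    _ ≤ ε' := by linarith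

end Pool.Agent.R963.LR
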