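import Pool.Agent.R963.LR.Walks
import Pool.Agent.R963.LR.Geo

open MeasureTheory ProbabilityTheory MeasureTheory.Measure
open scoped ENNReal RealInnerProductSpace

namespace Pool.Agent.R963.LR

variable {d : ℕ}

/-! ### Elementary facts about the factors -/

theorem phi_le_one {lam : ℝ} (hlam : 0 ≤ lam) (e : Sym2 (V d)) (s : ℝ) : phi lam e s ≤ 1 := by
  unfold phi
  rw [ENNReal.ofReal_le_one, Real.exp_le_one_iff]
  have : 0 ≤ lam * (max s 0 * (len e : ℝ) ^ (2 * d + 1)) := by positivity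
  linarith

theorem prd_le_one {lam : ℝ} (hlam : 0 ≤ lam) (A : Finset (Sym2 (V d))) (ω : Sym2 (V d) → ℝ) :
    prd (phi lam) A ω ≤ 1 := Finset.prod_le_one' fun e _ => phi_le_one hlam e _

theorem K_le_one {lam : ℝ} (hlam : 0 ≤ lam) (S : Set (Sym2 (V d))) (x y : V d)
    (ω : Sym2 (V d) → ℝ) : K lam S x y ω ≤ 1 := iSup₂_le fun A _ => prd_le_one hlam A ω

/-- Laplace transform of the exponential distribution. -/
theorem laplace_le {c : ℝ} (hc : 0 < c) :
    ∫⁻ s, ENNReal.ofReal (Real.exp (-(c * max s 0))) ∂(expMeasure 1) ≤ ENNReal.ofReal (1 / c) := by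
  have h0 : expMeasure 1 = volume.withDensity (exponentialPDF 1) := rfl
  have hm : Measurable (exponentialPDF 1) := by
    unfold exponentialPDF
    exact (measurable_exponentialPDFReal 1).ennreal_ofReal
  rw [h0, lintegral_withDensity_eq_lintegral_mul _ hm (by fun_prop)]
  have h1 : ∀ s : ℝ, (exponentialPDF 1 * fun s => ENNReal.ofReal (Real.exp (-(c * max s 0)))) s =
      ENNReal.ofReal (1 / (1 + c)) * exponentialPDF (1 + c) s := by
    intro s
    rw [Pi.mul_apply]
    rcases lt_or_ge s 0 with hs | hs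
    · rw [exponentialPDF_of_neg hs, exponentialPDF_of_neg hs]; simp
    · rw [exponentialPDF_of_nonneg hs, exponentialPDF_of_nonneg hs, max_eq_left hs,
        ← ENNReal.ofReal_mul (by positivity), ← ENNReal.ofReal_mul (by positivity)]
      congr 1
      rw [one_mul, one_mul, ← Real.exp_add, ← mul_assoc, one_div_mul_cancel (by positivity), one_mul]
      congr 1
      ring
  simp_rw [h1]
  rw [lintegral_const_mul' _ _ ENNReal.ofReal_ne_top, lintegral_exponentialPDF_eq_one (by linarith),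
    mul_one]
  apply ENNReal.ofReal_le_ofReal
  apply one_div_le_one_div_of_le hc
  linarith

theorem ephi_le {lam r : ℝ} (hlam : 0 < lam) (hr : 0 < r) {e : Sym2 (V d)} (he : r ≤ elen e) :
    ephi lam e ≤ ENNReal.ofReal (1 / (lam * r ^ (2 * d + 1))) := by
  have hlen : r ≤ len e := he.trans (elen_le_len e)
  have hc : 0 < lam * (len e : ℝ) ^ (2 * d + 1) := by
    have : 0 < (len e : ℝ) := hr.trans_le hlen
    positivity
  have h1 : ephi lam e =
      ∫⁻ s, ENNReal.ofReal (Real.exp (-((lam * (len e : ℝ) ^ (2 * d + 1)) * max s 0)))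
        ∂(expMeasure 1) := by
    unfold ephi phi
    congr 1
    ext s
    congr 3
    ring
  rw [h1]
  refine (laplace_le hc).trans ?_
  apply ENNReal.ofReal_le_ofReal
  apply one_div_le_one_div_of_le (by positivity)
  gcongr

/-! ### Counting lattice points -/

theorem count_ball {r : ℝ} (hr : 1 ≤ r) (P : V d → Prop) (hP : ∀ w, P w → ‖toE w‖ < 2 * r) :
    ∑' w : V d, ({w | P w}.indicator 1 w : ℝ≥0∞) ≤ ENNReal.ofReal ((5 * r) ^ d) := by
  classical
  set R : ℤ := ⌊2 * r⌋ with hR
  have hR0 : 0 ≤ R := Int.floor_nonneg.2 (by linarith)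
  set F : Finset (V d) := Fintype.piFinset fun _ => Finset.Icc (-R) R with hF
  have hmem : ∀ w, P w → w ∈ F := by
    intro w hw
    rw [hF, Fintype.mem_piFinset]
    intro i
    have h1 : |(w i : ℝ)| < 2 * r := by
      have := abs_apply_le (toE w) i
      rw [toE_apply] at this
      exact this.trans_lt (hP w hw)
    have h2 : |w i| ≤ R := by
      rw [hR, Int.le_floor]
      push_cast
      exact h1.le
    rw [Finset.mem_Icc]
    exact abs_le.1 h2
  have h1 : ∑' w : V d, ({w | P w}.indicator 1 w : ℝ≥0∞) =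
      ∑ w ∈ F, ({w | P w}.indicator 1 w : ℝ≥0∞) := by
    apply tsum_eq_sum
    intro w hw
    apply Set.indicator_of_notMem
    intro h
    exact hw (hmem w h)
  rw [h1]
  calc ∑ w ∈ F, ({w | P w}.indicator 1 w : ℝ≥0∞) ≤ ∑ _w ∈ F, 1 := by
        apply Finset.sum_le_sum
        intro w _
        by_cases h : w ∈ {w | P w}
        · simp [h]
        · rw [Set.indicator_of_notMem h]; simp
    _ = (F.card : ℝ≥0∞) := by simp
    _ ≤ ENNReal.ofReal ((5 * r) ^ d) := by
        rw [← ENNReal.ofReal_natCast]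
        apply ENNReal.ofReal_le_ofReal
        rw [hF, Fintype.card_piFinset, Finset.prod_const, Finset.card_univ, Fintype.card_fin,
          Int.card_Icc]
        push_cast
        gcongr
        have h2 : ((R + 1 - -R).toNat : ℝ) = 2 * R + 1 := by
          have h3 : ((R + 1 - -R).toNat : ℤ) = 2 * R + 1 := by
            rw [Int.toNat_of_nonneg (by omega)]; ring
          exact_mod_cast h3
        rw [h2]
        have h4 : (R : ℝ) ≤ 2 * r := Int.floor_le _
        linarith

/-! ### The short and the new edges -/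

/-- Edges shorter than `r`. -/
def shortE (d : ℕ) (r : ℝ) : Set (Sym2 (V d)) := {e | elen e < r}

/-- Edges with length in `[r, 2r)`. -/
def newE (d : ℕ) (r : ℝ) : Set (Sym2 (V d)) := {e | r ≤ elen e ∧ elen e < 2 * r}

theorem short_union_new {r : ℝ} (hr : 0 < r) : shortE d r ∪ newE d r = shortE d (2 * r) := by
  ext e
  constructor
  · rintro (h | h)
    · have h' : elen e < r := h
      show elen e < 2 * r
      linarith
    · exact h.2
  · intro h
    have h' : elen e < 2 * r := h
    rcases lt_or_ge (elen e) r with h1 | h1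
    · left; exact h1
    · right; exact ⟨h1, h'⟩

theorem disjoint_short_new {r : ℝ} : Disjoint (shortE d r) (newE d r) := by
  rw [Set.disjoint_left]
  intro e h1 h2
  have h1' : elen e < r := h1
  have h2' : r ≤ elen e := h2.1
  linarith

/-- The constant of the step. -/
noncomputable def Cstep (d : ℕ) : ℝ := 8 * 5 ^ d * Real.exp 2 * Ctilt d

theorem Cstep_pos (d : ℕ) : 0 < Cstep d := by
  have := Ctilt_pos d
  unfold Cstep
  positivity

/-- The hypothesis at scale `r`. -/
def Hyp (d : ℕ) (lam r c : ℝ) (κ : ℝ) : Prop :=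
  ∀ x y : V d, ∫⁻ ω, K lam (shortE d r) x y ω ∂(Pr d) ≤
    ENNReal.ofReal (c * Real.exp (-(κ * ‖toE (y - x)‖)))

/-- The sum in the renewal inequality. -/
theorem renewal_sum (hd : 1 ≤ d) {r m q : ℝ} (hr : 1 ≤ r) (hm : 0 < m) (hq : 0 < q) (hq1 : q ≤ 1)
    (hmq : Cstep d * m ≤ q ^ (d + 1)) {x y : V d} (hxy : y ≠ x) :
    ∑' p : V d × V d, ((newE d r).indicator 1 s(p.1, p.2) : ℝ≥0∞) *
        (ENNReal.ofReal (4 * Real.exp (-(1 / r * ‖toE (p.1 - x)‖))) *
          ephi (1 / (m * r)) s(p.1, p.2) *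
          ENNReal.ofReal (8 * Real.exp (-((1 - q ^ 2) / r * ‖toE (y - p.2)‖)))) ≤
      ENNReal.ofReal (4 * Real.exp (-((1 - q ^ 2) / r * ‖toE (y - x)‖))) := by
  have hr0 : 0 < r := by linarith
  set D : ℝ := ‖toE (y - x)‖ with hD
  have hD0 : 0 < D := by
    have := one_le_norm (sub_ne_zero.2 hxy)
    linarith
  set yy : E d := D⁻¹ • toE (y - x) with hyy
  have hyyn : ‖yy‖ = 1 := by
    rw [hyy, norm_smul, norm_inv, Real.norm_eq_abs, abs_of_pos hD0, ← hD, inv_mul_cancel₀ hD0.ne']
  have hyyD : ⟪yy, toE (y - x)⟫ = D := by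
    rw [hyy, real_inner_smul_left, real_inner_self_eq_norm_sq, ← hD]
    field_simp
  have hq2 : 0 ≤ 1 - q ^ 2 := by nlinarith
  set c₀ : ℝ := 1 / ((1 / (m * r)) * r ^ (2 * d + 1)) with hc₀
  have hc₀0 : 0 < c₀ := by positivity
  -- bound of each term
  have hterm : ∀ z w : V d, ((newE d r).indicator 1 s(z + x, w + (z + x)) : ℝ≥0∞) *
      (ENNReal.ofReal (4 * Real.exp (-(1 / r * ‖toE (z + x - x)‖))) *
        ephi (1 / (m * r)) s(z + x, w + (z + x)) *
        ENNReal.ofReal (8 * Real.exp (-((1 - q ^ 2) / r * ‖toE (y - (w + (z + x)))‖)))) ≤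
      ENNReal.ofReal (32 * Real.exp 2 * c₀ * Real.exp (-((1 - q ^ 2) / r * D))) *
        (ENNReal.ofReal (Real.exp (-(1 / r * (‖toE z‖ - (1 - q ^ 2) * ⟪yy, toE z⟫)))) *
          ({w : V d | ‖toE w‖ < 2 * r}.indicator 1 w : ℝ≥0∞)) := by
    intro z w
    by_cases h : s(z + x, w + (z + x)) ∈ newE d r
    · have hel : elen s(z + x, w + (z + x)) = ‖toE w‖ := by
        rw [elen_mk, ← norm_neg, ← toE_neg]
        congr 2
        abel
      have h1 : r ≤ ‖toE w‖ := by rw [← hel]; exact h.1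
      have h2 : ‖toE w‖ < 2 * r := by rw [← hel]; exact h.2
      have hw : w ∈ {w : V d | ‖toE w‖ < 2 * r} := h2
      rw [Set.indicator_of_mem h, Set.indicator_of_mem hw, Pi.one_apply, Pi.one_apply, one_mul,
        mul_one, add_sub_cancel_right]
      have h3 : ephi (1 / (m * r)) s(z + x, w + (z + x)) ≤ ENNReal.ofReal c₀ := by
        apply ephi_le (by positivity) hr0
        rw [hel]; exact h1
      refine (mul_le_mul' (mul_le_mul' le_rfl h3) le_rfl).trans ?_
      rw [← ENNReal.ofReal_mul (by positivity), ← ENNReal.ofReal_mul (by positivity),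
        ← ENNReal.ofReal_mul (by positivity)]
      apply ENNReal.ofReal_le_ofReal
      have h4 : D - ⟪yy, toE z⟫ - ‖toE w‖ ≤ ‖toE (y - (w + (z + x)))‖ := by
        have h5 : ⟪yy, toE (y - (w + (z + x)))⟫ ≤ ‖toE (y - (w + (z + x)))‖ := by
          have := real_inner_le_norm yy (toE (y - (w + (z + x))))
          rwa [hyyn, one_mul] at this
        have h6 : ⟪yy, toE (y - (w + (z + x)))⟫ = D - ⟪yy, toE z⟫ - ⟪yy, toE w⟫ := by
          have : y - (w + (z + x)) = (y - x) - z - w := by abel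
          rw [this, toE_sub, toE_sub, inner_sub_right, inner_sub_right, hyyD]
        have h7 : ⟪yy, toE w⟫ ≤ ‖toE w‖ := by
          have := real_inner_le_norm yy (toE w)
          rwa [hyyn, one_mul] at this
        linarith
      have h8 : -((1 - q ^ 2) / r * ‖toE (y - (w + (z + x)))‖) ≤
          -((1 - q ^ 2) / r * D) + (1 - q ^ 2) / r * ⟪yy, toE z⟫ + 2 := by
        have h9 : (1 - q ^ 2) / r * (D - ⟪yy, toE z⟫ - ‖toE w‖) ≤
            (1 - q ^ 2) / r * ‖toE (y - (w + (z + x)))‖ := by gcongr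
        have h10 : (1 - q ^ 2) / r * ‖toE w‖ ≤ 2 := by
          calc (1 - q ^ 2) / r * ‖toE w‖ ≤ 1 / r * (2 * r) := by
                gcongr
                nlinarith
            _ = 2 := by field_simp
        linarith
      calc 4 * Real.exp (-(1 / r * ‖toE z‖)) * c₀ *
            (8 * Real.exp (-((1 - q ^ 2) / r * ‖toE (y - (w + (z + x)))‖)))
          ≤ 4 * Real.exp (-(1 / r * ‖toE z‖)) * c₀ *
            (8 * Real.exp (-((1 - q ^ 2) / r * D) + (1 - q ^ 2) / r * ⟪yy, toE z⟫ + 2)) := by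
            gcongr
        _ = 32 * c₀ * (Real.exp (-(1 / r * ‖toE z‖)) *
            Real.exp (-((1 - q ^ 2) / r * D) + (1 - q ^ 2) / r * ⟪yy, toE z⟫ + 2)) := by ring
        _ = 32 * c₀ * (Real.exp 2 * (Real.exp (-((1 - q ^ 2) / r * D)) *
            Real.exp (-(1 / r * (‖toE z‖ - (1 - q ^ 2) * ⟪yy, toE z⟫))))) := by
            congr 1
            rw [← Real.exp_add, ← Real.exp_add, ← Real.exp_add]
            congr 1
            ring
        _ = _ := by ring
    · rw [Set.indicator_of_notMem h, zero_mul]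
      exact zero_le
  -- change of variables
  have hcv : ∀ f : V d → V d → ℝ≥0∞, ∑' p : V d × V d, f p.1 p.2 =
      ∑' z : V d, ∑' w : V d, f (z + x) (w + (z + x)) := by
    intro f
    rw [ENNReal.tsum_prod]
    rw [← (Equiv.addRight x).tsum_eq]
    refine tsum_congr fun z => ?_
    rw [← (Equiv.addRight (z + x)).tsum_eq]
    rfl
  rw [hcv (fun u v => ((newE d r).indicator 1 s(u, v) : ℝ≥0∞) *
        (ENNReal.ofReal (4 * Real.exp (-(1 / r * ‖toE (u - x)‖))) *
          ephi (1 / (m * r)) s(u, v) *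
          ENNReal.ofReal (8 * Real.exp (-((1 - q ^ 2) / r * ‖toE (y - v)‖)))))]
  refine (ENNReal.tsum_le_tsum fun z => ENNReal.tsum_le_tsum fun w => hterm z w).trans ?_
  simp_rw [ENNReal.tsum_mul_left]
  rw [ENNReal.tsum_mul_right]
  have h1 := tilt_sum hd hyyn (a := 1 / r) (q := q) (by positivity)
    (by rw [div_le_one hr0]; exact hr) hq hq1
  have h2 := count_ball (d := d) hr (fun w => ‖toE w‖ < 2 * r) (fun w hw => hw)
  refine (mul_le_mul' le_rfl (mul_le_mul' h1 h2)).trans ?_
  have hCt := Ctilt_pos d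
  rw [← ENNReal.ofReal_mul (by positivity), ← ENNReal.ofReal_mul (by positivity)]
  apply ENNReal.ofReal_le_ofReal
  have h3 : 32 * Real.exp 2 * c₀ * (Ctilt d / ((1 / r) ^ d * q ^ (d + 1)) * (5 * r) ^ d) =
      4 * ((Cstep d * m) / q ^ (d + 1)) := by
    rw [hc₀]
    unfold Cstep
    rw [mul_pow, div_pow, one_pow]
    field_simp
    ring
  calc 32 * Real.exp 2 * c₀ * Real.exp (-((1 - q ^ 2) / r * D)) *
        (Ctilt d / ((1 / r) ^ d * q ^ (d + 1)) * (5 * r) ^ d)
      = (32 * Real.exp 2 * c₀ * (Ctilt d / ((1 / r) ^ d * q ^ (d + 1)) * (5 * r) ^ d)) *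
        Real.exp (-((1 - q ^ 2) / r * D)) := by ring
    _ = 4 * ((Cstep d * m) / q ^ (d + 1)) * Real.exp (-((1 - q ^ 2) / r * D)) := by rw [h3]
    _ ≤ 4 * 1 * Real.exp (-((1 - q ^ 2) / r * D)) := by
        gcongr
        rw [div_le_one (by positivity)]
        exact hmq
    _ = _ := by ring

end Pool.Agent.R963.LR
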