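import Pool.Agent.R963.LR.Lower

open MeasureTheory ProbabilityTheory MeasureTheory.Measure
open scoped ENNReal RealInnerProductSpace

namespace Pool.Agent.R963.LR

variable {d : ℕ}

theorem KN_bound (hd : 1 ≤ d) {r m q : ℝ} (hr : 1 ≤ r) (hm : 0 < m) (hq : 0 < q) (hq1 : q ≤ 1)
    (hmq : Cstep d * m ≤ q ^ (d + 1)) (H : Hyp d (1 / (m * r)) r 4 (1 / r)) (N : ℕ) (x y : V d) :
    ∫⁻ ω, KN (1 / (m * r)) (shortE d r) (newE d r) N x y ω ∂(Pr d) ≤
      ENNReal.ofReal (8 * Real.exp (-((1 - q ^ 2) / r * ‖toE (y - x)‖))) := by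
  have hr0 : 0 < r := by linarith
  have hlam : (0 : ℝ) ≤ 1 / (m * r) := by positivity
  have hKle : ∀ x y : V d, ∫⁻ ω, K (1 / (m * r)) (shortE d r) x y ω ∂(Pr d) ≤
      ENNReal.ofReal (4 * Real.exp (-((1 - q ^ 2) / r * ‖toE (y - x)‖))) := by
    intro x y
    refine (H x y).trans ?_
    apply ENNReal.ofReal_le_ofReal
    gcongr
    nlinarith
  induction N generalizing x with
  | zero =>
    calc ∫⁻ ω, KN (1 / (m * r)) (shortE d r) (newE d r) 0 x y ω ∂(Pr d)
        ≤ ∫⁻ ω, K (1 / (m * r)) (shortE d r) x y ω ∂(Pr d) :=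
          lintegral_mono fun ω => KN_zero_le _ disjoint_short_new x y ω
      _ ≤ _ := (hKle x y).trans (ENNReal.ofReal_le_ofReal (by gcongr; norm_num))
  | succ N ih =>
    by_cases hxy : y = x
    · subst hxy
      calc ∫⁻ ω, KN (1 / (m * r)) (shortE d r) (newE d r) (N + 1) y y ω ∂(Pr d)
          ≤ ∫⁻ _ω, 1 ∂(Pr d) := lintegral_mono fun ω => iSup₂_le fun A _ => prd_le_one hlam A ω
        _ = 1 := by simp
        _ ≤ _ := by
          rw [sub_self, toE_zero, norm_zero, mul_zero, neg_zero, Real.exp_zero]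
          rw [← ENNReal.ofReal_one]
          exact ENNReal.ofReal_le_ofReal (by norm_num)
    · refine (lintegral_KN_le _ disjoint_short_new N x y).trans ?_
      have h1 : ∑' p : V d × V d, ((newE d r).indicator 1 s(p.1, p.2) : ℝ≥0∞) *
          ((∫⁻ ω, K (1 / (m * r)) (shortE d r) x p.1 ω ∂(Pr d)) * ephi (1 / (m * r)) s(p.1, p.2) *
          ∫⁻ ω, KN (1 / (m * r)) (shortE d r) (newE d r) N p.2 y ω ∂(Pr d)) ≤
          ∑' p : V d × V d, ((newE d r).indicator 1 s(p.1, p.2) : ℝ≥0∞) *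
        (ENNReal.ofReal (4 * Real.exp (-(1 / r * ‖toE (p.1 - x)‖))) *
          ephi (1 / (m * r)) s(p.1, p.2) *
          ENNReal.ofReal (8 * Real.exp (-((1 - q ^ 2) / r * ‖toE (y - p.2)‖)))) := by
        refine ENNReal.tsum_le_tsum fun p => ?_
        gcongr
        · exact H x p.1
        · exact ih p.2
      refine (add_le_add (hKle x y) (h1.trans
        (renewal_sum hd hr hm hq hq1 hmq (x := x) (y := y) hxy))).trans ?_
      rw [← ENNReal.ofReal_add (by positivity) (by positivity)]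
      apply ENNReal.ofReal_le_ofReal
      linarith

theorem K_double_bound (hd : 1 ≤ d) {r m q : ℝ} (hr : 1 ≤ r) (hm : 0 < m) (hq : 0 < q)
    (hq1 : q ≤ 1) (hmq : Cstep d * m ≤ q ^ (d + 1)) (H : Hyp d (1 / (m * r)) r 4 (1 / r)) :
    Hyp d (1 / (m * r)) (2 * r) 8 ((1 - q ^ 2) / r) := by
  intro x y
  rw [← short_union_new (by linarith : 0 < r), lintegral_K_eq]
  exact iSup_le fun N => KN_bound hd hr hm hq hq1 hmq H N x y

/-! ### Passing to a smaller exponent -/

theorem phi_rpow {lam p : ℝ} (hp : 0 < p) (e : Sym2 (V d)) (s : ℝ) :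
    phi (p * lam) e s = (phi lam e s) ^ p := by
  unfold phi
  rw [ENNReal.ofReal_rpow_of_pos (Real.exp_pos _), ← Real.exp_mul]
  congr 2
  ring

theorem prd_rpow {lam p : ℝ} (hp : 0 < p) (A : Finset (Sym2 (V d))) (ω : Sym2 (V d) → ℝ) :
    prd (phi (p * lam)) A ω = (prd (phi lam) A ω) ^ p := by
  unfold prd
  rw [← ENNReal.prod_rpow_of_nonneg hp.le]
  exact Finset.prod_congr rfl fun e _ => phi_rpow hp e _

theorem K_rpow_le {lam p : ℝ} (hp : 0 < p) (S : Set (Sym2 (V d))) (x y : V d)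
    (ω : Sym2 (V d) → ℝ) : K (p * lam) S x y ω ≤ (K lam S x y ω) ^ p := by
  refine iSup₂_le fun A hA => ?_
  rw [prd_rpow hp]
  apply ENNReal.rpow_le_rpow _ hp.le
  exact le_iSup₂_of_le (f := fun A (_ : A ∈ paths S x y) => prd (phi lam) A ω) A hA le_rfl

theorem lintegral_rpow_le_of_prob {Ω : Type*} [MeasurableSpace Ω] (P : Measure Ω)
    [IsProbabilityMeasure P] {f : Ω → ℝ≥0∞} (hf : Measurable f) {p : ℝ} (hp : 0 < p)
    (hp1 : p < 1) : ∫⁻ ω, (f ω) ^ p ∂P ≤ (∫⁻ ω, f ω ∂P) ^ p := by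
  have hpq : (1 / p).HolderConjugate (1 / (1 - p)) := by
    rw [Real.holderConjugate_iff]
    refine ⟨?_, ?_⟩
    · rw [lt_div_iff₀ hp]; linarith
    · simp
  have h := ENNReal.lintegral_mul_le_Lp_mul_Lq P hpq (f := fun ω => (f ω) ^ p) (g := fun _ => 1)
    (hf.pow_const p).aemeasurable aemeasurable_const
  simp only [Pi.mul_apply, mul_one, ENNReal.one_rpow, lintegral_const, measure_univ,
    one_div_one_div] at h
  have h2 : ∀ ω, ((f ω) ^ p) ^ (1 / p) = f ω := by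
    intro ω
    rw [← ENNReal.rpow_mul, mul_one_div_cancel hp.ne', ENNReal.rpow_one]
  simp_rw [h2] at h
  exact h

theorem hyp_jensen {lam r c κ p : ℝ} (hc : 0 < c) (hp : 0 < p) (hp1 : p < 1)
    (H : Hyp d lam r c κ) : Hyp d (p * lam) r (c ^ p) (p * κ) := by
  intro x y
  calc ∫⁻ ω, K (p * lam) (shortE d r) x y ω ∂(Pr d)
      ≤ ∫⁻ ω, (K lam (shortE d r) x y ω) ^ p ∂(Pr d) :=
        lintegral_mono fun ω => K_rpow_le hp _ x y ω
    _ ≤ (∫⁻ ω, K lam (shortE d r) x y ω ∂(Pr d)) ^ p :=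
        lintegral_rpow_le_of_prob _ (measurable_K lam _ x y) hp hp1
    _ ≤ (ENNReal.ofReal (c * Real.exp (-(κ * ‖toE (y - x)‖)))) ^ p :=
        ENNReal.rpow_le_rpow (H x y) hp.le
    _ = _ := by
      rw [ENNReal.ofReal_rpow_of_pos (by positivity), Real.mul_rpow hc.le (Real.exp_pos _).le,
        ← Real.exp_mul]
      congr 3
      ring

/-- One scale step. -/
theorem scale_step (hd : 1 ≤ d) {r m m' q : ℝ} (hr : 1 ≤ r) (hm : 0 < m) (hq : 0 < q)
    (hq1 : q ≤ 1) (hmq : Cstep d * m ≤ q ^ (d + 1)) (h1 : 3 / 4 * m ≤ m')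
    (h2 : m' ≤ (1 - q ^ 2) * m) (H : Hyp d (1 / (m * r)) r 4 (1 / r)) :
    Hyp d (1 / (m' * (2 * r))) (2 * r) 4 (1 / (2 * r)) := by
  have hr0 : 0 < r := by linarith
  have hm' : 0 < m' := by linarith
  have H1 := K_double_bound hd hr hm hq hq1 hmq H
  set p : ℝ := m / (2 * m') with hp
  have hp0 : 0 < p := by positivity
  have hp23 : p ≤ 2 / 3 := by
    rw [hp, div_le_iff₀ (by positivity)]
    linarith
  have H2 := hyp_jensen (by norm_num) hp0 (by linarith) H1
  have hlam : p * (1 / (m * r)) = 1 / (m' * (2 * r)) := by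
    rw [hp]; field_simp
  rw [hlam] at H2
  intro x y
  refine (H2 x y).trans ?_
  apply ENNReal.ofReal_le_ofReal
  have h8 : (8 : ℝ) ^ p ≤ 4 := by
    calc (8 : ℝ) ^ p ≤ (8 : ℝ) ^ (2 / 3 : ℝ) :=
          Real.rpow_le_rpow_of_exponent_le (by norm_num) hp23
      _ = 4 := by
        have : (8 : ℝ) = 2 ^ (3 : ℝ) := by norm_num
        rw [this, ← Real.rpow_mul (by norm_num)]
        norm_num
  have h9 : 1 / (2 * r) ≤ p * ((1 - q ^ 2) / r) := by
    have h10 : 1 / 2 ≤ p * (1 - q ^ 2) := by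
      rw [hp, div_mul_eq_mul_div, le_div_iff₀ (by positivity)]
      linarith
    calc 1 / (2 * r) = (1 / 2) / r := by field_simp
      _ ≤ (p * (1 - q ^ 2)) / r := by gcongr
      _ = _ := by ring
  gcongr

/-! ### The scale sequence -/

/-- The shift `k₀ = 4(d+1)`. -/
def kz (d : ℕ) : ℕ := 4 * (d + 1)

/-- The constant `c` in `m_k = c (k + k₀)^{-(d+1)/2}`. -/
noncomputable def cm (d : ℕ) : ℝ := 3 / 4 / Cstep d

theorem cm_pos (d : ℕ) : 0 < cm d := by
  have := Cstep_pos d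
  unfold cm; positivity

/-- `m_k = c (k + k₀)^{-(d+1)/2}`. -/
noncomputable def mk (d : ℕ) (k : ℕ) : ℝ := cm d / (Real.sqrt (k + kz d)) ^ (d + 1)

theorem sq_pos' (d k : ℕ) : 0 < Real.sqrt ((k : ℝ) + kz d) := by
  apply Real.sqrt_pos.2
  have : (0 : ℝ) < kz d := by unfold kz; positivity
  positivity

theorem mk_pos (d k : ℕ) : 0 < mk d k := by
  have h1 := cm_pos d
  have h2 := sq_pos' d k
  unfold mk; positivity

theorem ratio_bounds (hd : 1 ≤ d) (k : ℕ) :
    3 / 4 ≤ (Real.sqrt ((k : ℝ) + kz d) / Real.sqrt (((k + 1 : ℕ) : ℝ) + kz d)) ^ (d + 1) ∧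
    (Real.sqrt ((k : ℝ) + kz d) / Real.sqrt (((k + 1 : ℕ) : ℝ) + kz d)) ^ (d + 1) ≤
      1 - (1 / Real.sqrt (((k + 1 : ℕ) : ℝ) + kz d)) ^ 2 := by
  have h1 := sq_pos' d k
  have h2 := sq_pos' d (k + 1)
  set A : ℝ := (k : ℝ) + kz d with hA
  set B : ℝ := ((k + 1 : ℕ) : ℝ) + kz d with hB
  have hAB : B = A + 1 := by rw [hA, hB]; push_cast; ring
  have hkz : (4 * (d + 1) : ℝ) ≤ A := by
    rw [hA]; unfold kz; push_cast
    have : (0 : ℝ) ≤ k := by positivity
    linarith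
  have hA0 : 0 < A := by
    have : (0 : ℝ) < 4 * (d + 1) := by positivity
    linarith
  have hB0 : 0 < B := by linarith
  set ρ : ℝ := Real.sqrt A / Real.sqrt B with hρ
  have hρ0 : 0 < ρ := by positivity
  have hρ2 : ρ ^ 2 = 1 - 1 / B := by
    rw [hρ, div_pow, Real.sq_sqrt hA0.le, Real.sq_sqrt hB0.le, hAB]
    field_simp
    ring
  have hρ1 : ρ ≤ 1 := by
    have h3 : ρ ^ 2 ≤ 1 := by
      rw [hρ2]
      have : 0 < 1 / B := by positivity
      linarith
    nlinarith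
  constructor
  · have h3 : 1 - 1 / B ≤ ρ := by rw [← hρ2]; nlinarith
    have h4 : (0 : ℝ) ≤ 1 - 1 / B := by rw [← hρ2]; positivity
    have h5 : 1 + (d + 1 : ℕ) * (-(1 / B)) ≤ (1 + -(1 / B)) ^ (d + 1) := by
      apply one_add_mul_le_pow
      have : 1 / B ≤ 1 := by rw [div_le_one hB0]; linarith
      linarith
    have h6 : ((d + 1 : ℕ) : ℝ) * (1 / B) ≤ 1 / 4 := by
      push_cast
      rw [mul_one_div, div_le_iff₀ hB0]
      linarith
    calc (3 / 4 : ℝ) ≤ 1 + (d + 1 : ℕ) * (-(1 / B)) := by linarith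
      _ ≤ (1 + -(1 / B)) ^ (d + 1) := h5
      _ = (1 - 1 / B) ^ (d + 1) := by ring
      _ ≤ ρ ^ (d + 1) := by gcongr
  · calc ρ ^ (d + 1) ≤ ρ ^ 2 := pow_le_pow_of_le_one hρ0.le hρ1 (by omega)
      _ = 1 - (1 / Real.sqrt B) ^ 2 := by rw [hρ2, div_pow, one_pow, Real.sq_sqrt hB0.le]

/-- The base case. -/
theorem hyp_zero (lam : ℝ) (hlam : 0 ≤ lam) : Hyp d lam 1 4 1 := by
  intro x y
  by_cases hxy : x = y
  · subst hxy
    calc ∫⁻ ω, K lam (shortE d 1) x x ω ∂(Pr d) ≤ ∫⁻ _ω, 1 ∂(Pr d) :=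
          lintegral_mono fun ω => K_le_one hlam _ x x ω
      _ = 1 := by simp
      _ ≤ _ := by
        rw [sub_self, toE_zero, norm_zero, mul_zero, neg_zero, Real.exp_zero,
          ← ENNReal.ofReal_one]
        exact ENNReal.ofReal_le_ofReal (by norm_num)
  · have h1 : paths (shortE d 1) x y = ∅ := by
      rw [Set.eq_empty_iff_forall_notMem]
      rintro A ⟨w, _, hw, _⟩
      cases w with
      | nil => exact hxy rfl
      | @cons _ v _ h p =>
        have h2 : elen s(x, v) < 1 := hw _ (by simp)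
        have h3 : x ≠ v := h
        have h4 := one_le_norm (sub_ne_zero.2 h3)
        rw [elen_mk] at h2
        linarith
    unfold K
    simp [h1]

/-- The bound at all scales. -/
theorem hyp_all (hd : 1 ≤ d) (k : ℕ) :
    Hyp d (1 / (mk d k * 2 ^ k)) (2 ^ k) 4 (1 / 2 ^ k) := by
  induction k with
  | zero =>
    have := hyp_zero (d := d) (1 / (mk d 0 * 2 ^ 0)) (by
      have := mk_pos d 0
      positivity)
    simpa using this
  | succ k ih =>
    obtain ⟨hr1, hr2⟩ := ratio_bounds hd k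
    have h1 := sq_pos' d k
    have h2 := sq_pos' d (k + 1)
    have hCs := Cstep_pos d
    have hmk := mk_pos d k
    have hrat : mk d (k + 1) = (Real.sqrt ((k : ℝ) + kz d) /
        Real.sqrt (((k + 1 : ℕ) : ℝ) + kz d)) ^ (d + 1) * mk d k := by
      unfold mk
      rw [div_pow]
      field_simp
    have := scale_step hd (r := 2 ^ k) (m := mk d k) (m' := mk d (k + 1))
      (q := 1 / Real.sqrt (((k + 1 : ℕ) : ℝ) + kz d)) (one_le_pow₀ one_le_two)
      hmk (by positivity) (by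
        rw [div_le_one h2]
        rw [Real.one_le_sqrt]
        push_cast
        have : (0 : ℝ) ≤ kz d := by positivity
        have : (0 : ℝ) ≤ k := by positivity
        linarith) (by
        have h3 : Cstep d * mk d k = (3 / 4) / Real.sqrt ((k : ℝ) + kz d) ^ (d + 1) := by
          unfold mk cm
          field_simp
        rw [h3, div_le_iff₀ (by positivity), div_pow, one_pow]
        rw [div_pow] at hr1
        calc (3 / 4 : ℝ) ≤ Real.sqrt ((k : ℝ) + kz d) ^ (d + 1) /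
              Real.sqrt (((k + 1 : ℕ) : ℝ) + kz d) ^ (d + 1) := hr1
          _ = _ := by ring) (by
        rw [hrat]
        gcongr) (by
        rw [hrat]
        gcongr) ih
    have e1 : (2 : ℝ) * 2 ^ k = 2 ^ (k + 1) := by ring
    rwa [e1] at this

end Pool.Agent.R963.LR
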