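import Pool.Agent.R963.LR.LowFinal

open MeasureTheory ProbabilityTheory MeasureTheory.Measure Filter Topology
open scoped ENNReal RealInnerProductSpace

namespace Pool.Agent.R963.LR

variable {d : ℕ}

/-! ### Passage times restricted to a set of edges -/

/-- First-passage time using only the edges in `S`. -/
noncomputable def TS (S : Set (Sym2 (V d))) (ω : Sym2 (V d) → ℝ) (x y : V d) : ℝ≥0∞ :=
  ⨅ w : {w : (⊤ : SimpleGraph (V d)).Walk x y // ∀ e ∈ w.edges, e ∈ S}, cost ω w.1

theorem TS_le_cost {S : Set (Sym2 (V d))} (ω : Sym2 (V d) → ℝ) {x y : V d}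
    (w : (⊤ : SimpleGraph (V d)).Walk x y) (hw : ∀ e ∈ w.edges, e ∈ S) :
    TS S ω x y ≤ cost ω w :=
  iInf_le (fun w : {w : (⊤ : SimpleGraph (V d)).Walk x y // ∀ e ∈ w.edges, e ∈ S} => cost ω w.1)
    ⟨w, hw⟩

theorem TS_mono {S S' : Set (Sym2 (V d))} (h : S ⊆ S') (ω : Sym2 (V d) → ℝ) (x y : V d) :
    TS S' ω x y ≤ TS S ω x y :=
  le_iInf fun w => TS_le_cost ω w.1 fun e he => h (w.2 e he)

theorem TT_le_TS (S : Set (Sym2 (V d))) (ω : Sym2 (V d) → ℝ) (x y : V d) :
    TT ω x y ≤ TS S ω x y := le_iInf fun w => iInf_le _ w.1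

theorem cost_append (ω : Sym2 (V d) → ℝ) {x y z : V d} (w : (⊤ : SimpleGraph (V d)).Walk x y)
    (w' : (⊤ : SimpleGraph (V d)).Walk y z) : cost ω (w.append w') = cost ω w + cost ω w' := by
  unfold cost
  rw [SimpleGraph.Walk.edges_append, List.map_append, List.sum_append]

theorem cost_reverse (ω : Sym2 (V d) → ℝ) {x y : V d} (w : (⊤ : SimpleGraph (V d)).Walk x y) :
    cost ω w.reverse = cost ω w := by
  unfold cost
  rw [SimpleGraph.Walk.edges_reverse, List.map_reverse, List.sum_reverse]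

theorem TS_triangle (S : Set (Sym2 (V d))) (ω : Sym2 (V d) → ℝ) (x y z : V d) :
    TS S ω x z ≤ TS S ω x y + TS S ω y z := by
  have h1 : TS S ω x y + TS S ω y z =
      ⨅ w : {w : (⊤ : SimpleGraph (V d)).Walk x y // ∀ e ∈ w.edges, e ∈ S},
        ⨅ w' : {w : (⊤ : SimpleGraph (V d)).Walk y z // ∀ e ∈ w.edges, e ∈ S},
          (cost ω w.1 + cost ω w'.1) := by
    unfold TS
    rw [ENNReal.iInf_add]
    refine iInf_congr fun w => ?_
    rw [ENNReal.add_iInf]
  rw [h1]
  refine le_iInf fun w => le_iInf fun w' => ?_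
  rw [← cost_append]
  apply TS_le_cost
  intro e he
  rw [SimpleGraph.Walk.edges_append, List.mem_append] at he
  rcases he with he | he
  · exact w.2 e he
  · exact w'.2 e he

theorem TS_symm (S : Set (Sym2 (V d))) (ω : Sym2 (V d) → ℝ) (x y : V d) :
    TS S ω x y = TS S ω y x := by
  have h : ∀ x y : V d, TS S ω x y ≤ TS S ω y x := by
    intro x y
    refine le_iInf fun w => ?_
    rw [← cost_reverse]
    apply TS_le_cost
    intro e he
    rw [SimpleGraph.Walk.edges_reverse, List.mem_reverse] at he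
    exact w.2 e he
  exact le_antisymm (h x y) (h y x)

theorem TS_edge {S : Set (Sym2 (V d))} (ω : Sym2 (V d) → ℝ) {u v : V d} (huv : u ≠ v)
    (hS : s(u, v) ∈ S) : TS S ω u v ≤ Wt ω s(u, v) := by
  have h : (⊤ : SimpleGraph (V d)).Adj u v := huv
  refine (TS_le_cost ω (SimpleGraph.Walk.cons h SimpleGraph.Walk.nil) ?_).trans ?_
  · intro e he
    simp at he
    rw [he]; exact hS
  · simp [cost]

/-! ### The σ-algebra of a set of edges -/

/-- The σ-algebra generated by the times of the edges in `S`. -/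
@[reducible]
def sig (S : Set (Sym2 (V d))) : MeasurableSpace (Sym2 (V d) → ℝ) :=
  ⨆ e ∈ S, MeasurableSpace.comap (fun ω : Sym2 (V d) → ℝ => ω e) inferInstance

theorem sig_le (S : Set (Sym2 (V d))) : sig S ≤ MeasurableSpace.pi :=
  iSup₂_le fun e _ => (measurable_pi_apply e).comap_le

theorem sig_mono {S S' : Set (Sym2 (V d))} (h : S ⊆ S') : sig S ≤ sig S' :=
  iSup₂_le fun e he => le_iSup₂_of_le (f := fun e (_ : e ∈ S') =>
    MeasurableSpace.comap (fun ω : Sym2 (V d) → ℝ => ω e) inferInstance) e (h he) le_rfl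

theorem indep_sig {S S' : Set (Sym2 (V d))} (h : Disjoint S S') :
    Indep (sig S) (sig S') (Pr d) := by
  have hi : iIndepFun (fun (e : Sym2 (V d)) (ω : Sym2 (V d) → ℝ) => ω e) (Pr d) :=
    iIndepFun_infinitePi (P := fun _ : Sym2 (V d) => expMeasure 1) (X := fun _ x => x)
      (fun _ => measurable_id)
  exact indep_iSup_of_disjoint (fun e => (measurable_pi_apply e).comap_le) hi.iIndep h

theorem measurable_coord {S : Set (Sym2 (V d))} {e : Sym2 (V d)} (he : e ∈ S) :
    Measurable[sig S] (fun ω : Sym2 (V d) → ℝ => ω e) := by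
  rw [measurable_iff_comap_le]
  exact le_iSup₂_of_le (f := fun e (_ : e ∈ S) =>
    MeasurableSpace.comap (fun ω : Sym2 (V d) → ℝ => ω e) inferInstance) e he le_rfl

theorem measurable_Wt_sig {S : Set (Sym2 (V d))} {e : Sym2 (V d)} (he : e ∈ S) :
    Measurable[sig S] (fun ω : Sym2 (V d) → ℝ => Wt ω e) := by
  unfold Wt
  exact ((measurable_coord he).mul_const _).ennreal_ofReal

theorem measurable_TS_sig (S : Set (Sym2 (V d))) (x y : V d) :
    Measurable[sig S] (fun ω : Sym2 (V d) → ℝ => TS S ω x y) := by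
  unfold TS
  refine Measurable.iInf fun w => ?_
  obtain ⟨w, hw⟩ := w
  show Measurable[sig S] (fun ω : Sym2 (V d) → ℝ => cost ω w)
  induction w with
  | nil => simp only [cost, SimpleGraph.Walk.edges_nil, List.map_nil, List.sum_nil]; exact measurable_const
  | cons h p ih =>
    rw [SimpleGraph.Walk.edges_cons] at hw
    simp only [cost, SimpleGraph.Walk.edges_cons, List.map_cons, List.sum_cons]
    exact (measurable_Wt_sig (hw _ List.mem_cons_self)).add
      (ih fun e he => hw e (List.mem_cons_of_mem _ he))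

theorem measurable_TS (S : Set (Sym2 (V d))) (x y : V d) :
    Measurable (fun ω : Sym2 (V d) → ℝ => TS S ω x y) :=
  (measurable_TS_sig S x y).mono (sig_le S) le_rfl

end Pool.Agent.R963.LR
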