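import Pool.Agent.R963.LR.Up1

open MeasureTheory ProbabilityTheory MeasureTheory.Measure Filter Topology
open scoped ENNReal RealInnerProductSpace

namespace Pool.Agent.R963.LR

variable {d : ℕ}

open Classical in
/-- The set of the good edges among the candidates `EE`. -/
noncomputable def goodSet (EE : Finset (Sym2 (V d))) (w : ℝ≥0∞) (ω : Sym2 (V d) → ℝ) :
    Finset (Sym2 (V d)) := EE.filter fun e => Wt ω e ≤ w

theorem measurableSet_good {EE : Finset (Sym2 (V d))} {e : Sym2 (V d)} (he : e ∈ EE)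
    (w : ℝ≥0∞) : MeasurableSet[sig (EE : Set (Sym2 (V d)))] {ω : Sym2 (V d) → ℝ | Wt ω e ≤ w} :=
  @measurableSet_le _ _ _ _ _ (sig (EE : Set (Sym2 (V d)))) _ _ _ _ _
    (measurable_Wt_sig (S := (EE : Set (Sym2 (V d)))) he) (@measurable_const _ _ _ (_) _)

theorem measurableSet_goodSet (EE : Finset (Sym2 (V d))) (w : ℝ≥0∞) {G : Finset (Sym2 (V d))}
    (hG : G ⊆ EE) :
    MeasurableSet[sig (EE : Set (Sym2 (V d)))] {ω : Sym2 (V d) → ℝ | goodSet EE w ω = G} := by
  classical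
  have h : {ω : Sym2 (V d) → ℝ | goodSet EE w ω = G} =
      (⋂ e ∈ G, {ω : Sym2 (V d) → ℝ | Wt ω e ≤ w}) ∩
        ⋂ e ∈ EE \ G, {ω : Sym2 (V d) → ℝ | Wt ω e ≤ w}ᶜ := by
    ext ω
    simp only [Set.mem_inter_iff, Set.mem_iInter]
    constructor
    · intro h
      have h' : goodSet EE w ω = G := h
      constructor
      · intro e he
        rw [← h'] at he
        exact (Finset.mem_filter.1 he).2
      · intro e he hle
        rw [Finset.mem_sdiff] at he
        apply he.2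
        rw [← h']
        exact Finset.mem_filter.2 ⟨he.1, hle⟩
    · rintro ⟨h1, h2⟩
      show goodSet EE w ω = G
      ext e
      constructor
      · intro he
        obtain ⟨he1, he2⟩ := Finset.mem_filter.1 he
        by_contra hn
        exact h2 e (Finset.mem_sdiff.2 ⟨he1, hn⟩) he2
      · intro he
        exact Finset.mem_filter.2 ⟨hG he, h1 e he⟩
  rw [h]
  refine MeasurableSet.inter ?_ ?_
  · exact Finset.measurableSet_biInter _ fun e he => measurableSet_good (hG he) w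
  · exact Finset.measurableSet_biInter _ fun e he =>
      (measurableSet_good (Finset.mem_sdiff.1 he).1 w).compl

/-- Expectation bound when independent long edges provide a shortcut. -/
theorem window_abstract {S : Set (Sym2 (V d))} {EE : Finset (Sym2 (V d))}
    (hdis : Disjoint S (EE : Set (Sym2 (V d)))) {w : ℝ≥0∞}
    {F F₀ : (Sym2 (V d) → ℝ) → ℝ≥0∞} {Fe : Sym2 (V d) → (Sym2 (V d) → ℝ) → ℝ≥0∞}
    (hF₀m : Measurable[sig S] F₀) (hFem : ∀ e ∈ EE, Measurable[sig S] (Fe e))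
    (hF0 : ∀ ω, F ω ≤ F₀ ω) (hFe : ∀ e ∈ EE, ∀ ω, Wt ω e ≤ w → F ω ≤ Fe e ω)
    {c c₀ : ℝ≥0∞} (h0 : ∫⁻ ω, F₀ ω ∂(Pr d) ≤ c₀) (he : ∀ e ∈ EE, ∫⁻ ω, Fe e ω ∂(Pr d) ≤ c) :
    ∫⁻ ω, F ω ∂(Pr d) ≤ Pr d {ω | ∀ e ∈ EE, w < Wt ω e} * c₀ +
      Pr d {ω | ∀ e ∈ EE, w < Wt ω e}ᶜ * c := by
  classical
  set A : Finset (Sym2 (V d)) → Set (Sym2 (V d) → ℝ) :=
    fun G => {ω | goodSet EE w ω = G} with hA
  set PP : Finset (Finset (Sym2 (V d))) := EE.powerset.filter (·.Nonempty) with hPP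
  have hind := indep_sig hdis
  have hAm : ∀ G, G ⊆ EE → MeasurableSet[sig (EE : Set (Sym2 (V d)))] (A G) :=
    fun G hG => measurableSet_goodSet EE w hG
  have hAm' : ∀ G, G ⊆ EE → MeasurableSet (A G) := fun G hG => sig_le _ _ (hAm G hG)
  have hA0 : A ∅ = {ω | ∀ e ∈ EE, w < Wt ω e} := by
    ext ω
    constructor
    · intro h e he'
      have h' : goodSet EE w ω = ∅ := h
      by_contra hn
      have h2 : e ∈ goodSet EE w ω := Finset.mem_filter.2 ⟨he', not_lt.1 hn⟩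
      rw [h'] at h2
      simp at h2
    · intro h
      show goodSet EE w ω = ∅
      have h' : ∀ e ∈ EE, w < Wt ω e := h
      rw [Finset.eq_empty_iff_forall_notMem]
      intro e he'
      obtain ⟨h1, h2⟩ := Finset.mem_filter.1 he'
      exact absurd (h' e h1) (not_lt.2 h2)
  have hind1 : ∀ G ⊆ EE, Measurable[sig (EE : Set (Sym2 (V d)))]
      (fun ω => (A G).indicator (1 : (Sym2 (V d) → ℝ) → ℝ≥0∞) ω) := by
    intro G hG
    let _ : MeasurableSpace (Sym2 (V d) → ℝ) := sig (EE : Set (Sym2 (V d)))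
    exact measurable_one.indicator (hAm G hG)
  have hind2 : ∀ G ⊆ EE, Measurable
      (fun ω => (A G).indicator (1 : (Sym2 (V d) → ℝ) → ℝ≥0∞) ω) := fun G hG =>
    (hind1 G hG).mono (sig_le _) le_rfl
  have hprod : ∀ (G : Finset (Sym2 (V d))) (hG : G ⊆ EE) (H : (Sym2 (V d) → ℝ) → ℝ≥0∞),
      Measurable[sig S] H → ∫⁻ ω, H ω * (A G).indicator 1 ω ∂(Pr d) =
        (∫⁻ ω, H ω ∂(Pr d)) * Pr d (A G) := by
    intro G hG H hH
    rw [lintegral_mul_eq_lintegral_mul_lintegral_of_independent_measurableSpace (sig_le S)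
      (sig_le (EE : Set (Sym2 (V d)))) hind hH (hind1 G hG),
      lintegral_indicator_one (hAm' G hG)]
  set e₀ : Finset (Sym2 (V d)) → Sym2 (V d) :=
    fun G => if h : G.Nonempty then h.choose else s(0, 0) with he₀
  have he₀m : ∀ G ∈ PP, e₀ G ∈ G := by
    intro G hG
    have h : G.Nonempty := (Finset.mem_filter.1 hG).2
    simp only [he₀, dif_pos h]
    exact h.choose_spec
  have hsubE : ∀ G ∈ PP, G ⊆ EE := fun G hG =>
    Finset.mem_powerset.1 (Finset.mem_filter.1 hG).1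
  have hpt : ∀ ω, F ω ≤ F₀ ω * (A ∅).indicator 1 ω +
      ∑ G ∈ PP, Fe (e₀ G) ω * (A G).indicator 1 ω := by
    intro ω
    by_cases h : goodSet EE w ω = ∅
    · have h1 : ω ∈ A ∅ := h
      rw [Set.indicator_of_mem h1, Pi.one_apply, mul_one]
      exact le_add_right (hF0 ω)
    · refine le_add_left ?_
      have hG : goodSet EE w ω ∈ PP := by
        rw [hPP, Finset.mem_filter, Finset.mem_powerset]
        exact ⟨Finset.filter_subset _ _, Finset.nonempty_iff_ne_empty.2 h⟩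
      refine le_trans ?_ (Finset.single_le_sum (f := fun G => Fe (e₀ G) ω * (A G).indicator 1 ω)
        (fun _ _ => zero_le) hG)
      have h1 : ω ∈ A (goodSet EE w ω) := rfl
      show F ω ≤ Fe (e₀ (goodSet EE w ω)) ω * (A (goodSet EE w ω)).indicator 1 ω
      rw [Set.indicator_of_mem h1, Pi.one_apply, mul_one]
      have h2 := he₀m _ hG
      obtain ⟨h3, h4⟩ := Finset.mem_filter.1 h2
      exact hFe _ h3 ω h4
  have hmeasF₀ : Measurable F₀ := hF₀m.mono (sig_le S) le_rfl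
  have hcompl : Pr d {ω | ∀ e ∈ EE, w < Wt ω e}ᶜ = ∑ G ∈ PP, Pr d (A G) := by
    rw [← hA0]
    have h1 : (A ∅)ᶜ = ⋃ G ∈ PP, A G := by
      ext ω
      simp only [Set.mem_iUnion, Set.mem_compl_iff]
      constructor
      · intro h
        refine ⟨goodSet EE w ω, ?_, rfl⟩
        rw [hPP, Finset.mem_filter, Finset.mem_powerset]
        exact ⟨Finset.filter_subset _ _, Finset.nonempty_iff_ne_empty.2 h⟩
      · rintro ⟨G, hG, h1⟩ h2
        have h1' : goodSet EE w ω = G := h1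
        have h2' : goodSet EE w ω = ∅ := h2
        have := (Finset.mem_filter.1 hG).2
        rw [← h1', h2'] at this
        simp at this
    rw [h1, measure_biUnion_finset]
    · intro G _ G' _ hne
      rw [Function.onFun, Set.disjoint_left]
      intro ω h1 h2
      have h1' : goodSet EE w ω = G := h1
      have h2' : goodSet EE w ω = G' := h2
      exact hne (h1'.symm.trans h2')
    · intro G hG
      exact hAm' G (hsubE G hG)
  calc ∫⁻ ω, F ω ∂(Pr d)
      ≤ ∫⁻ ω, (F₀ ω * (A ∅).indicator 1 ω + ∑ G ∈ PP, Fe (e₀ G) ω * (A G).indicator 1 ω)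
          ∂(Pr d) := lintegral_mono hpt
    _ = (∫⁻ ω, F₀ ω ∂(Pr d)) * Pr d (A ∅) +
          ∑ G ∈ PP, (∫⁻ ω, Fe (e₀ G) ω ∂(Pr d)) * Pr d (A G) := by
        have hm1 : Measurable fun ω => F₀ ω * (A ∅).indicator 1 ω :=
          hmeasF₀.mul (hind2 ∅ (Finset.empty_subset _))
        rw [lintegral_add_left hm1, hprod ∅ (Finset.empty_subset _) F₀ hF₀m,
          lintegral_finsetSum]
        · congr 1
          refine Finset.sum_congr rfl fun G hG => ?_
          exact hprod G (hsubE G hG) _ (hFem _ (hsubE G hG (he₀m G hG)))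
        · intro G hG
          exact ((hFem _ (hsubE G hG (he₀m G hG))).mono (sig_le S) le_rfl).mul
            (hind2 G (hsubE G hG))
    _ ≤ c₀ * Pr d (A ∅) + ∑ G ∈ PP, c * Pr d (A G) := by
        gcongr with G hG
        exact he _ (hsubE G hG (he₀m G hG))
    _ = _ := by
        rw [hcompl, hA0, Finset.sum_mul, mul_comm c₀]
        congr 1
        exact Finset.sum_congr rfl fun G _ => mul_comm _ _

theorem expMeasure_Ioi {a : ℝ} (ha : 0 ≤ a) :
    expMeasure 1 (Set.Ioi a) = ENNReal.ofReal (Real.exp (-a)) := by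
  rw [← Set.compl_Iic, prob_compl_eq_one_sub measurableSet_Iic, ← ofReal_cdf,
    cdf_expMeasure_eq one_pos, if_pos ha, ← ENNReal.ofReal_one, ← ENNReal.ofReal_sub]
  · congr 1
    rw [one_mul]; ring
  · rw [sub_nonneg, Real.exp_le_one_iff]
    linarith

/-- The probability that no candidate is good. -/
theorem prob_bad (EE : Finset (Sym2 (V d))) {w Lam : ℝ} (hw : 0 ≤ w) (hLam : 0 < Lam)
    (hEE : ∀ e ∈ EE, 0 < len e ∧ (len e : ℝ) ^ (2 * d + 1) ≤ Lam) :
    Pr d {ω | ∀ e ∈ EE, ENNReal.ofReal w < Wt ω e} ≤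
      ENNReal.ofReal (Real.exp (-(EE.card * (w / Lam)))) := by
  have h1 : {ω : Sym2 (V d) → ℝ | ∀ e ∈ EE, ENNReal.ofReal w < Wt ω e} =
      Set.pi (EE : Set (Sym2 (V d))) fun e => Set.Ioi (w / (len e : ℝ) ^ (2 * d + 1)) := by
    ext ω
    simp only [Set.mem_pi]
    refine forall₂_congr fun e he => ?_
    have hlen : 0 < (len e : ℝ) := by exact_mod_cast (hEE e he).1
    rw [Set.mem_Ioi, div_lt_iff₀ (by positivity)]
    unfold Wt
    rw [ENNReal.ofReal_lt_ofReal_iff_of_nonneg hw]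
  rw [h1]
  unfold Pr
  rw [infinitePi_pi _ fun e _ => measurableSet_Ioi]
  calc ∏ e ∈ EE, expMeasure 1 (Set.Ioi (w / (len e : ℝ) ^ (2 * d + 1)))
      ≤ ∏ _e ∈ EE, ENNReal.ofReal (Real.exp (-(w / Lam))) := by
        refine Finset.prod_le_prod' fun e he => ?_
        have hlen : 0 < (len e : ℝ) := by exact_mod_cast (hEE e he).1
        rw [expMeasure_Ioi (by positivity)]
        apply ENNReal.ofReal_le_ofReal
        apply Real.exp_le_exp.2
        apply neg_le_neg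
        have := (hEE e he).2
        gcongr
    _ = _ := by
        rw [Finset.prod_const, ← ENNReal.ofReal_pow (Real.exp_pos _).le, ← Real.exp_nat_mul]
        congr 2
        ring

/-- Combining: if the candidates are all bad with probability at most `1/2`. -/
theorem window_half {S : Set (Sym2 (V d))} {EE : Finset (Sym2 (V d))}
    (hdis : Disjoint S (EE : Set (Sym2 (V d)))) {w : ℝ≥0∞}
    {F F₀ : (Sym2 (V d) → ℝ) → ℝ≥0∞} {Fe : Sym2 (V d) → (Sym2 (V d) → ℝ) → ℝ≥0∞}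
    (hF₀m : Measurable[sig S] F₀) (hFem : ∀ e ∈ EE, Measurable[sig S] (Fe e))
    (hF0 : ∀ ω, F ω ≤ F₀ ω) (hFe : ∀ e ∈ EE, ∀ ω, Wt ω e ≤ w → F ω ≤ Fe e ω)
    {c c₀ : ℝ} (hc : 0 ≤ c) (hcc : c ≤ c₀) (h0 : ∫⁻ ω, F₀ ω ∂(Pr d) ≤ ENNReal.ofReal c₀)
    (he : ∀ e ∈ EE, ∫⁻ ω, Fe e ω ∂(Pr d) ≤ ENNReal.ofReal c)
    (hbad : Pr d {ω | ∀ e ∈ EE, w < Wt ω e} ≤ ENNReal.ofReal (1 / 2)) :
    ∫⁻ ω, F ω ∂(Pr d) ≤ ENNReal.ofReal ((c + c₀) / 2) := by
  refine (window_abstract hdis hF₀m hFem hF0 hFe h0 he).trans ?_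
  set B : Set (Sym2 (V d) → ℝ) := {ω | ∀ e ∈ EE, w < Wt ω e} with hB
  have hBm : MeasurableSet B := by
    have : B = ⋂ e ∈ EE, {ω : Sym2 (V d) → ℝ | w < Wt ω e} := by
      ext ω; simp [hB]
    rw [this]
    exact Finset.measurableSet_biInter _ fun e _ =>
      measurableSet_lt measurable_const (measurable_Wt e)
  set b : ℝ := (Pr d B).toReal with hb
  have hb0 : 0 ≤ b := ENNReal.toReal_nonneg
  have hb' : Pr d B = ENNReal.ofReal b := (ENNReal.ofReal_toReal (measure_ne_top _ _)).symm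
  have hb2 : b ≤ 1 / 2 := by
    rw [hb'] at hbad
    exact (ENNReal.ofReal_le_ofReal_iff (by norm_num)).1 hbad
  have hbc : Pr d Bᶜ = ENNReal.ofReal (1 - b) := by
    rw [prob_compl_eq_one_sub hBm, hb', ENNReal.ofReal_sub _ hb0, ENNReal.ofReal_one]
  rw [hbc, hb', ← ENNReal.ofReal_mul hb0, ← ENNReal.ofReal_mul (by linarith),
    ← ENNReal.ofReal_add (mul_nonneg hb0 (hc.trans hcc)) (mul_nonneg (by linarith) hc)]
  apply ENNReal.ofReal_le_ofReal
  nlinarith

end Pool.Agent.R963.LR
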