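import Pool.Agent.R963.LR.Up2

open MeasureTheory ProbabilityTheory MeasureTheory.Measure Filter Topology
open scoped ENNReal RealInnerProductSpace

namespace Pool.Agent.R963.LR

variable {d : ℕ}

/-! ### Geometry -/

theorem norm_tilt_le {y e : E d} (hy : ‖y‖ = 1) {s : ℝ} (hs : 0 < s) :
    ‖s • y + e‖ ≤ s + ⟪y, e⟫ + ‖e‖ ^ 2 / (2 * s) := by
  have hb : |⟪y, e⟫| ≤ ‖e‖ := by
    have := abs_real_inner_le_norm y e
    rwa [hy, one_mul] at this
  have hsq : ‖s • y + e‖ ^ 2 = s ^ 2 + 2 * s * ⟪y, e⟫ + ‖e‖ ^ 2 := by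
    rw [norm_add_sq_real, norm_smul, hy, real_inner_smul_left, Real.norm_eq_abs, mul_one, sq_abs]
    ring
  set β : ℝ := ⟪y, e⟫ with hβ
  set γ : ℝ := ‖e‖ ^ 2 / (2 * s) with hγ
  have hγs : ‖e‖ ^ 2 = 2 * s * γ := by rw [hγ]; field_simp
  have h0 : 0 ≤ s + β + γ := by
    have h1 : -‖e‖ ≤ β := (abs_le.1 hb).1
    have h2 : 0 ≤ s - ‖e‖ + γ := by
      have h3 : 0 ≤ 2 * s * (s - ‖e‖ + γ) := by
        have : 2 * s * (s - ‖e‖ + γ) = (s - ‖e‖) ^ 2 + s ^ 2 := by
          rw [mul_add, mul_sub, ← hγs]; ring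
        rw [this]; positivity
      exact nonneg_of_mul_nonneg_right h3 (by positivity)
    linarith
  apply le_of_sq_le_sq _ h0
  rw [hsq, hγs]
  nlinarith [sq_nonneg (β + γ)]

theorem geo_sum {y e₁ e₂ e₃ : E d} (hy : ‖y‖ = 1) {s l r g : ℝ} (hr : 0 < r) (hg : 3 ≤ g)
    (hl : l = g ^ 2 * r) (hs1 : l / 3 ≤ s) (hs2 : s ≤ l / 2) (h1 : ‖e₁‖ ≤ g * r / 10)
    (h2 : ‖e₂‖ ≤ r / 16) (h3 : ‖e₃‖ ≤ r / 100) :
    ‖s • y + e₁‖ + ‖(l - s - 3 / 2 * r) • y + (e₃ - e₁ - e₂)‖ ≤ l - 5 / 4 * r := by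
  have hg9 : 9 ≤ g ^ 2 := by nlinarith
  have hl9 : 9 * r ≤ l := by
    rw [hl]
    exact mul_le_mul_of_nonneg_right hg9 hr.le
  have hl0 : 0 < l := by linarith
  have hs0 : 0 < s := by linarith
  set s' : ℝ := l - s - 3 / 2 * r with hs'
  have hs'3 : l / 3 ≤ s' := by rw [hs']; linarith
  have hs'0 : 0 < s' := by linarith
  have hA := norm_tilt_le (e := e₁) hy hs0
  have hB := norm_tilt_le (e := e₃ - e₁ - e₂) hy hs'0
  have hf : ‖e₃ - e₁ - e₂‖ ≤ g * r / 10 + 29 / 400 * r := by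
    calc ‖e₃ - e₁ - e₂‖ ≤ ‖e₃‖ + ‖e₁‖ + ‖e₂‖ := by
          refine (norm_sub_le _ _).trans ?_
          gcongr
          exact norm_sub_le _ _
      _ ≤ _ := by linarith
  have hf2 : ‖e₃ - e₁ - e₂‖ ^ 2 ≤ (g * r / 10 + 29 / 400 * r) ^ 2 := by gcongr
  have he2 : ‖e₁‖ ^ 2 ≤ (g * r / 10) ^ 2 := by gcongr
  have hA2 : ‖e₁‖ ^ 2 / (2 * s) ≤ 3 / 200 * r := by
    rw [div_le_iff₀ (by positivity)]
    have h4 : (g * r / 10) ^ 2 = l * r / 100 := by rw [hl]; ring
    have h5 : l * r ≤ 3 * s * r := by nlinarith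
    nlinarith
  have hB2 : ‖e₃ - e₁ - e₂‖ ^ 2 / (2 * s') ≤ 1 / 40 * r := by
    rw [div_le_iff₀ (by positivity)]
    have h4 : (g * r / 10 + 29 / 400 * r) ^ 2 ≤ l * r / 60 := by
      rw [hl]
      have h5 : g / 10 + 29 / 400 ≤ g * (5 / 40) := by linarith
      have h6 : (g * r / 10 + 29 / 400 * r) = (g / 10 + 29 / 400) * r := by ring
      rw [h6]
      have h7 : (g / 10 + 29 / 400) * r ≤ (g * (5 / 40)) * r := by gcongr
      have h8 : ((g / 10 + 29 / 400) * r) ^ 2 ≤ ((g * (5 / 40)) * r) ^ 2 := by gcongr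
      have h9 : ((g * (5 / 40)) * r) ^ 2 ≤ g ^ 2 * r * r / 60 := by
        have : 0 ≤ g ^ 2 * r ^ 2 := by positivity
        nlinarith
      linarith
    have h5 : l * r ≤ 3 * s' * r := by nlinarith
    nlinarith
  have hI : ⟪y, e₃ - e₁ - e₂⟫ = ⟪y, e₃⟫ - ⟪y, e₁⟫ - ⟪y, e₂⟫ := by
    rw [inner_sub_right, inner_sub_right]
  have hI3 : ⟪y, e₃⟫ ≤ r / 100 := by
    have := real_inner_le_norm y e₃
    rw [hy, one_mul] at this
    linarith
  have hI2 : -⟪y, e₂⟫ ≤ r / 16 := by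
    have := abs_real_inner_le_norm y e₂
    rw [hy, one_mul] at this
    have := (abs_le.1 this).1
    linarith
  rw [hI] at hB
  have hss : s + s' = l - 3 / 2 * r := by rw [hs']; ring
  linarith

/-! ### Rounding -/

/-- Coordinatewise rounding down. -/
noncomputable def fl (z : E d) : V d := fun j => ⌊z j⌋

theorem norm_round_le {z : E d} {b : Fin d → ℕ} {B : ℕ} (hb : ∀ j, b j < B) :
    ‖toE (fl z + fun j => (b j : ℤ)) - z‖ ≤ d * B := by
  refine (norm_le_sum _).trans ?_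
  calc ∑ i, |(toE (fl z + fun j => (b j : ℤ)) - z) i| ≤ ∑ _i : Fin d, (B : ℝ) := by
        refine Finset.sum_le_sum fun i _ => ?_
        have h1 : (toE (fl z + fun j => (b j : ℤ)) - z) i = ⌊z i⌋ + b i - z i := by
          simp [toE_apply, fl]
        rw [h1]
        have h2 := Int.floor_le (z i)
        have h3 := Int.lt_floor_add_one (z i)
        have h4 : (b i : ℝ) + 1 ≤ B := by exact_mod_cast hb i
        have h5 : (0 : ℝ) ≤ b i := by positivity
        rw [abs_le]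
        constructor <;> linarith
    _ = d * B := by simp

theorem norm_fl_le (z : E d) : ‖toE (fl z) - z‖ ≤ d := by
  have h := norm_round_le (z := z) (b := fun _ => 0) (B := 1) (fun _ => by norm_num)
  have h2 : fl z + (fun j : Fin d => ((0 : ℕ) : ℤ)) = fl z := by ext j; simp
  simp only [h2] at h
  simpa using h

theorem round_inj {z z' : E d} {b b' : Fin d → ℕ} {B : ℕ} (hd : 1 ≤ d) (hb : ∀ j, b j < B)
    (hb' : ∀ j, b' j < B)
    (h : (fl z + fun j => (b j : ℤ)) = fl z' + fun j => (b' j : ℤ)) : ‖z - z'‖ < d * B := by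
  refine lt_of_le_of_lt (norm_le_sum _) ?_
  calc ∑ i, |(z - z') i| < ∑ _i : Fin d, (B : ℝ) := by
        apply Finset.sum_lt_sum_of_nonempty ⟨⟨0, hd⟩, Finset.mem_univ _⟩
        intro i _
        have h1 := congrFun h i
        simp only [fl, Pi.add_apply] at h1
        have h1' : ((⌊z i⌋ : ℝ) + b i) = ⌊z' i⌋ + b' i := by exact_mod_cast h1
        have h2 := Int.floor_le (z i)
        have h3 := Int.lt_floor_add_one (z i)
        have h2' := Int.floor_le (z' i)
        have h3' := Int.lt_floor_add_one (z' i)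
        have h4 : (b i : ℝ) + 1 ≤ B := by exact_mod_cast hb i
        have h5 : (0 : ℝ) ≤ b i := by positivity
        have h4' : (b' i : ℝ) + 1 ≤ B := by exact_mod_cast hb' i
        have h5' : (0 : ℝ) ≤ b' i := by positivity
        have h6 : (z - z') i = z i - z' i := rfl
        rw [h6, abs_lt]
        constructor <;> linarith
    _ = d * B := by simp

/-! ### The candidates -/

/-- Index set of the candidates. -/
abbrev Idx (d I B B' : ℕ) := Fin I × (Fin d → Fin B) × (Fin d → Fin B')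

/-- The first endpoint. -/
noncomputable def cu (x : V d) (y : E d) (l : ℝ) {I B B' : ℕ} (p : Idx d I B B') : V d :=
  fl (toE x + (l / 3 + (p.1 : ℕ) * (d * B)) • y) + fun j => (((p.2.1 j : ℕ)) : ℤ)

/-- The second endpoint. -/
noncomputable def cv (x : V d) (y : E d) (l r : ℝ) {I B B' : ℕ} (p : Idx d I B B') : V d :=
  fl (toE (cu x y l p) + (3 / 2 * r) • y) + fun j => (((p.2.2 j : ℕ)) : ℤ)

theorem cu_err (x : V d) (y : E d) (l : ℝ) {I B B' : ℕ} (p : Idx d I B B') :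
    ‖toE (cu x y l p) - (toE x + (l / 3 + (p.1 : ℕ) * (d * B)) • y)‖ ≤ d * B :=
  norm_round_le fun j => (p.2.1 j).2

theorem cv_err (x : V d) (y : E d) (l r : ℝ) {I B B' : ℕ} (p : Idx d I B B') :
    ‖toE (cv x y l r p) - (toE (cu x y l p) + (3 / 2 * r) • y)‖ ≤ d * B' :=
  norm_round_le fun j => (p.2.2 j).2

theorem cand_inj (hd : 1 ≤ d) (x : V d) {y : E d} (hy : ‖y‖ = 1) (l : ℝ) {r : ℝ} (hr : 0 < r)
    {I B B' : ℕ} (hB' : (d : ℝ) * B' ≤ r / 16) :
    Function.Injective fun p : Idx d I B B' => s(cu x y l p, cv x y l r p) := by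
  have hinner : ∀ p : Idx d I B B', 0 < ⟪y, toE (cv x y l r p) - toE (cu x y l p)⟫ := by
    intro p
    set e : E d := toE (cv x y l r p) - (toE (cu x y l p) + (3 / 2 * r) • y) with he
    have h1 : toE (cv x y l r p) - toE (cu x y l p) = (3 / 2 * r) • y + e := by rw [he]; abel
    have h2 : ‖e‖ ≤ r / 16 := (cv_err x y l r p).trans hB'
    have h3 := (abs_le.1 (abs_real_inner_le_norm y e)).1
    rw [hy, one_mul] at h3
    rw [h1, inner_add_right, inner_smul_right, real_inner_self_eq_norm_sq, hy]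
    linarith
  have hcu : ∀ p p' : Idx d I B B', cu x y l p = cu x y l p' → p.1 = p'.1 ∧ p.2.1 = p'.2.1 := by
    intro p p' h
    have h1 : p.1 = p'.1 := by
      by_contra hne
      have h2 := round_inj hd (fun j => (p.2.1 j).2) (fun j => (p'.2.1 j).2) h
      have h3 : (toE x + (l / 3 + ((p.1 : ℕ) : ℝ) * (d * B)) • y) -
          (toE x + (l / 3 + ((p'.1 : ℕ) : ℝ) * (d * B)) • y) =
          ((((p.1 : ℕ) : ℝ) - ((p'.1 : ℕ) : ℝ)) * (d * B)) • y := by
        rw [add_sub_add_left_eq_sub, ← sub_smul]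
        congr 1
        ring
      rw [h3, norm_smul, hy, mul_one, Real.norm_eq_abs, abs_mul,
        abs_of_nonneg (by positivity : (0 : ℝ) ≤ d * B)] at h2
      have h4 : (1 : ℝ) ≤ |((p.1 : ℕ) : ℝ) - ((p'.1 : ℕ) : ℝ)| := by
        have h5 : ((p.1 : ℕ) : ℤ) - ((p'.1 : ℕ) : ℤ) ≠ 0 := by
          intro h6
          apply hne
          ext
          omega
        have h6 := Int.one_le_abs h5
        exact_mod_cast h6
      have h5 : (0 : ℝ) ≤ d * B := by positivity
      nlinarith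
    refine ⟨h1, ?_⟩
    unfold cu at h
    rw [h1] at h
    have h2 := add_left_cancel h
    ext j
    have h3 := congrFun h2 j
    simp only [Nat.cast_inj] at h3
    exact h3
  intro p p' h
  have h' : s(cu x y l p, cv x y l r p) = s(cu x y l p', cv x y l r p') := h
  rw [Sym2.eq_iff] at h'
  rcases h' with ⟨h1, h2⟩ | ⟨h1, h2⟩
  · obtain ⟨h3, h4⟩ := hcu p p' h1
    have h5 : p.2.2 = p'.2.2 := by
      unfold cv at h2
      rw [h1] at h2
      have h6 := add_left_cancel h2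
      ext j
      have h7 := congrFun h6 j
      simp only [Nat.cast_inj] at h7
      exact h7
    exact Prod.ext h3 (Prod.ext h4 h5)
  · exfalso
    have h3 := hinner p
    have h4 := hinner p'
    rw [h1, h2] at h3
    have h5 : ⟪y, toE (cu x y l p') - toE (cv x y l r p')⟫ =
        -⟪y, toE (cv x y l r p') - toE (cu x y l p')⟫ := by
      rw [← inner_neg_right, neg_sub]
    rw [h5] at h3
    linarith

end Pool.Agent.R963.LR
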