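import Pool.Agent.R963.LR.Up3

open MeasureTheory ProbabilityTheory MeasureTheory.Measure Filter Topology
open scoped ENNReal RealInnerProductSpace

namespace Pool.Agent.R963.LR

variable {d : ℕ}

/-- Edges shorter than `r` with both endpoints within distance `ρ` of `x`. -/
def loc (r : ℝ) (x : V d) (ρ : ℝ) : Set (Sym2 (V d)) :=
  {e | elen e < r ∧ ∀ v ∈ e, ‖toE v - toE x‖ ≤ ρ}

theorem loc_subset {r r' ρ ρ' : ℝ} {x x' : V d} (hr : r ≤ r')
    (h : ‖toE x - toE x'‖ + ρ ≤ ρ') : loc r x ρ ⊆ loc r' x' ρ' := by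
  rintro e ⟨h1, h2⟩
  refine ⟨h1.trans_le hr, fun v hv => ?_⟩
  calc ‖toE v - toE x'‖ = ‖(toE v - toE x) + (toE x - toE x')‖ := by congr 1; abel
    _ ≤ ‖toE v - toE x‖ + ‖toE x - toE x'‖ := norm_add_le _ _
    _ ≤ ρ' := by linarith [h2 v hv]

theorem loc_subset_short (r : ℝ) (x : V d) (ρ : ℝ) : loc r x ρ ⊆ shortE d r := fun _ h => h.1

/-- The upper-bound hypothesis at scale `r`. -/
def UH (d : ℕ) (r M : ℝ) : Prop := ∀ x y : V d,
  ∫⁻ ω, TS (loc r x (4 * (‖toE y - toE x‖ + r))) ω x y ∂(Pr d) ≤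
    ENNReal.ofReal (M * (‖toE y - toE x‖ + r / 6))

/-- The constant of the window lemma. -/
noncomputable def Cb (d : ℕ) : ℝ := 8 * (2 * d) ^ (2 * d + 1) * ((32 * d) ^ d * (32 * d) ^ d)

theorem card_bound (hd : 1 ≤ d) {r M g l : ℝ} (hr : 100 * d ≤ r) (hM : 0 < M) (hg : 3 ≤ g)
    (hl : l = g ^ 2 * r) (hMg : Cb d ≤ M * g ^ (d + 1)) {I B B' : ℕ}
    (hB : B = ⌊g * r / (10 * d)⌋₊) (hB' : B' = ⌊r / (16 * d)⌋₊) (hI : I = ⌊l / (6 * (d * B))⌋₊) :
    (d : ℝ) * B ≤ g * r / 10 ∧ (d : ℝ) * B' ≤ r / 16 ∧ (I : ℝ) * (d * B) ≤ l / 6 ∧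
    1 ≤ ((I * (B ^ d * B' ^ d) : ℕ) : ℝ) * (M * r / 8 / (2 * d * r) ^ (2 * d + 1)) := by
  have hd0 : (1 : ℝ) ≤ d := by exact_mod_cast hd
  have hr0 : 0 < r := by linarith
  have hg0 : 0 < g := by linarith
  have hl0 : 0 < l := by rw [hl]; positivity
  have h1 : (B : ℝ) ≤ g * r / (10 * d) := by rw [hB]; exact Nat.floor_le (by positivity)
  have h2 : (B' : ℝ) ≤ r / (16 * d) := by rw [hB']; exact Nat.floor_le (by positivity)
  have h1' : g * r / (10 * d) < B + 1 := by rw [hB]; exact Nat.lt_floor_add_one _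
  have h2' : r / (16 * d) < B' + 1 := by rw [hB']; exact Nat.lt_floor_add_one _
  have h3 : (2 : ℝ) ≤ g * r / (10 * d) := by
    rw [le_div_iff₀ (by positivity)]
    nlinarith
  have h4 : (2 : ℝ) ≤ r / (16 * d) := by
    rw [le_div_iff₀ (by positivity)]
    nlinarith
  have hBl : g * r / (20 * d) ≤ B := by
    have : g * r / (20 * d) = g * r / (10 * d) / 2 := by field_simp; ring
    rw [this]; linarith
  have hB'l : r / (32 * d) ≤ B' := by
    have : r / (32 * d) = r / (16 * d) / 2 := by field_simp; ring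
    rw [this]; linarith
  have hB0 : (0 : ℝ) < B := lt_of_lt_of_le (by positivity) hBl
  have hdB : (d : ℝ) * B ≤ g * r / 10 := by
    calc (d : ℝ) * B ≤ d * (g * r / (10 * d)) := by gcongr
      _ = g * r / 10 := by field_simp
  have hdB' : (d : ℝ) * B' ≤ r / 16 := by
    calc (d : ℝ) * B' ≤ d * (r / (16 * d)) := by gcongr
      _ = r / 16 := by field_simp
  have h5 : (I : ℝ) ≤ l / (6 * (d * B)) := by rw [hI]; exact Nat.floor_le (by positivity)
  have h5' : l / (6 * (d * B)) < I + 1 := by rw [hI]; exact Nat.lt_floor_add_one _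
  have hIu : (I : ℝ) * (d * B) ≤ l / 6 := by
    rw [le_div_iff₀ (by positivity)] at h5
    linarith
  have hIl : l / 12 ≤ (I : ℝ) * (d * B) := by
    rw [div_lt_iff₀ (by positivity)] at h5'
    have h6 : l / 6 < I * (d * B) + d * B := by linarith
    have h7 : g * r / 10 ≤ l / 12 := by
      rw [hl]
      have : g * r ≤ g ^ 2 * r / 3 := by
        have : g * r * 3 ≤ g * r * g := by gcongr
        nlinarith
      linarith
    linarith
  refine ⟨hdB, hdB', hIu, ?_⟩
  have hIB : l / (12 * d) ≤ (I : ℝ) * B := by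
    rw [div_le_iff₀ (by positivity)]
    nlinarith
  obtain ⟨n, rfl⟩ : ∃ n, d = n + 1 := ⟨d - 1, by omega⟩
  set D : ℝ := ((n + 1 : ℕ) : ℝ) with hD
  have hcard : g ^ (n + 2) * (r ^ (n + 1) * r ^ (n + 1)) / ((32 * D) ^ (n + 1) * (32 * D) ^ (n + 1))
      ≤ ((I * (B ^ (n + 1) * B' ^ (n + 1)) : ℕ) : ℝ) := by
    push_cast
    calc g ^ (n + 2) * (r ^ (n + 1) * r ^ (n + 1)) / ((32 * D) ^ (n + 1) * (32 * D) ^ (n + 1))
        = (g ^ 2 * r / (32 * D)) * (g * r / (32 * D)) ^ n * (r / (32 * D)) ^ (n + 1) := by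
          rw [div_pow, div_pow, mul_pow g r n]
          field_simp
          ring
      _ ≤ (l / (12 * D)) * (g * r / (20 * D)) ^ n * (r / (32 * D)) ^ (n + 1) := by
          rw [hl]
          gcongr <;> norm_num
      _ ≤ ((I : ℝ) * B) * (B : ℝ) ^ n * (B' : ℝ) ^ (n + 1) := by gcongr
      _ = (I : ℝ) * ((B : ℝ) ^ (n + 1) * (B' : ℝ) ^ (n + 1)) := by ring
  have hCb : 0 < Cb (n + 1) := by unfold Cb; positivity
  have hkey : g ^ (n + 2) * (r ^ (n + 1) * r ^ (n + 1)) /
      ((32 * D) ^ (n + 1) * (32 * D) ^ (n + 1)) *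
      (M * r / 8 / (2 * D * r) ^ (2 * (n + 1) + 1)) = M * g ^ (n + 1 + 1) / Cb (n + 1) := by
    unfold Cb
    rw [← hD]
    have e1 : (2 * D * r) ^ (2 * (n + 1) + 1) =
        (2 * D) ^ (2 * (n + 1) + 1) * (r ^ (n + 1) * r ^ (n + 1) * r) := by
      rw [mul_pow, ← pow_add, ← pow_succ]
      congr 2
      ring
    rw [e1]
    field_simp
  calc (1 : ℝ) ≤ M * g ^ (n + 1 + 1) / Cb (n + 1) := by
        rw [le_div_iff₀ hCb, one_mul]; exact hMg
    _ = g ^ (n + 2) * (r ^ (n + 1) * r ^ (n + 1)) /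
      ((32 * D) ^ (n + 1) * (32 * D) ^ (n + 1)) *
      (M * r / 8 / (2 * D * r) ^ (2 * (n + 1) + 1)) := hkey.symm
    _ ≤ _ := by gcongr

/-- **Window lemma.** -/
theorem window (hd : 1 ≤ d) {r M g l : ℝ} (hr : 100 * d ≤ r) (hM : 0 < M) (hg : 3 ≤ g)
    (hl : l = g ^ 2 * r) (hMg : Cb d ≤ M * g ^ (d + 1)) (H : UH d r M) {x q : V d} {y : E d}
    (hy : ‖y‖ = 1) (hq : ‖toE q - (toE x + l • y)‖ ≤ d) :
    ∫⁻ ω, TS (loc (2 * r) x (4 * (l + 2 * r))) ω x q ∂(Pr d) ≤
      ENNReal.ofReal (M * (l - r / 4)) := by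
  classical
  have hd0 : (1 : ℝ) ≤ d := by exact_mod_cast hd
  have hr0 : 0 < r := by linarith
  have hdr : (d : ℝ) ≤ r / 100 := by linarith
  have hg9 : 9 ≤ g ^ 2 := by nlinarith
  have hl9 : 9 * r ≤ l := by
    rw [hl]; exact mul_le_mul_of_nonneg_right hg9 hr0.le
  have hgl : g * r / 10 ≤ l / 30 := by
    rw [hl]
    have : g * r * 3 ≤ g * r * g := by gcongr
    nlinarith
  obtain ⟨B, hB⟩ : ∃ B, B = ⌊g * r / (10 * d)⌋₊ := ⟨_, rfl⟩
  obtain ⟨B', hB'⟩ : ∃ B', B' = ⌊r / (16 * d)⌋₊ := ⟨_, rfl⟩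
  obtain ⟨I, hI⟩ : ∃ I, I = ⌊l / (6 * (d * B))⌋₊ := ⟨_, rfl⟩
  obtain ⟨hdB, hdB', hIB, hone⟩ := card_bound hd hr hM hg hl hMg hB hB' hI
  -- geometry of the candidates
  have hgeo : ∀ p : Idx d I B B',
      ‖toE (cu x y l p) - toE x‖ + ‖toE (cv x y l r p) - toE q‖ ≤ l - 5 / 4 * r ∧
      l / 3 - g * r / 10 ≤ ‖toE (cu x y l p) - toE x‖ ∧
      r ≤ ‖toE (cu x y l p) - toE (cv x y l r p)‖ ∧
      ‖toE (cu x y l p) - toE (cv x y l r p)‖ < 2 * r := by
    intro p
    set s : ℝ := l / 3 + (p.1 : ℕ) * (d * B) with hs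
    have hs1 : l / 3 ≤ s := by
      rw [hs]
      have : (0 : ℝ) ≤ ((p.1 : ℕ) : ℝ) * (d * B) := by positivity
      linarith
    have hs2 : s ≤ l / 2 := by
      have h1 : ((p.1 : ℕ) : ℝ) ≤ I := by exact_mod_cast p.1.2.le
      have h2 : ((p.1 : ℕ) : ℝ) * (d * B) ≤ I * (d * B) := by gcongr
      rw [hs]; linarith
    set e₁ : E d := toE (cu x y l p) - (toE x + s • y) with he₁
    set e₂ : E d := toE (cv x y l r p) - (toE (cu x y l p) + (3 / 2 * r) • y) with he₂
    set e₃ : E d := toE q - (toE x + l • y) with he₃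
    have h1 : ‖e₁‖ ≤ g * r / 10 := (cu_err x y l p).trans hdB
    have h2 : ‖e₂‖ ≤ r / 16 := (cv_err x y l r p).trans hdB'
    have h3 : ‖e₃‖ ≤ r / 100 := hq.trans hdr
    have h4 := geo_sum hy hr0 hg hl hs1 hs2 h1 h2 h3
    have h5 : toE (cu x y l p) - toE x = s • y + e₁ := by rw [he₁]; abel
    have h6 : toE (cv x y l r p) - toE q =
        -((l - s - 3 / 2 * r) • y + (e₃ - e₁ - e₂)) := by
      rw [he₁, he₂, he₃, sub_smul, sub_smul]; abel
    have h7 : toE (cu x y l p) - toE (cv x y l r p) = -((3 / 2 * r) • y + e₂) := by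
      rw [he₂]; abel
    refine ⟨?_, ?_, ?_, ?_⟩
    · rw [h5, h6, norm_neg]; exact h4
    · rw [h5]
      have : ‖s • y‖ - ‖e₁‖ ≤ ‖s • y + e₁‖ := by
        have := norm_sub_norm_le (s • y) (-e₁)
        rwa [norm_neg, sub_neg_eq_add] at this
      rw [norm_smul, hy, mul_one, Real.norm_eq_abs, abs_of_pos (by linarith)] at this
      linarith
    · rw [h7, norm_neg]
      have : ‖(3 / 2 * r) • y‖ - ‖e₂‖ ≤ ‖(3 / 2 * r) • y + e₂‖ := by
        have := norm_sub_norm_le ((3 / 2 * r) • y) (-e₂)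
        rwa [norm_neg, sub_neg_eq_add] at this
      rw [norm_smul, hy, mul_one, Real.norm_eq_abs, abs_of_pos (by linarith)] at this
      linarith
    · rw [h7, norm_neg]
      have := norm_add_le ((3 / 2 * r) • y) e₂
      rw [norm_smul, hy, mul_one, Real.norm_eq_abs, abs_of_pos (by linarith)] at this
      linarith
  set EE : Finset (Sym2 (V d)) := Finset.univ.image
    (fun p : Idx d I B B' => s(cu x y l p, cv x y l r p)) with hEE
  have hcard : EE.card = I * (B ^ d * B' ^ d) := by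
    rw [hEE, Finset.card_image_of_injective _ (cand_inj hd x hy l hr0 hdB'), Finset.card_univ]
    simp [Fintype.card_prod]
  have hel : ∀ p : Idx d I B B', elen s(cu x y l p, cv x y l r p) =
      ‖toE (cu x y l p) - toE (cv x y l r p)‖ := fun p => by rw [elen_mk, toE_sub]
  have hEEr : ∀ e ∈ EE, r ≤ elen e ∧ elen e < 2 * r := by
    intro e he
    obtain ⟨p, _, rfl⟩ := Finset.mem_image.1 he
    rw [hel]
    exact ⟨(hgeo p).2.2.1, (hgeo p).2.2.2⟩
  have hdis : Disjoint (shortE d r) (EE : Set (Sym2 (V d))) := by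
    rw [Set.disjoint_left]
    intro e h1 h2
    have h1' : elen e < r := h1
    have := (hEEr e h2).1
    linarith
  set w : ℝ := M * r / 8 with hw
  have hw0 : 0 ≤ w := by positivity
  set c : ℝ := M * (l - 5 / 4 * r + r / 3) + w with hc
  set c₀ : ℝ := M * (l + d + r / 6) with hc₀
  have hq' : ‖toE q - toE x‖ ≤ l + d := by
    have : toE q - toE x = (toE q - (toE x + l • y)) + l • y := by abel
    rw [this]
    refine (norm_add_le _ _).trans ?_
    rw [norm_smul, hy, mul_one, Real.norm_eq_abs, abs_of_pos (by linarith)]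
    linarith
  set cst : Idx d I B B' → (Sym2 (V d) → ℝ) → ℝ≥0∞ := fun p ω =>
    TS (loc r x (4 * (‖toE (cu x y l p) - toE x‖ + r))) ω x (cu x y l p) + ENNReal.ofReal w +
      TS (loc r q (4 * (‖toE (cv x y l r p) - toE q‖ + r))) ω q (cv x y l r p) with hcst
  have hTSm : ∀ (z : V d) (ρ : ℝ) (a b : V d),
      Measurable[sig (shortE d r)] (fun ω => TS (loc r z ρ) ω a b) := fun z ρ a b =>
    (measurable_TS_sig (loc r z ρ) a b).mono (sig_mono (loc_subset_short r z ρ)) le_rfl
  have hcstm : ∀ p, Measurable[sig (shortE d r)] (cst p) := by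
    intro p
    exact ((hTSm _ _ _ _).add_const _).add (hTSm _ _ _ _)
  have hmain : ∫⁻ ω, TS (loc (2 * r) x (4 * (l + 2 * r))) ω x q ∂(Pr d) ≤
      ENNReal.ofReal ((c + c₀) / 2) := by
    refine window_half (S := shortE d r) (EE := EE) hdis (w := ENNReal.ofReal w)
      (F₀ := fun ω => TS (loc r x (4 * (‖toE q - toE x‖ + r))) ω x q)
      (Fe := fun e ω => ⨅ (p : Idx d I B B') (_ : s(cu x y l p, cv x y l r p) = e), cst p ω)
      (hTSm _ _ _ _) ?_ ?_ ?_ ?_ ?_ ?_ ?_ ?_
    · intro e _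
      exact Measurable.iInf fun p => Measurable.iInf fun _ => hcstm p
    · intro ω
      apply TS_mono
      apply loc_subset (by linarith)
      rw [sub_self, norm_zero]
      linarith
    · intro e he ω hgood
      refine le_iInf₂ fun p hp => ?_
      obtain ⟨hg1, hg2, hg3, hg4⟩ := hgeo p
      have hne : cu x y l p ≠ cv x y l r p := by
        intro h
        rw [h, sub_self, norm_zero] at hg3
        linarith
      have hux : ‖toE (cu x y l p) - toE x‖ ≤ l := by
        have := norm_nonneg (toE (cv x y l r p) - toE q)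
        linarith
      have hvx : ‖toE (cv x y l r p) - toE x‖ ≤ l + 2 * r := by
        have : toE (cv x y l r p) - toE x =
            -(toE (cu x y l p) - toE (cv x y l r p)) + (toE (cu x y l p) - toE x) := by abel
        rw [this]
        refine (norm_add_le _ _).trans ?_
        rw [norm_neg]
        linarith
      have hsub1 : loc r x (4 * (‖toE (cu x y l p) - toE x‖ + r)) ⊆
          loc (2 * r) x (4 * (l + 2 * r)) := by
        apply loc_subset (by linarith)
        rw [sub_self, norm_zero]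
        linarith
      have hsub2 : loc r q (4 * (‖toE (cv x y l r p) - toE q‖ + r)) ⊆
          loc (2 * r) x (4 * (l + 2 * r)) := by
        apply loc_subset (by linarith)
        linarith
      have hmem : s(cu x y l p, cv x y l r p) ∈ loc (2 * r) x (4 * (l + 2 * r)) := by
        refine ⟨by rw [hel]; exact hg4, fun v hv => ?_⟩
        rw [Sym2.mem_iff] at hv
        rcases hv with rfl | rfl
        · linarith
        · linarith
      rw [← hp] at hgood
      calc TS (loc (2 * r) x (4 * (l + 2 * r))) ω x q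
          ≤ TS (loc (2 * r) x (4 * (l + 2 * r))) ω x (cu x y l p) +
            TS (loc (2 * r) x (4 * (l + 2 * r))) ω (cu x y l p) q := TS_triangle _ _ _ _ _
        _ ≤ TS (loc (2 * r) x (4 * (l + 2 * r))) ω x (cu x y l p) +
            (TS (loc (2 * r) x (4 * (l + 2 * r))) ω (cu x y l p) (cv x y l r p) +
            TS (loc (2 * r) x (4 * (l + 2 * r))) ω (cv x y l r p) q) := by
            gcongr
            exact TS_triangle _ _ _ _ _
        _ ≤ TS (loc r x (4 * (‖toE (cu x y l p) - toE x‖ + r))) ω x (cu x y l p) +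
            (ENNReal.ofReal w +
            TS (loc r q (4 * (‖toE (cv x y l r p) - toE q‖ + r))) ω q (cv x y l r p)) := by
            refine add_le_add (TS_mono hsub1 _ _ _) (add_le_add ?_ ?_)
            · exact (TS_edge ω hne hmem).trans hgood
            · rw [TS_symm _ _ (cv x y l r p) q]
              exact TS_mono hsub2 _ _ _
        _ = cst p ω := by rw [hcst]; ring
    · rw [hc]
      have : 0 ≤ l - 5 / 4 * r + r / 3 := by linarith
      positivity
    · rw [hc, hc₀, hw]
      nlinarith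
    · refine (H x q).trans (ENNReal.ofReal_le_ofReal ?_)
      rw [hc₀]
      gcongr
    · intro e he
      obtain ⟨p, _, rfl⟩ := Finset.mem_image.1 he
      calc ∫⁻ ω, ⨅ (p' : Idx d I B B')
            (_ : s(cu x y l p', cv x y l r p') = s(cu x y l p, cv x y l r p)), cst p' ω ∂(Pr d)
          ≤ ∫⁻ ω, cst p ω ∂(Pr d) :=
            lintegral_mono fun ω => (iInf_le _ p).trans (iInf_le _ rfl)
        _ = ∫⁻ ω, TS (loc r x (4 * (‖toE (cu x y l p) - toE x‖ + r))) ω x (cu x y l p) ∂(Pr d) +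
            ENNReal.ofReal w + ∫⁻ ω, TS (loc r q (4 * (‖toE (cv x y l r p) - toE q‖ + r))) ω q
              (cv x y l r p) ∂(Pr d) := by
            rw [hcst]
            simp only
            rw [lintegral_add_right _ (measurable_TS _ _ _),
              lintegral_add_right _ measurable_const]
            simp
        _ ≤ ENNReal.ofReal (M * (‖toE (cu x y l p) - toE x‖ + r / 6)) + ENNReal.ofReal w +
            ENNReal.ofReal (M * (‖toE (cv x y l r p) - toE q‖ + r / 6)) := by
            gcongr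
            · exact H x _
            · exact H q _
        _ ≤ ENNReal.ofReal c := by
            rw [← ENNReal.ofReal_add (by positivity) hw0, ← ENNReal.ofReal_add (by positivity)
              (by positivity)]
            apply ENNReal.ofReal_le_ofReal
            have h1 := (hgeo p).1
            have h2 : M * (‖toE (cu x y l p) - toE x‖ + ‖toE (cv x y l r p) - toE q‖) ≤
                M * (l - 5 / 4 * r) := by gcongr
            rw [hc]
            linarith
    · have h1 := prob_bad EE hw0 (Lam := (2 * d * r) ^ (2 * d + 1)) (by positivity)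
        (by
          intro e he
          obtain ⟨h1, h2⟩ := hEEr e he
          have h3 : r ≤ len e := h1.trans (elen_le_len e)
          refine ⟨?_, ?_⟩
          · have : (0 : ℝ) < len e := by linarith
            exact_mod_cast this
          · have h4 := len_le_elen e
            have h5 : (len e : ℝ) ≤ 2 * d * r := by
              have : (d : ℝ) * elen e ≤ d * (2 * r) := by gcongr
              linarith
            gcongr)
      refine h1.trans (ENNReal.ofReal_le_ofReal ?_)
      rw [hcard]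
      have h2 : Real.exp (-(((I * (B ^ d * B' ^ d) : ℕ) : ℝ) * (w / (2 * d * r) ^ (2 * d + 1)))) ≤
          Real.exp (-1) := by
        apply Real.exp_le_exp.2
        linarith
      refine h2.trans ?_
      rw [Real.exp_neg, ← one_div]
      apply one_div_le_one_div_of_le (by norm_num)
      have := Real.exp_one_gt_d9
      linarith
  refine hmain.trans (ENNReal.ofReal_le_ofReal ?_)
  rw [hc, hc₀, hw]
  have : M * d ≤ M * (r / 100) := by gcongr
  nlinarith

end Pool.Agent.R963.LR
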