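import Pool.Agent.R963.LR.Up4

open MeasureTheory ProbabilityTheory MeasureTheory.Measure Filter Topology
open scoped ENNReal RealInnerProductSpace

namespace Pool.Agent.R963.LR

variable {d : ℕ}

/-- One scale step for the upper bound. -/
theorem upper_step (hd : 1 ≤ d) {r M M' g : ℝ} (hr : 100 * d ≤ r) (hM : 0 < M) (hg : 3 ≤ g)
    (hMg : Cb d ≤ M * g ^ (d + 1)) (hM'M : M' ≤ M) (hM' : M * (1 - 1 / (16 * g ^ 2)) ≤ M')
    (H : UH d r M) : UH d (2 * r) M' := by
  have hd0 : (1 : ℝ) ≤ d := by exact_mod_cast hd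
  have hr0 : 0 < r := by linarith
  have hdr : (d : ℝ) ≤ r / 100 := by linarith
  have hg9 : 9 ≤ g ^ 2 := by nlinarith
  have hg0 : 0 < g := by linarith
  set l : ℝ := g ^ 2 * r with hl
  have hl9 : 9 * r ≤ l := by
    rw [hl]; exact mul_le_mul_of_nonneg_right hg9 hr0.le
  have hsmall : 1 / (16 * g ^ 2) ≤ 1 / 144 := by
    apply one_div_le_one_div_of_le (by norm_num)
    linarith
  have hM'0 : 0 < M' := by
    have : 0 < M * (1 - 1 / (16 * g ^ 2)) := by
      apply mul_pos hM; linarith
    linarith
  have hMd : M - M' ≤ M * (1 / (16 * g ^ 2)) := by linarith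
  have hMl : (M - M') * l ≤ M * r / 16 := by
    calc (M - M') * l ≤ M * (1 / (16 * g ^ 2)) * l := by gcongr
      _ = M * r / 16 := by rw [hl]; field_simp
  have hMr : (M - M') * r ≤ M * r / 144 := by
    calc (M - M') * r ≤ M * (1 / (16 * g ^ 2)) * r := by gcongr
      _ ≤ M * (1 / 144) * r := by gcongr
      _ = _ := by ring
  have key : ∀ n : ℕ, ∀ x y : V d, ‖toE y - toE x‖ ≤ n * (l / 2) →
      ∫⁻ ω, TS (loc (2 * r) x (4 * (‖toE y - toE x‖ + 2 * r))) ω x y ∂(Pr d) ≤
        ENNReal.ofReal (M' * (‖toE y - toE x‖ + 2 * r / 6)) := by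
    intro n
    induction n with
    | zero =>
      intro x y hxy
      have h0 : ‖toE y - toE x‖ = 0 := by
        apply le_antisymm _ (norm_nonneg _)
        simpa using hxy
      calc ∫⁻ ω, TS (loc (2 * r) x (4 * (‖toE y - toE x‖ + 2 * r))) ω x y ∂(Pr d)
          ≤ ∫⁻ ω, TS (loc r x (4 * (‖toE y - toE x‖ + r))) ω x y ∂(Pr d) := by
            refine lintegral_mono fun ω => TS_mono (loc_subset (by linarith) ?_) ω x y
            rw [sub_self, norm_zero]; linarith
        _ ≤ ENNReal.ofReal (M * (‖toE y - toE x‖ + r / 6)) := H x y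
        _ ≤ _ := by
          apply ENNReal.ofReal_le_ofReal
          rw [h0]
          nlinarith
    | succ n ih =>
      intro x y hxy
      set D : ℝ := ‖toE y - toE x‖ with hD
      rcases lt_or_ge D (2 * l) with h | h
      · calc ∫⁻ ω, TS (loc (2 * r) x (4 * (D + 2 * r))) ω x y ∂(Pr d)
            ≤ ∫⁻ ω, TS (loc r x (4 * (D + r))) ω x y ∂(Pr d) := by
              refine lintegral_mono fun ω => TS_mono (loc_subset (by linarith) ?_) ω x y
              rw [sub_self, norm_zero]; linarith
          _ ≤ ENNReal.ofReal (M * (D + r / 6)) := H x y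
          _ ≤ _ := by
            apply ENNReal.ofReal_le_ofReal
            have h1 : (M - M') * D ≤ (M - M') * (2 * l) :=
              mul_le_mul_of_nonneg_left h.le (by linarith)
            nlinarith
      · have hD0 : 0 < D := by linarith
        set yy : E d := D⁻¹ • (toE y - toE x) with hyy
        have hyn : ‖yy‖ = 1 := by
          rw [hyy, norm_smul, norm_inv, Real.norm_eq_abs, abs_of_pos hD0, ← hD,
            inv_mul_cancel₀ hD0.ne']
        have hDy : D • yy = toE y - toE x := by
          rw [hyy, smul_smul, mul_inv_cancel₀ hD0.ne', one_smul]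
        set q : V d := fl (toE x + l • yy) with hq
        have hq1 : ‖toE q - (toE x + l • yy)‖ ≤ d := norm_fl_le _
        have hqx : ‖toE q - toE x‖ ≤ l + d := by
          have : toE q - toE x = (toE q - (toE x + l • yy)) + l • yy := by abel
          rw [this]
          refine (norm_add_le _ _).trans ?_
          rw [norm_smul, hyn, mul_one, Real.norm_eq_abs, abs_of_pos (by linarith)]
          linarith
        have hyq : ‖toE y - toE q‖ ≤ D - l + d := by
          have : toE y - toE q = (D - l) • yy - (toE q - (toE x + l • yy)) := by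
            rw [sub_smul, hDy]; abel
          rw [this]
          refine (norm_sub_le _ _).trans ?_
          rw [norm_smul, hyn, mul_one, Real.norm_eq_abs, abs_of_pos (by linarith)]
          linarith
        have hW := window hd hr hM hg hl hMg H (x := x) (q := q) hyn hq1
        have hI := ih q y (by
          push_cast at hxy
          nlinarith)
        have hsub1 : loc (2 * r) x (4 * (l + 2 * r)) ⊆ loc (2 * r) x (4 * (D + 2 * r)) := by
          apply loc_subset le_rfl
          rw [sub_self, norm_zero]; linarith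
        have hsub2 : loc (2 * r) q (4 * (‖toE y - toE q‖ + 2 * r)) ⊆
            loc (2 * r) x (4 * (D + 2 * r)) := by
          apply loc_subset le_rfl
          linarith
        calc ∫⁻ ω, TS (loc (2 * r) x (4 * (D + 2 * r))) ω x y ∂(Pr d)
            ≤ ∫⁻ ω, (TS (loc (2 * r) x (4 * (l + 2 * r))) ω x q +
                TS (loc (2 * r) q (4 * (‖toE y - toE q‖ + 2 * r))) ω q y) ∂(Pr d) := by
              refine lintegral_mono fun ω => ?_
              exact (TS_triangle _ _ x q y).trans
                (add_le_add (TS_mono hsub1 _ _ _) (TS_mono hsub2 _ _ _))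
          _ = ∫⁻ ω, TS (loc (2 * r) x (4 * (l + 2 * r))) ω x q ∂(Pr d) +
              ∫⁻ ω, TS (loc (2 * r) q (4 * (‖toE y - toE q‖ + 2 * r))) ω q y ∂(Pr d) :=
              lintegral_add_left (measurable_TS _ _ _) _
          _ ≤ ENNReal.ofReal (M * (l - r / 4)) +
              ENNReal.ofReal (M' * (‖toE y - toE q‖ + 2 * r / 6)) := add_le_add hW hI
          _ ≤ _ := by
            have h1 : 0 ≤ M * (l - r / 4) := mul_nonneg hM.le (by linarith)
            rw [← ENNReal.ofReal_add h1 (by positivity)]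
            apply ENNReal.ofReal_le_ofReal
            have h2 : M' * (‖toE y - toE q‖ + 2 * r / 6) ≤ M' * (D - l + d + 2 * r / 6) := by
              gcongr
            have h3 : M' * d ≤ M * (r / 100) := by gcongr
            nlinarith
  intro x y
  obtain ⟨n, hn⟩ := exists_nat_ge (‖toE y - toE x‖ / (l / 2))
  exact key n x y (by rwa [div_le_iff₀ (by linarith)] at hn)

/-! ### Nearest-neighbour paths -/

theorem exists_nn_walk (n : ℕ) : ∀ x y : V d, l1 (y - x) = n →
    ∃ w : (⊤ : SimpleGraph (V d)).Walk x y, w.edges.length = n ∧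
      ∀ e ∈ w.edges, len e = 1 ∧ ∀ v ∈ e, ∀ j, v j ∈ Set.uIcc (x j) (y j) := by
  induction n with
  | zero =>
    intro x y h
    have hxy : x = y := by
      unfold l1 at h
      rw [Finset.sum_eq_zero_iff] at h
      ext j
      have := h j (Finset.mem_univ j)
      simp only [Pi.sub_apply, Int.natAbs_eq_zero] at this
      omega
    subst hxy
    exact ⟨SimpleGraph.Walk.nil, by simp, by simp⟩
  | succ n ih =>
    intro x y h
    obtain ⟨i, hi⟩ : ∃ i, y i ≠ x i := by
      by_contra hcon
      push Not at hcon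
      have : y - x = 0 := by ext j; simp [hcon j]
      rw [this] at h
      simp [l1] at h
    set σ : ℤ := if x i < y i then 1 else -1 with hσ
    set x' : V d := Function.update x i (x i + σ) with hx'
    have hx'i : x' i = x i + σ := by simp [hx']
    have hx'j : ∀ j, j ≠ i → x' j = x j := fun j hj => by simp [hx', hj]
    have habs : (y i - x i).natAbs = (y i - x' i).natAbs + 1 := by
      rw [hx'i, hσ]
      split_ifs with h1 <;> omega
    have hl : l1 (y - x') = n := by
      unfold l1 at h ⊢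
      rw [← Finset.add_sum_erase _ _ (Finset.mem_univ i)] at h ⊢
      have h2 : ∑ j ∈ Finset.univ.erase i, ((y - x') j).natAbs =
          ∑ j ∈ Finset.univ.erase i, ((y - x) j).natAbs := by
        refine Finset.sum_congr rfl fun j hj => ?_
        simp only [Pi.sub_apply]
        rw [hx'j j (Finset.ne_of_mem_erase hj)]
      rw [h2]
      simp only [Pi.sub_apply] at h ⊢
      omega
    obtain ⟨w, hw1, hw2⟩ := ih x' y hl
    have hne : x ≠ x' := by
      intro h1
      have := congrFun h1 i
      rw [hx'i, hσ] at this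
      split_ifs at this <;> omega
    have hadj : (⊤ : SimpleGraph (V d)).Adj x x' := hne
    have hmem' : ∀ j, x' j ∈ Set.uIcc (x j) (y j) := by
      intro j
      by_cases hj : j = i
      · subst hj
        rw [hx'i, hσ, Set.mem_uIcc]
        split_ifs with h1
        · left; omega
        · right; omega
      · rw [hx'j j hj]; exact Set.left_mem_uIcc
    refine ⟨SimpleGraph.Walk.cons hadj w, ?_, ?_⟩
    · rw [SimpleGraph.Walk.edges_cons, List.length_cons, hw1]
    · intro e he
      rw [SimpleGraph.Walk.edges_cons, List.mem_cons] at he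
      rcases he with rfl | he
      · constructor
        · rw [len_mk]
          unfold l1
          rw [Finset.sum_eq_single i]
          · simp only [Pi.sub_apply]
            rw [hx'i, hσ]
            split_ifs <;> omega
          · intro j _ hj
            simp only [Pi.sub_apply]
            rw [hx'j j hj]; simp
          · simp
        · intro v hv j
          rw [Sym2.mem_iff] at hv
          rcases hv with rfl | rfl
          · exact Set.left_mem_uIcc
          · exact hmem' j
      · obtain ⟨h1, h2⟩ := hw2 e he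
        refine ⟨h1, fun v hv j => ?_⟩
        exact Set.uIcc_subset_uIcc (hmem' j) Set.right_mem_uIcc (h2 v hv j)

theorem norm_box {x y v : V d} (h : ∀ j, v j ∈ Set.uIcc (x j) (y j)) :
    ‖toE v - toE x‖ ≤ ‖toE y - toE x‖ := by
  rw [EuclideanSpace.norm_eq, EuclideanSpace.norm_eq]
  apply Real.sqrt_le_sqrt
  refine Finset.sum_le_sum fun j _ => ?_
  rw [Real.norm_eq_abs, Real.norm_eq_abs, sq_abs, sq_abs, sq_le_sq]
  have h1 : |v j - x j| ≤ |y j - x j| := by
    have h2 := h j
    rw [Set.mem_uIcc] at h2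
    rcases h2 with h2 | h2
    · rw [abs_of_nonneg (by omega), abs_of_nonneg (by omega)]; omega
    · rw [abs_of_nonpos (by omega), abs_of_nonpos (by omega)]; omega
  show |(v j : ℝ) - x j| ≤ |(y j : ℝ) - x j|
  exact_mod_cast h1

/-! ### Moments of the exponential distribution -/

theorem exp_moment_one : ∫⁻ s, ENNReal.ofReal s ∂(expMeasure 1) = 1 := by
  have h0 : expMeasure 1 = volume.withDensity (exponentialPDF 1) := rfl
  have hm : Measurable (exponentialPDF 1) := by
    unfold exponentialPDF
    exact (measurable_exponentialPDFReal 1).ennreal_ofReal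
  rw [h0, lintegral_withDensity_eq_lintegral_mul _ hm (by fun_prop),
    ← lintegral_gammaPDF_eq_one (a := 2) (r := 1) (by norm_num) one_pos]
  congr 1
  ext s
  rw [Pi.mul_apply, gammaPDF_eq]
  rcases lt_or_ge s 0 with hs | hs
  · rw [exponentialPDF_of_neg hs, if_neg (not_le.2 hs)]; simp
  · rw [exponentialPDF_of_nonneg hs, if_pos hs, ← ENNReal.ofReal_mul (by positivity)]
    congr 1
    have : Real.Gamma 2 = 1 := Real.Gamma_two
    rw [this]
    have h2 : (2 : ℝ) - 1 = 1 := by norm_num
    rw [h2, Real.rpow_one, Real.one_rpow]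
    ring

theorem exp_moment_two : ∫⁻ s, (ENNReal.ofReal s) ^ 2 ∂(expMeasure 1) = 2 := by
  have h0 : expMeasure 1 = volume.withDensity (exponentialPDF 1) := rfl
  have hm : Measurable (exponentialPDF 1) := by
    unfold exponentialPDF
    exact (measurable_exponentialPDFReal 1).ennreal_ofReal
  rw [h0, lintegral_withDensity_eq_lintegral_mul _ hm (by fun_prop)]
  have h1 : ∀ s : ℝ, (exponentialPDF 1 * fun s => (ENNReal.ofReal s) ^ 2) s =
      2 * gammaPDF 3 1 s := by
    intro s
    rw [Pi.mul_apply, gammaPDF_eq]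
    rcases lt_or_ge s 0 with hs | hs
    · rw [exponentialPDF_of_neg hs, if_neg (not_le.2 hs)]; simp
    · rw [exponentialPDF_of_nonneg hs, if_pos hs, ← ENNReal.ofReal_pow hs,
        ← ENNReal.ofReal_mul (by positivity)]
      have h2 : (2 : ℝ≥0∞) = ENNReal.ofReal 2 := by norm_num
      rw [h2, ← ENNReal.ofReal_mul (by norm_num)]
      congr 1
      have h3 : Real.Gamma 3 = 2 := by
        have h := Real.Gamma_nat_eq_factorial 2
        have e : ((2 : ℕ) : ℝ) + 1 = 3 := by norm_num
        rw [e] at h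
        rw [h]
        norm_num [Nat.factorial]
      rw [h3]
      have h4 : (3 : ℝ) - 1 = 2 := by norm_num
      have h5 : s ^ (2 : ℝ) = s ^ 2 := by
        rw [← Real.rpow_natCast]; norm_num
      rw [h4, h5, Real.one_rpow]
      ring
  simp_rw [h1]
  rw [lintegral_const_mul' _ _ (by norm_num), lintegral_gammaPDF_eq_one (by norm_num) one_pos,
    mul_one]

theorem lintegral_Wt_one {e : Sym2 (V d)} (he : len e = 1) :
    ∫⁻ ω, Wt ω e ∂(Pr d) = 1 := by
  have h1 : ∀ ω : Sym2 (V d) → ℝ, Wt ω e = ENNReal.ofReal (ω e) := by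
    intro ω; unfold Wt; rw [he]; simp
  simp_rw [h1]
  rw [← exp_moment_one]
  exact (measurePreserving_eval_infinitePi (fun _ : Sym2 (V d) => expMeasure 1) e).lintegral_comp
    (f := fun s => ENNReal.ofReal s) (by fun_prop)

theorem lintegral_Wt_sq {e : Sym2 (V d)} (he : len e = 1) :
    ∫⁻ ω, (Wt ω e) ^ 2 ∂(Pr d) = 2 := by
  have h1 : ∀ ω : Sym2 (V d) → ℝ, Wt ω e = ENNReal.ofReal (ω e) := by
    intro ω; unfold Wt; rw [he]; simp
  simp_rw [h1]
  rw [← exp_moment_two]
  exact (measurePreserving_eval_infinitePi (fun _ : Sym2 (V d) => expMeasure 1) e).lintegral_comp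
    (f := fun s => (ENNReal.ofReal s) ^ 2) (by fun_prop)

theorem two_mul_le_sq_add_sq (a b : ℝ≥0∞) : 2 * (a * b) ≤ a ^ 2 + b ^ 2 := by
  rcases le_total a b with h | h
  · obtain ⟨c, rfl⟩ := exists_add_of_le h
    calc 2 * (a * (a + c)) ≤ 2 * (a * (a + c)) + c ^ 2 := le_self_add
      _ = a ^ 2 + (a + c) ^ 2 := by ring
  · obtain ⟨c, rfl⟩ := exists_add_of_le h
    calc 2 * ((b + c) * b) ≤ 2 * ((b + c) * b) + c ^ 2 := le_self_add
      _ = (b + c) ^ 2 + b ^ 2 := by ring

theorem list_aux (a : ℝ≥0∞) (l : List ℝ≥0∞) :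
    2 * (a * l.sum) ≤ l.length * a ^ 2 + (l.map (· ^ 2)).sum := by
  induction l with
  | nil => simp
  | cons b l ih =>
    simp only [List.sum_cons, List.length_cons, List.map_cons, Nat.cast_add, Nat.cast_one]
    calc 2 * (a * (b + l.sum)) = 2 * (a * b) + 2 * (a * l.sum) := by ring
      _ ≤ (a ^ 2 + b ^ 2) + (l.length * a ^ 2 + (l.map (· ^ 2)).sum) :=
        add_le_add (two_mul_le_sq_add_sq a b) ih
      _ = _ := by ring

theorem list_sq_le (l : List ℝ≥0∞) : l.sum ^ 2 ≤ l.length * (l.map (· ^ 2)).sum := by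
  induction l with
  | nil => simp
  | cons a l ih =>
    simp only [List.sum_cons, List.length_cons, List.map_cons, Nat.cast_add, Nat.cast_one]
    calc (a + l.sum) ^ 2 = a ^ 2 + 2 * (a * l.sum) + l.sum ^ 2 := by ring
      _ ≤ a ^ 2 + (l.length * a ^ 2 + (l.map (· ^ 2)).sum) +
          l.length * (l.map (· ^ 2)).sum := by
        gcongr
        exact list_aux a l
      _ = _ := by ring

theorem lintegral_list_one {l : List (Sym2 (V d))} (hl : ∀ e ∈ l, len e = 1) :
    ∫⁻ ω, (l.map (Wt ω)).sum ∂(Pr d) = l.length := by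
  induction l with
  | nil => simp
  | cons e l ih =>
    simp only [List.map_cons, List.sum_cons, List.length_cons, Nat.cast_add, Nat.cast_one]
    rw [lintegral_add_left (measurable_Wt e), lintegral_Wt_one (hl e List.mem_cons_self),
      ih fun e he => hl e (List.mem_cons_of_mem _ he)]
    ring

theorem lintegral_list_sq {l : List (Sym2 (V d))} (hl : ∀ e ∈ l, len e = 1) :
    ∫⁻ ω, ((l.map (Wt ω)).map (· ^ 2)).sum ∂(Pr d) = 2 * l.length := by
  induction l with
  | nil => simp
  | cons e l ih =>
    simp only [List.map_cons, List.sum_cons, List.length_cons, Nat.cast_add, Nat.cast_one]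
    rw [lintegral_add_left ((measurable_Wt e).pow_const 2), lintegral_Wt_sq (hl e List.mem_cons_self),
      ih fun e he => hl e (List.mem_cons_of_mem _ he)]
    ring

theorem lintegral_cost_sq {l : List (Sym2 (V d))} (hl : ∀ e ∈ l, len e = 1) :
    ∫⁻ ω, ((l.map (Wt ω)).sum) ^ 2 ∂(Pr d) ≤ 2 * (l.length : ℝ≥0∞) ^ 2 := by
  calc ∫⁻ ω, ((l.map (Wt ω)).sum) ^ 2 ∂(Pr d)
      ≤ ∫⁻ ω, (l.length : ℝ≥0∞) * ((l.map (Wt ω)).map (· ^ 2)).sum ∂(Pr d) := by
        refine lintegral_mono fun ω => ?_
        have := list_sq_le (l.map (Wt ω))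
        rwa [List.length_map] at this
    _ = (l.length : ℝ≥0∞) * (2 * l.length) := by
        rw [lintegral_const_mul' _ _ (ENNReal.natCast_ne_top _), lintegral_list_sq hl]
    _ = _ := by ring

/-- The nearest-neighbour path lies in the local edge set. -/
theorem exists_loc_walk {r ρ : ℝ} (hr : 1 < r) {x y : V d} (hρ : ‖toE y - toE x‖ ≤ ρ) :
    ∃ w : (⊤ : SimpleGraph (V d)).Walk x y, w.edges.length = l1 (y - x) ∧
      (∀ e ∈ w.edges, len e = 1) ∧ ∀ e ∈ w.edges, e ∈ loc r x ρ := by
  obtain ⟨w, h1, h2⟩ := exists_nn_walk (l1 (y - x)) x y rfl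
  refine ⟨w, h1, fun e he => (h2 e he).1, fun e he => ⟨?_, fun v hv => ?_⟩⟩
  · have := elen_le_len e
    rw [(h2 e he).1] at this
    push_cast at this
    linarith
  · exact (norm_box ((h2 e he).2 v hv)).trans hρ

theorem upper_base {r M : ℝ} (hr : 1 < r) (hM : (d : ℝ) ≤ M) : UH d r M := by
  intro x y
  have hn := norm_nonneg (toE y - toE x)
  obtain ⟨w, h1, h2, h3⟩ := exists_loc_walk (r := r)
    (ρ := 4 * (‖toE y - toE x‖ + r)) hr (x := x) (y := y) (by linarith)
  calc ∫⁻ ω, TS (loc r x (4 * (‖toE y - toE x‖ + r))) ω x y ∂(Pr d)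
      ≤ ∫⁻ ω, (w.edges.map (Wt ω)).sum ∂(Pr d) := lintegral_mono fun ω => TS_le_cost ω w h3
    _ = (l1 (y - x) : ℝ≥0∞) := by rw [lintegral_list_one h2, h1]
    _ ≤ _ := by
      rw [← ENNReal.ofReal_natCast]
      apply ENNReal.ofReal_le_ofReal
      have h4 := l1_le_norm (y - x)
      rw [toE_sub] at h4
      have h5 : (d : ℝ) * ‖toE y - toE x‖ ≤ M * ‖toE y - toE x‖ := by gcongr
      have h6 : (0 : ℝ) ≤ M := by
        have : (0 : ℝ) ≤ d := by positivity
        linarith
      nlinarith

/-- Second moment of the local passage times. -/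
theorem second_moment {r ρ : ℝ} (hr : 1 < r) {x y : V d} (hρ : ‖toE y - toE x‖ ≤ ρ) :
    ∫⁻ ω, (TS (loc r x ρ) ω x y) ^ 2 ∂(Pr d) ≤ 2 * (l1 (y - x) : ℝ≥0∞) ^ 2 := by
  obtain ⟨w, h1, h2, h3⟩ := exists_loc_walk (r := r) hr hρ
  calc ∫⁻ ω, (TS (loc r x ρ) ω x y) ^ 2 ∂(Pr d)
      ≤ ∫⁻ ω, ((w.edges.map (Wt ω)).sum) ^ 2 ∂(Pr d) := by
        refine lintegral_mono fun ω => ?_
        have := TS_le_cost ω w h3
        exact pow_le_pow_left' this 2
    _ ≤ 2 * (w.edges.length : ℝ≥0∞) ^ 2 := lintegral_cost_sq h2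
    _ = _ := by rw [h1]

end Pool.Agent.R963.LR
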