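import Pool.Agent.R963.LR.Up5

open MeasureTheory ProbabilityTheory MeasureTheory.Measure Filter Topology
open scoped ENNReal RealInnerProductSpace

namespace Pool.Agent.R963.LR

variable {d : ℕ}

/-! ### The scale sequence for the upper bound -/

/-- Start scale. -/
def k1 (d : ℕ) : ℕ := 100 * d

/-- Shift. -/
def k2 (d : ℕ) : ℕ := 144 * (d + 1)

/-- The constant of the upper bound sequence. -/
noncomputable def Cup (d : ℕ) : ℝ :=
  Cb d * Real.sqrt (16 * (d + 1)) ^ (d + 1) + d * Real.sqrt (k2 d) ^ (d + 1)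

/-- `M_k = C (k + k₂)^{-(d+1)/2}`. -/
noncomputable def Mk (d k : ℕ) : ℝ := Cup d / Real.sqrt ((k : ℝ) + k2 d) ^ (d + 1)

theorem Cb_pos (hd : 1 ≤ d) : 0 < Cb d := by
  have : (0 : ℝ) < d := by exact_mod_cast hd
  unfold Cb; positivity

theorem Cup_pos (hd : 1 ≤ d) : 0 < Cup d := by
  have := Cb_pos hd
  have : (0 : ℝ) < d := by exact_mod_cast hd
  unfold Cup; positivity

theorem k2_pos (d : ℕ) : (0 : ℝ) < k2 d := by unfold k2; positivity

theorem sqk_pos (d k : ℕ) : 0 < Real.sqrt ((k : ℝ) + k2 d) := by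
  apply Real.sqrt_pos.2
  have := k2_pos d
  positivity

theorem Mk_pos (hd : 1 ≤ d) (k : ℕ) : 0 < Mk d k := by
  have h1 := Cup_pos hd
  have h2 := sqk_pos d k
  unfold Mk; positivity

theorem UH_all (hd : 1 ≤ d) (k : ℕ) : UH d (2 ^ (k + k1 d)) (Mk d k) := by
  have hd0 : (1 : ℝ) ≤ d := by exact_mod_cast hd
  have hk2 := k2_pos d
  have hCb := Cb_pos hd
  have hr : ∀ k : ℕ, (100 * d : ℝ) ≤ 2 ^ (k + k1 d) := by
    intro k
    have h1 : 100 * d < 2 ^ (k1 d) := by unfold k1; exact Nat.lt_two_pow_self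
    have h2 : 2 ^ (k1 d) ≤ 2 ^ (k + k1 d) := Nat.pow_le_pow_right (by norm_num) (by omega)
    exact_mod_cast (h1.trans_le h2).le
  induction k with
  | zero =>
    apply upper_base
    · have := hr 0
      linarith
    · unfold Mk Cup
      rw [le_div_iff₀ (by have := sqk_pos d 0; positivity)]
      have : 0 ≤ Cb d * Real.sqrt (16 * (d + 1)) ^ (d + 1) := by positivity
      simp only [CharP.cast_eq_zero, zero_add]
      linarith
  | succ k ih =>
    have hs := sqk_pos d k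
    have hs' := sqk_pos d (k + 1)
    set A : ℝ := (k : ℝ) + k2 d with hA
    set B : ℝ := ((k + 1 : ℕ) : ℝ) + k2 d with hB
    have hAB : B = A + 1 := by rw [hA, hB]; push_cast; ring
    have hA0 : 0 < A := by positivity
    have hB0 : 0 < B := by positivity
    have hA144 : 144 * (d + 1 : ℝ) ≤ A := by
      rw [hA]; unfold k2; push_cast
      have : (0 : ℝ) ≤ k := by positivity
      linarith
    set ρ : ℝ := Real.sqrt A / Real.sqrt B with hρ
    have hρ0 : 0 < ρ := by positivity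
    have hρ2 : ρ ^ 2 = 1 - 1 / B := by
      rw [hρ, div_pow, Real.sq_sqrt hA0.le, Real.sq_sqrt hB0.le, hAB]
      field_simp
      ring
    have hρ1 : ρ ≤ 1 := by
      have h3 : ρ ^ 2 ≤ 1 := by
        rw [hρ2]
        have : 0 < 1 / B := by positivity
        linarith
      nlinarith
    have hrat : Mk d (k + 1) = ρ ^ (d + 1) * Mk d k := by
      unfold Mk
      rw [← hA, ← hB, hρ, div_pow]
      field_simp
    have hρd : 1 - (d + 1) / A ≤ ρ ^ (d + 1) := by
      have h3 : 1 - 1 / B ≤ ρ := by rw [← hρ2]; nlinarith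
      have h4 : (0 : ℝ) ≤ 1 - 1 / B := by rw [← hρ2]; positivity
      have h5 : 1 + (d + 1 : ℕ) * (-(1 / B)) ≤ (1 + -(1 / B)) ^ (d + 1) := by
        apply one_add_mul_le_pow
        have : 1 / B ≤ 1 := by rw [div_le_one hB0]; linarith
        linarith
      have h6 : 1 / B ≤ 1 / A := one_div_le_one_div_of_le hA0 (by linarith)
      calc 1 - (d + 1) / A = 1 - (d + 1) * (1 / A) := by ring
        _ ≤ 1 - (d + 1) * (1 / B) := by gcongr
        _ = 1 + (d + 1 : ℕ) * (-(1 / B)) := by push_cast; ring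
        _ ≤ (1 + -(1 / B)) ^ (d + 1) := h5
        _ = (1 - 1 / B) ^ (d + 1) := by ring
        _ ≤ ρ ^ (d + 1) := by gcongr
    have hMk := Mk_pos hd k
    set c16 : ℝ := Real.sqrt (16 * (d + 1)) with hc16
    have hc160 : 0 < c16 := by rw [hc16]; positivity
    have hg2 : (Real.sqrt A / c16) ^ 2 = A / (16 * (d + 1)) := by
      rw [div_pow, Real.sq_sqrt hA0.le, hc16, Real.sq_sqrt (by positivity)]
    have hstep := upper_step hd (r := 2 ^ (k + k1 d)) (M := Mk d k) (M' := Mk d (k + 1))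
      (g := Real.sqrt A / c16) (hr k) hMk (by
        have h1 : (3 : ℝ) ^ 2 ≤ (Real.sqrt A / c16) ^ 2 := by
          rw [hg2, le_div_iff₀ (by positivity)]
          linarith
        exact le_of_sq_le_sq h1 (by positivity)) (by
        have h1 : Mk d k * (Real.sqrt A / c16) ^ (d + 1) = Cup d / c16 ^ (d + 1) := by
          unfold Mk
          rw [← hA, div_pow]
          field_simp
        rw [h1, le_div_iff₀ (by positivity)]
        unfold Cup
        have : 0 ≤ (d : ℝ) * Real.sqrt (k2 d) ^ (d + 1) := by positivity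
        linarith) (by
        rw [hrat]
        have : ρ ^ (d + 1) ≤ 1 := pow_le_one₀ hρ0.le hρ1
        nlinarith) (by
        rw [hrat, hg2, mul_comm]
        have h1 : 1 / (16 * (A / (16 * (d + 1)))) = (d + 1) / A := by field_simp
        rw [h1]
        gcongr) ih
    have e1 : (2 : ℝ) * 2 ^ (k + k1 d) = 2 ^ (k + 1 + k1 d) := by ring
    rwa [e1] at hstep

/-! ### Chebyshev's inequality for blocks -/

theorem cheb {Ω : Type*} [MeasurableSpace Ω] (P : Measure Ω) [IsProbabilityMeasure P]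
    (J : Finset ℕ) (Y : ℕ → Ω → ℝ≥0∞) (hm : ∀ j ∈ J, Measurable (Y j))
    (hfin : ∀ j ∈ J, ∀ ω, Y j ω ≠ ⊤) {μ v t : ℝ} (hμ : 0 ≤ μ) (hv : 0 ≤ v) (ht : 0 < t)
    (hmean : ∀ j ∈ J, ∫⁻ ω, Y j ω ∂P ≤ ENNReal.ofReal μ)
    (hsq : ∀ j ∈ J, ∫⁻ ω, (Y j ω) ^ 2 ∂P ≤ ENNReal.ofReal v)
    (hind : ∀ i ∈ J, ∀ j ∈ J, i ≠ j →
      IndepFun (fun ω => (Y i ω).toReal) (fun ω => (Y j ω).toReal) P) {N : ℝ}
    (hN : (J.card : ℝ) ≤ N) :
    P {ω | N * μ + t ≤ ∑ j ∈ J, (Y j ω).toReal} ≤ ENNReal.ofReal (N * v / t ^ 2) := by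
  set Z : ℕ → Ω → ℝ := fun j ω => (Y j ω).toReal with hZ
  have hZm : ∀ j ∈ J, Measurable (Z j) := fun j hj => (hm j hj).ennreal_toReal
  have hZsq : ∀ j ∈ J, ∀ ω, Z j ω ^ 2 = ((Y j ω) ^ 2).toReal := by
    intro j hj ω
    rw [ENNReal.toReal_pow]
  have hZL : ∀ j ∈ J, MemLp (Z j) 2 P := by
    intro j hj
    rw [memLp_two_iff_integrable_sq (hZm j hj).aestronglyMeasurable]
    simp_rw [hZsq j hj]
    apply integrable_toReal_of_lintegral_ne_top ((hm j hj).pow_const 2).aemeasurable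
    exact ne_top_of_le_ne_top ENNReal.ofReal_ne_top (hsq j hj)
  have hZmean : ∀ j ∈ J, ∫ ω, Z j ω ∂P ≤ μ := by
    intro j hj
    rw [integral_toReal (hm j hj).aemeasurable
      (ae_of_all _ fun ω => lt_top_iff_ne_top.2 (hfin j hj ω))]
    exact ENNReal.toReal_le_of_le_ofReal hμ (hmean j hj)
  have hZvar : ∀ j ∈ J, variance (Z j) P ≤ v := by
    intro j hj
    refine (variance_le_expectation_sq (hZm j hj).aestronglyMeasurable).trans ?_
    have h1 : ∫ ω, (Z j ^ 2) ω ∂P = (∫⁻ ω, (Y j ω) ^ 2 ∂P).toReal := by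
      rw [← integral_toReal ((hm j hj).pow_const 2).aemeasurable
        (ae_of_all _ fun ω => lt_top_iff_ne_top.2 (ENNReal.pow_ne_top (hfin j hj ω)))]
      refine integral_congr_ae (ae_of_all _ fun ω => ?_)
      exact hZsq j hj ω
    rw [h1]
    exact ENNReal.toReal_le_of_le_ofReal hv (hsq j hj)
  have hSL : MemLp (∑ j ∈ J, Z j) 2 P := memLp_finsetSum' _ hZL
  have hvarS : variance (∑ j ∈ J, Z j) P ≤ N * v := by
    rw [IndepFun.variance_sum hZL (fun i hi j hj hij => hind i hi j hj hij)]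
    calc ∑ j ∈ J, variance (Z j) P ≤ ∑ _j ∈ J, v := Finset.sum_le_sum hZvar
      _ = J.card * v := by simp
      _ ≤ N * v := by gcongr
  have hmeanS : ∫ ω, (∑ j ∈ J, Z j) ω ∂P ≤ N * μ := by
    simp only [Finset.sum_apply]
    rw [integral_finsetSum _ fun j hj => (hZL j hj).integrable one_le_two]
    calc ∑ j ∈ J, ∫ ω, Z j ω ∂P ≤ ∑ _j ∈ J, μ := Finset.sum_le_sum hZmean
      _ = J.card * μ := by simp
      _ ≤ N * μ := by gcongr
  have hch := meas_ge_le_variance_div_sq hSL ht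
  refine (measure_mono ?_).trans (hch.trans (ENNReal.ofReal_le_ofReal ?_))
  · intro ω hω
    have hω' : N * μ + t ≤ ∑ j ∈ J, (Y j ω).toReal := hω
    show t ≤ |(∑ j ∈ J, Z j) ω - ∫ ω, (∑ j ∈ J, Z j) ω ∂P|
    have h1 : (∑ j ∈ J, Z j) ω = ∑ j ∈ J, (Y j ω).toReal := by rw [Finset.sum_apply]
    rw [h1]
    refine le_trans ?_ (le_abs_self _)
    linarith
  · gcongr

theorem indepFun_of_sig {S S' : Set (Sym2 (V d))} (h : Disjoint S S')
    {f g : (Sym2 (V d) → ℝ) → ℝ} (hf : Measurable[sig S] f) (hg : Measurable[sig S'] g) :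
    IndepFun f g (Pr d) := by
  rw [IndepFun_iff_Indep]
  exact indep_of_indep_of_le (indep_sig h) (measurable_iff_comap_le.1 hf)
    (measurable_iff_comap_le.1 hg)

/-! ### Chains -/

theorem TT_triangle (ω : Sym2 (V d) → ℝ) (x y z : V d) : TT ω x z ≤ TT ω x y + TT ω y z := by
  have h1 : TT ω x y + TT ω y z =
      ⨅ w : (⊤ : SimpleGraph (V d)).Walk x y, ⨅ w' : (⊤ : SimpleGraph (V d)).Walk y z,
          (cost ω w + cost ω w') := by
    unfold TT
    rw [ENNReal.iInf_add]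
    refine iInf_congr fun w => ?_
    rw [ENNReal.add_iInf]
  rw [h1]
  refine le_iInf fun w => le_iInf fun w' => ?_
  rw [← cost_append]
  exact iInf_le _ _

theorem TT_self (ω : Sym2 (V d) → ℝ) (x : V d) : TT ω x x = 0 := by
  apply le_antisymm _ zero_le
  refine (iInf_le _ SimpleGraph.Walk.nil).trans ?_
  simp [cost]

theorem TT_chain (ω : Sym2 (V d) → ℝ) (a : ℕ → V d) (N : ℕ) :
    TT ω (a 0) (a N) ≤ ∑ j ∈ Finset.range N, TT ω (a j) (a (j + 1)) := by
  induction N with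
  | zero => simp [TT_self]
  | succ N ih =>
    rw [Finset.sum_range_succ]
    exact (TT_triangle ω _ (a N) _).trans (by gcongr)

theorem cost_ne_top (ω : Sym2 (V d) → ℝ) {x y : V d} (w : (⊤ : SimpleGraph (V d)).Walk x y) :
    cost ω w ≠ ⊤ := by
  unfold cost
  induction w.edges with
  | nil => simp
  | cons e l ih =>
    simp only [List.map_cons, List.sum_cons]
    exact ENNReal.add_ne_top.2 ⟨ENNReal.ofReal_ne_top, ih⟩

theorem TS_loc_ne_top {r ρ : ℝ} (hr : 1 < r) {x y : V d} (hρ : ‖toE y - toE x‖ ≤ ρ)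
    (ω : Sym2 (V d) → ℝ) : TS (loc r x ρ) ω x y ≠ ⊤ := by
  obtain ⟨w, _, _, h3⟩ := exists_loc_walk (r := r) hr hρ
  exact ne_top_of_le_ne_top (cost_ne_top ω w) (TS_le_cost ω w h3)

end Pool.Agent.R963.LR
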