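import Pool.Agent.R963.LR.Up6

open MeasureTheory ProbabilityTheory MeasureTheory.Measure Filter Topology
open scoped ENNReal RealInnerProductSpace

namespace Pool.Agent.R963.LR

variable {d : ℕ}

theorem toE_nsmul_sub (a b : ℕ) (x : V d) :
    toE (a • x) - toE (b • x) = ((a : ℝ) - b) • toE x := by
  rw [toE_nsmul, toE_nsmul, sub_smul]

theorem l1_nsmul (m : ℕ) (x : V d) : l1 (m • x) = m * l1 x := by
  unfold l1
  rw [Finset.mul_sum]
  refine Finset.sum_congr rfl fun j _ => ?_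
  simp [Int.natAbs_mul]

/-- The local edge sets of two blocks at distance at least `17` are disjoint. -/
theorem disjoint_blocks {x : V d} (hx : x ≠ 0) {m : ℕ} (hm : 0 < m) {r : ℝ} (hr : r = m)
    {i i' : ℕ} (hii : i + 17 ≤ i') :
    Disjoint (loc r ((i * m) • x) (4 * (m * ‖toE x‖ + r)))
      (loc r ((i' * m) • x) (4 * (m * ‖toE x‖ + r))) := by
  rw [Set.disjoint_left]
  rintro e ⟨_, h1⟩ ⟨_, h2⟩
  have hX1 : 1 ≤ ‖toE x‖ := one_le_norm hx
  have hm0 : (0 : ℝ) < m := by exact_mod_cast hm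
  induction e using Sym2.ind with
  | _ v v' =>
    have h3 := h1 v (Sym2.mem_mk_left v v')
    have h4 := h2 v (Sym2.mem_mk_left v v')
    have h5 : ‖toE ((i' * m) • x) - toE ((i * m) • x)‖ ≤ 8 * (m * ‖toE x‖ + r) := by
      calc ‖toE ((i' * m) • x) - toE ((i * m) • x)‖
          = ‖(toE v - toE ((i * m) • x)) - (toE v - toE ((i' * m) • x))‖ := by
            congr 1; abel
        _ ≤ ‖toE v - toE ((i * m) • x)‖ + ‖toE v - toE ((i' * m) • x)‖ := norm_sub_le _ _
        _ ≤ _ := by linarith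
    rw [toE_nsmul_sub, norm_smul, Real.norm_eq_abs] at h5
    have h6 : (17 : ℝ) * m ≤ |((i' * m : ℕ) : ℝ) - ((i * m : ℕ) : ℝ)| := by
      refine le_trans ?_ (le_abs_self _)
      push_cast
      have h7 : (i : ℝ) + 17 ≤ i' := by exact_mod_cast hii
      nlinarith
    have h7 : (17 : ℝ) * m * ‖toE x‖ ≤ 8 * (m * ‖toE x‖ + r) := by
      refine le_trans ?_ h5
      gcongr
    rw [hr] at h7
    nlinarith

theorem block_bound (hd : 1 ≤ d) {x : V d} (hx : x ≠ 0) (k n : ℕ)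
    (hn : 4 ^ (k + k1 d) ≤ n) :
    Pr d {ω | ENNReal.ofReal (69 * Mk d k * n * ‖toE x‖) < TT ω 0 (n • x)} ≤
      ENNReal.ofReal (17 * ((l1 x : ℝ) ^ 2 / (2 * 2 ^ (k + k1 d) * Mk d k ^ 2)) +
        2 / 2 ^ (k + k1 d)) := by
  classical
  obtain ⟨m, hm⟩ : ∃ m : ℕ, m = 2 ^ (k + k1 d) := ⟨_, rfl⟩
  have hm0' : 0 < m := by rw [hm]; positivity
  have hm0 : (0 : ℝ) < m := by exact_mod_cast hm0'
  have hmr : (m : ℝ) = 2 ^ (k + k1 d) := by rw [hm]; push_cast; rfl
  have hmn : m * m ≤ n := by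
    rw [hm, ← pow_add, ← two_mul, pow_mul]
    norm_num
    exact hn
  set X : ℝ := ‖toE x‖ with hX
  have hX1 : 1 ≤ X := one_le_norm hx
  have hX0 : 0 < X := by linarith
  set M : ℝ := Mk d k with hM
  have hM0 : 0 < M := Mk_pos hd k
  obtain ⟨r, hr⟩ : ∃ r : ℝ, r = m := ⟨_, rfl⟩
  have hr1 : 1 < r := by
    rw [hr, hmr]
    have : 1 ≤ k1 d := by unfold k1; omega
    calc (1 : ℝ) < 2 ^ 1 := by norm_num
      _ ≤ 2 ^ (k + k1 d) := pow_le_pow_right₀ one_le_two (by omega)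
  have hUH : UH d r M := by
    rw [hr, hmr]; exact UH_all hd k
  set N : ℕ := n / m with hN
  have hNm : N * m ≤ n := Nat.div_mul_le_self n m
  have hNm' : m ≤ N := (Nat.le_div_iff_mul_le hm0').2 hmn
  have hNm2 : n < (N + 1) * m := by
    have := Nat.lt_div_mul_add (a := n) hm0'
    rw [← hN] at this
    linarith
  have hN0 : (0 : ℝ) < N := by
    have : 0 < N := by omega
    exact_mod_cast this
  set a : ℕ → V d := fun i => (i * m) • x with ha
  set Y : ℕ → (Sym2 (V d) → ℝ) → ℝ≥0∞ := fun i ω =>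
    TS (loc r (a i) (4 * (m * X + r))) ω (a i) (a (i + 1)) with hY
  have hdist : ∀ i, ‖toE (a (i + 1)) - toE (a i)‖ = m * X := by
    intro i
    rw [ha]
    simp only
    rw [toE_nsmul_sub, norm_smul, Real.norm_eq_abs]
    congr 1
    push_cast
    rw [add_mul, add_sub_cancel_left, one_mul, abs_of_pos hm0]
  have hYm : ∀ i, Measurable (Y i) := fun i => measurable_TS _ _ _
  have hYfin : ∀ i ω, Y i ω ≠ ⊤ := by
    intro i ω
    apply TS_loc_ne_top hr1
    rw [hdist]
    nlinarith [mul_pos hm0 hX0]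
  have hr6 : r / 6 ≤ m * X := by
    rw [hr]
    nlinarith
  have hYmean : ∀ i, ∫⁻ ω, Y i ω ∂(Pr d) ≤ ENNReal.ofReal (2 * M * m * X) := by
    intro i
    have h1 := hUH (a i) (a (i + 1))
    rw [hdist] at h1
    refine h1.trans (ENNReal.ofReal_le_ofReal ?_)
    calc M * (m * X + r / 6) ≤ M * (m * X + m * X) := by gcongr
      _ = _ := by ring
  have hYsq : ∀ i, ∫⁻ ω, (Y i ω) ^ 2 ∂(Pr d) ≤ ENNReal.ofReal (2 * (m * l1 x) ^ 2) := by
    intro i
    have h1 := second_moment (r := r) (ρ := 4 * (m * X + r)) hr1 (x := a i) (y := a (i + 1))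
      (by rw [hdist]; nlinarith [mul_pos hm0 hX0])
    refine h1.trans (le_of_eq ?_)
    have h2 : a (i + 1) - a i = m • x := by
      rw [ha]
      simp only
      rw [add_mul, one_mul, add_smul, add_sub_cancel_left]
    rw [h2, l1_nsmul, ENNReal.ofReal_mul (by norm_num), ENNReal.ofReal_pow (by positivity),
      ENNReal.ofReal_mul (by positivity), ENNReal.ofReal_natCast, ENNReal.ofReal_natCast]
    push_cast
    norm_num
  have hind : ∀ i i' : ℕ, i % 17 = i' % 17 → i ≠ i' →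
      IndepFun (fun ω => (Y i ω).toReal) (fun ω => (Y i' ω).toReal) (Pr d) := by
    have hlt : ∀ i i' : ℕ, i % 17 = i' % 17 → i < i' →
        IndepFun (fun ω => (Y i ω).toReal) (fun ω => (Y i' ω).toReal) (Pr d) := by
      intro i i' h1 h2
      have h3 : i + 17 ≤ i' := by omega
      refine indepFun_of_sig (disjoint_blocks hx hm0' (r := r) hr h3) ?_ ?_
      · exact (measurable_TS_sig _ _ _).ennreal_toReal
      · exact (measurable_TS_sig _ _ _).ennreal_toReal
    intro i i' h1 h2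
    rcases lt_or_gt_of_ne h2 with h | h
    · exact hlt i i' h1 h
    · exact (hlt i' i h1.symm h).symm
  -- the remainder
  set Y' : (Sym2 (V d) → ℝ) → ℝ≥0∞ := fun ω =>
    TS (loc r (a N) (4 * (‖toE (n • x) - toE (a N)‖ + r))) ω (a N) (n • x) with hY'
  have hdist' : ‖toE (n • x) - toE (a N)‖ ≤ m * X := by
    rw [ha]
    simp only
    rw [toE_nsmul_sub, norm_smul, Real.norm_eq_abs]
    gcongr
    rw [abs_of_nonneg]
    · have : (n : ℝ) ≤ ((N + 1) * m : ℕ) := by exact_mod_cast hNm2.le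
      push_cast at this ⊢
      linarith
    · have : ((N * m : ℕ) : ℝ) ≤ n := by exact_mod_cast hNm
      linarith
  have hY'mean : ∫⁻ ω, Y' ω ∂(Pr d) ≤ ENNReal.ofReal (2 * M * m * X) := by
    refine (hUH (a N) (n • x)).trans (ENNReal.ofReal_le_ofReal ?_)
    calc M * (‖toE (n • x) - toE (a N)‖ + r / 6) ≤ M * (m * X + m * X) := by gcongr
      _ = _ := by ring
  have hn0 : (0 : ℝ) < n := by
    have : 0 < n := lt_of_lt_of_le (Nat.mul_pos hm0' hm0') hmn
    exact_mod_cast this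
  have hmarkov : Pr d {ω | ENNReal.ofReal (M * n * X) ≤ Y' ω} ≤
      ENNReal.ofReal (2 / 2 ^ (k + k1 d)) := by
    have h1 := mul_meas_ge_le_lintegral (μ := Pr d) (measurable_TS
      (loc r (a N) (4 * (‖toE (n • x) - toE (a N)‖ + r))) (a N) (n • x))
      (ENNReal.ofReal (M * n * X))
    have h2 : ENNReal.ofReal (M * n * X) * Pr d {ω | ENNReal.ofReal (M * n * X) ≤ Y' ω} ≤
        ENNReal.ofReal (M * n * X) * ENNReal.ofReal (2 / 2 ^ (k + k1 d)) := by
      refine (h1.trans hY'mean).trans ?_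
      rw [← ENNReal.ofReal_mul (by positivity)]
      apply ENNReal.ofReal_le_ofReal
      rw [← hmr]
      have h3 : (m : ℝ) * m ≤ n := by exact_mod_cast hmn
      have h4 : M * n * X * (2 / m) = 2 * M * X * (n / m) := by field_simp
      rw [h4]
      have h5 : (m : ℝ) ≤ n / m := by rw [le_div_iff₀ hm0]; exact h3
      calc 2 * M * m * X = 2 * M * X * m := by ring
        _ ≤ 2 * M * X * (n / m) := by gcongr
    have h3 : ENNReal.ofReal (M * n * X) ≠ 0 := by
      have : 0 < M * n * X := by positivity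
      simpa using this
    exact (ENNReal.mul_le_mul_iff_right h3 ENNReal.ofReal_ne_top).1 h2
  -- the classes
  set J : ℕ → Finset ℕ := fun c => (Finset.range N).filter (fun i => i % 17 = c) with hJ
  have hclass : ∀ c, Pr d {ω | N * (2 * M * m * X) + N * (2 * M * m * X) ≤
      ∑ i ∈ J c, (Y i ω).toReal} ≤
      ENNReal.ofReal ((l1 x : ℝ) ^ 2 / (2 * 2 ^ (k + k1 d) * M ^ 2)) := by
    intro c
    have h1 := cheb (Pr d) (J c) Y (fun i _ => hYm i) (fun i _ ω => hYfin i ω)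
      (μ := 2 * M * m * X) (v := 2 * (m * l1 x) ^ 2) (t := N * (2 * M * m * X))
      (by positivity) (by positivity) (by positivity) (fun i _ => hYmean i) (fun i _ => hYsq i)
      (fun i hi i' hi' hne => hind i i' (by
        rw [(Finset.mem_filter.1 hi).2, (Finset.mem_filter.1 hi').2]) hne) (N := N) (by
        have : (J c).card ≤ N := by
          refine (Finset.card_filter_le _ _).trans ?_
          rw [Finset.card_range]
        exact_mod_cast this)
    refine h1.trans (ENNReal.ofReal_le_ofReal ?_)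
    have h2 : (N : ℝ) * (2 * (m * l1 x) ^ 2) / (N * (2 * M * m * X)) ^ 2 =
        (l1 x : ℝ) ^ 2 / (2 * (N * X ^ 2) * M ^ 2) := by
      field_simp
    rw [h2, ← hmr]
    have h3 : (m : ℝ) ≤ N * X ^ 2 := by
      have h4 : (m : ℝ) ≤ N := by exact_mod_cast hNm'
      have h5 : 1 ≤ X ^ 2 := by nlinarith
      nlinarith
    gcongr
  -- the inclusion
  have hsub : {ω | ENNReal.ofReal (69 * M * n * X) < TT ω 0 (n • x)} ⊆
      (⋃ c ∈ Finset.range 17, {ω | N * (2 * M * m * X) + N * (2 * M * m * X) ≤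
        ∑ i ∈ J c, (Y i ω).toReal}) ∪ {ω | ENNReal.ofReal (M * n * X) ≤ Y' ω} := by
    intro ω hω
    by_contra hcon
    rw [Set.mem_union, not_or] at hcon
    obtain ⟨h1, h2⟩ := hcon
    have h2' : Y' ω < ENNReal.ofReal (M * n * X) := not_le.1 h2
    have h1' : ∀ c ∈ Finset.range 17, ∑ i ∈ J c, (Y i ω).toReal <
        N * (2 * M * m * X) + N * (2 * M * m * X) := by
      intro c hc
      by_contra h3
      exact h1 (Set.mem_biUnion hc (not_lt.1 h3))
    have ha0 : a 0 = 0 := by rw [ha]; simp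
    have h3 : TT ω 0 (n • x) ≤ ∑ i ∈ Finset.range N, Y i ω + Y' ω := by
      rw [← ha0]
      refine (TT_triangle ω (a 0) (a N) (n • x)).trans (add_le_add ?_ (TT_le_TS _ _ _ _))
      exact (TT_chain ω a N).trans (Finset.sum_le_sum fun i _ => TT_le_TS _ _ _ _)
    have h4 : ∑ i ∈ Finset.range N, Y i ω =
        ENNReal.ofReal (∑ c ∈ Finset.range 17, ∑ i ∈ J c, (Y i ω).toReal) := by
      have h5 : ∑ c ∈ Finset.range 17, ∑ i ∈ J c, (Y i ω).toReal =
          ∑ i ∈ Finset.range N, (Y i ω).toReal :=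
        Finset.sum_fiberwise_of_maps_to (fun i _ => Finset.mem_range.2
          (Nat.mod_lt i (by norm_num))) _
      rw [h5, ENNReal.ofReal_sum_of_nonneg fun i _ => ENNReal.toReal_nonneg]
      exact Finset.sum_congr rfl fun i _ => (ENNReal.ofReal_toReal (hYfin i ω)).symm
    have h5 : ∑ c ∈ Finset.range 17, ∑ i ∈ J c, (Y i ω).toReal ≤ 68 * M * n * X := by
      calc ∑ c ∈ Finset.range 17, ∑ i ∈ J c, (Y i ω).toReal
          ≤ ∑ _c ∈ Finset.range 17, (N * (2 * M * m * X) + N * (2 * M * m * X)) :=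
            Finset.sum_le_sum fun c hc => (h1' c hc).le
        _ = 68 * M * (N * m) * X := by
          rw [Finset.sum_const, Finset.card_range]; simp only [nsmul_eq_mul]; push_cast; ring
        _ ≤ 68 * M * n * X := by
          have : (N : ℝ) * m ≤ n := by exact_mod_cast hNm
          gcongr
    have h6 : TT ω 0 (n • x) ≤ ENNReal.ofReal (69 * M * n * X) := by
      calc TT ω 0 (n • x) ≤ ∑ i ∈ Finset.range N, Y i ω + Y' ω := h3
        _ ≤ ENNReal.ofReal (68 * M * n * X) + ENNReal.ofReal (M * n * X) := by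
          rw [h4]
          exact add_le_add (ENNReal.ofReal_le_ofReal h5) h2'.le
        _ = ENNReal.ofReal (69 * M * n * X) := by
          rw [← ENNReal.ofReal_add (by positivity) (by positivity)]
          congr 1; ring
    exact absurd hω (not_lt.2 h6)
  calc Pr d {ω | ENNReal.ofReal (69 * M * n * X) < TT ω 0 (n • x)}
      ≤ Pr d ((⋃ c ∈ Finset.range 17, {ω | N * (2 * M * m * X) + N * (2 * M * m * X) ≤
        ∑ i ∈ J c, (Y i ω).toReal}) ∪ {ω | ENNReal.ofReal (M * n * X) ≤ Y' ω}) :=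
        measure_mono hsub
    _ ≤ (∑ c ∈ Finset.range 17, Pr d {ω | N * (2 * M * m * X) + N * (2 * M * m * X) ≤
        ∑ i ∈ J c, (Y i ω).toReal}) + Pr d {ω | ENNReal.ofReal (M * n * X) ≤ Y' ω} := by
        refine (measure_union_le _ _).trans ?_
        gcongr
        exact measure_biUnion_finset_le _ _
    _ ≤ (∑ _c ∈ Finset.range 17,
          ENNReal.ofReal ((l1 x : ℝ) ^ 2 / (2 * 2 ^ (k + k1 d) * M ^ 2))) +
          ENNReal.ofReal (2 / 2 ^ (k + k1 d)) := by
        gcongr with c hc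
        exact hclass c
    _ = _ := by
        rw [Finset.sum_const, Finset.card_range, nsmul_eq_mul, ENNReal.ofReal_add (by positivity)
          (by positivity), ENNReal.ofReal_mul (by norm_num)]
        norm_num

/-- The constant of the upper bound. -/
noncomputable def cupp (x : V d) : ℝ := 69 * Cup d * ‖toE x‖ * Real.sqrt 2 ^ (d + 1)

theorem err_tendsto (hd : 1 ≤ d) (L : ℝ) :
    Tendsto (fun k : ℕ => 17 * (L ^ 2 / (2 * 2 ^ (k + k1 d) * Mk d k ^ 2)) +
        2 / 2 ^ (k + k1 d)) atTop (𝓝 0) := by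
  have hC := Cup_pos hd
  have h1 : Tendsto (fun k : ℕ => (((k + k2 d : ℕ) : ℝ)) ^ (d + 1) / 2 ^ (k + k2 d)) atTop (𝓝 0) :=
    (tendsto_pow_const_div_const_pow_of_one_lt (d + 1) (r := (2 : ℝ)) one_lt_two).comp
      (tendsto_add_atTop_nat (k2 d))
  have h2 : Tendsto (fun k : ℕ => (17 * L ^ 2 * 2 ^ k2 d / (2 * 2 ^ k1 d * Cup d ^ 2)) *
      ((((k + k2 d : ℕ) : ℝ)) ^ (d + 1) / 2 ^ (k + k2 d))) atTop
      (𝓝 ((17 * L ^ 2 * 2 ^ k2 d / (2 * 2 ^ k1 d * Cup d ^ 2)) * 0)) := h1.const_mul _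
  have h3 : Tendsto (fun k : ℕ => (2 / 2 ^ k1 d) * ((1 / 2 : ℝ) ^ k)) atTop
      (𝓝 ((2 / 2 ^ k1 d) * 0)) :=
    (tendsto_pow_atTop_nhds_zero_of_lt_one (by norm_num) (by norm_num)).const_mul _
  rw [mul_zero] at h2 h3
  have h4 := h2.add h3
  rw [add_zero] at h4
  refine h4.congr fun k => ?_
  have h5 : Mk d k ^ 2 = Cup d ^ 2 / (((k + k2 d : ℕ) : ℝ)) ^ (d + 1) := by
    unfold Mk
    rw [div_pow, ← pow_mul, mul_comm (d + 1) 2, pow_mul, Real.sq_sqrt (by positivity)]
    push_cast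
    rfl
  have h6 : (0 : ℝ) < ((k + k2 d : ℕ) : ℝ) := by
    have := k2_pos d
    push_cast
    positivity
  rw [h5, pow_add 2 k (k2 d), pow_add 2 k (k1 d), one_div_pow]
  congr 1
  · field_simp
  · field_simp

theorem upper_tail (hd : 1 ≤ d) {x : V d} (hx : x ≠ 0) :
    Tendsto (fun n : ℕ => Pr d {ω | ENNReal.ofReal (cupp x * (n / Real.sqrt (Real.log n) ^ (d + 1)))
      < TT ω 0 (n • x)}) atTop (𝓝 0) := by
  rw [ENNReal.tendsto_nhds_zero]
  intro ε hε
  obtain ⟨ε', hε', hεε'⟩ : ∃ ε' : ℝ, 0 < ε' ∧ ENNReal.ofReal ε' ≤ ε := by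
    rcases eq_or_ne ε ⊤ with h | h
    · exact ⟨1, one_pos, by rw [h]; exact le_top⟩
    · exact ⟨ε.toReal, ENNReal.toReal_pos hε.ne' h, by rw [ENNReal.ofReal_toReal h]⟩
  obtain ⟨K₀, hK₀⟩ := eventually_atTop.1
    ((err_tendsto hd (l1 x : ℝ)).eventually (gt_mem_nhds hε'))
  filter_upwards [eventually_ge_atTop (4 ^ (K₀ + k1 d)), eventually_gt_atTop 1] with n hn hn1
  have hn0 : (1 : ℝ) < n := by exact_mod_cast hn1
  obtain ⟨j, hj1, hj2⟩ := exists_nat_pow_near (x := (n : ℝ)) (y := 4) hn0.le (by norm_num)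
  have hj1' : 4 ^ j ≤ n := by exact_mod_cast hj1
  have hj2' : n < 4 ^ (j + 1) := by exact_mod_cast hj2
  have hjK : K₀ + k1 d ≤ j := by
    by_contra hlt
    push Not at hlt
    have h1 : 4 ^ (j + 1) ≤ 4 ^ (K₀ + k1 d) := Nat.pow_le_pow_right (by norm_num) (by omega)
    omega
  obtain ⟨k, rfl⟩ : ∃ k, j = k + k1 d := ⟨j - k1 d, by omega⟩
  have hkK : K₀ ≤ k := by omega
  have hb := block_bound hd hx k n hj1'
  refine le_trans (measure_mono ?_) (hb.trans ((ENNReal.ofReal_le_ofReal (hK₀ k hkK).le).trans hεε'))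
  intro ω hω
  have hω' : ENNReal.ofReal (cupp x * (n / Real.sqrt (Real.log n) ^ (d + 1))) < TT ω 0 (n • x) := hω
  refine lt_of_le_of_lt (ENNReal.ofReal_le_ofReal ?_) hω'
  have hlog0 : 0 < Real.log n := Real.log_pos hn0
  have hlog : Real.log n ≤ 2 * ((k : ℝ) + k2 d) := by
    have h1 : Real.log n ≤ ((k + k1 d + 1 : ℕ) : ℝ) * Real.log 4 := by
      rw [← Real.log_pow]
      exact Real.log_le_log (by linarith) hj2.le
    have h2 : Real.log 4 ≤ 2 := by
      have : (4 : ℝ) = 2 ^ 2 := by norm_num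
      rw [this, Real.log_pow]
      have := Real.log_two_lt_d9
      push_cast
      linarith
    have h3 : ((k + k1 d + 1 : ℕ) : ℝ) ≤ (k : ℝ) + k2 d := by
      have : k + k1 d + 1 ≤ k + k2 d := by unfold k1 k2; omega
      exact_mod_cast this
    calc Real.log n ≤ ((k + k1 d + 1 : ℕ) : ℝ) * Real.log 4 := h1
      _ ≤ ((k + k1 d + 1 : ℕ) : ℝ) * 2 := by gcongr
      _ ≤ ((k : ℝ) + k2 d) * 2 := by gcongr
      _ = _ := by ring
  have hsl : 0 < Real.sqrt (Real.log n) := Real.sqrt_pos.2 hlog0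
  have hsk := sqk_pos d k
  have hC := Cup_pos hd
  have hs : Real.sqrt (Real.log n) ≤ Real.sqrt 2 * Real.sqrt ((k : ℝ) + k2 d) := by
    rw [← Real.sqrt_mul (by norm_num)]
    exact Real.sqrt_le_sqrt hlog
  have hMle : Mk d k ≤ Cup d * Real.sqrt 2 ^ (d + 1) / Real.sqrt (Real.log n) ^ (d + 1) := by
    unfold Mk
    rw [div_le_div_iff₀ (by positivity) (by positivity)]
    calc Cup d * Real.sqrt (Real.log n) ^ (d + 1)
        ≤ Cup d * (Real.sqrt 2 * Real.sqrt ((k : ℝ) + k2 d)) ^ (d + 1) := by gcongr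
      _ = _ := by rw [mul_pow]; ring
  unfold cupp
  calc 69 * Mk d k * n * ‖toE x‖
      ≤ 69 * (Cup d * Real.sqrt 2 ^ (d + 1) / Real.sqrt (Real.log n) ^ (d + 1)) * n * ‖toE x‖ := by
        gcongr
    _ = _ := by ring

end Pool.Agent.R963.LR
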