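import Pool.Agent.R963.LR.Defs
import Pool.Agent.R963.LR.BK

open MeasureTheory ProbabilityTheory MeasureTheory.Measure
open scoped ENNReal

namespace Pool.Agent.R963.LR

variable {d : ℕ}

/-- The canonical probability space: i.i.d. exponential times on all unordered pairs. -/
noncomputable def Pr (d : ℕ) : Measure (Sym2 (V d) → ℝ) :=
  infinitePi fun _ => expMeasure 1

instance : IsProbabilityMeasure (expMeasure 1) := isProbabilityMeasure_expMeasure one_pos

instance : IsProbabilityMeasure (Pr d) := by unfold Pr; infer_instance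

/-- The exponential factor of a pair: `exp(-lam ω_e ‖e‖₁^(2d+1))`. -/
noncomputable def phi (lam : ℝ) (e : Sym2 (V d)) (s : ℝ) : ℝ≥0∞ :=
  ENNReal.ofReal (Real.exp (-(lam * (max s 0 * (len e : ℝ) ^ (2 * d + 1)))))

theorem measurable_phi (lam : ℝ) (e : Sym2 (V d)) : Measurable (phi lam e) := by
  unfold phi
  fun_prop

/-- The edge sets of the trails from `x` to `y` with edges in `S`. -/
def paths (S : Set (Sym2 (V d))) (x y : V d) : Set (Finset (Sym2 (V d))) :=
  {A | ∃ w : (⊤ : SimpleGraph (V d)).Walk x y, w.IsTrail ∧ (∀ e ∈ w.edges, e ∈ S) ∧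
    w.edges.toFinset = A}

open Classical in
/-- The edge sets of the trails from `x` to `y` with edges in `S ∪ L`, at most `N` of them in `L`. -/
def pathsN (S L : Set (Sym2 (V d))) (N : ℕ) (x y : V d) : Set (Finset (Sym2 (V d))) :=
  {A | A ∈ paths (S ∪ L) x y ∧ (A.filter (· ∈ L)).card ≤ N}

/-- `exp(-lam T_S(x,y))`. -/
noncomputable def K (lam : ℝ) (S : Set (Sym2 (V d))) (x y : V d) (ω : Sym2 (V d) → ℝ) : ℝ≥0∞ :=
  ⨆ A ∈ paths S x y, prd (phi lam) A ω

/-- The version of `K` with at most `N` edges in `L`. -/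
noncomputable def KN (lam : ℝ) (S L : Set (Sym2 (V d))) (N : ℕ) (x y : V d)
    (ω : Sym2 (V d) → ℝ) : ℝ≥0∞ :=
  ⨆ A ∈ pathsN S L N x y, prd (phi lam) A ω

theorem measurable_K (lam : ℝ) (S : Set (Sym2 (V d))) (x y : V d) : Measurable (K lam S x y) :=
  measurable_sup_prd (measurable_phi lam) _

theorem measurable_KN (lam : ℝ) (S L : Set (Sym2 (V d))) (N : ℕ) (x y : V d) :
    Measurable (KN lam S L N x y) :=
  measurable_sup_prd (measurable_phi lam) _

/-- Decomposition of a walk at its first edge in `L`. -/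
theorem walk_dec {S L : Set (Sym2 (V d))} {x y : V d} (w : (⊤ : SimpleGraph (V d)).Walk x y)
    (hw : ∀ e ∈ w.edges, e ∈ S ∪ L) (hn : w.edges.Nodup) :
    (∀ e ∈ w.edges, e ∈ S) ∨
      ∃ (u v : V d) (w₁ : (⊤ : SimpleGraph (V d)).Walk x u)
        (w₂ : (⊤ : SimpleGraph (V d)).Walk v y), s(u, v) ∈ L ∧ (∀ e ∈ w₁.edges, e ∈ S) ∧
        w.edges = w₁.edges ++ s(u, v) :: w₂.edges := by
  induction w with
  | nil => left; simp
  | @cons x x' y h p ih =>
    rw [SimpleGraph.Walk.edges_cons] at hw hn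
    by_cases hL : s(x, x') ∈ L
    · right
      exact ⟨x, x', SimpleGraph.Walk.nil, p, hL, by simp, by simp⟩
    · have hS : s(x, x') ∈ S := by
        rcases hw _ List.mem_cons_self with h' | h'
        · exact h'
        · exact absurd h' hL
      rcases ih (fun e he => hw e (List.mem_cons_of_mem _ he)) (List.nodup_cons.1 hn).2 with
        h1 | ⟨u, v, w₁, w₂, huv, h1, h2⟩
      · left
        rw [SimpleGraph.Walk.edges_cons]
        intro e he
        rcases List.mem_cons.1 he with rfl | he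
        · exact hS
        · exact h1 e he
      · right
        refine ⟨u, v, SimpleGraph.Walk.cons h w₁, w₂, huv, ?_, ?_⟩
        · rw [SimpleGraph.Walk.edges_cons]
          intro e he
          rcases List.mem_cons.1 he with rfl | he
          · exact hS
          · exact h1 e he
        · rw [SimpleGraph.Walk.edges_cons, SimpleGraph.Walk.edges_cons, h2]
          rfl

theorem pathsN_dec {S L : Set (Sym2 (V d))} (hSL : Disjoint S L) {N : ℕ} {x y : V d}
    {A : Finset (Sym2 (V d))} (hA : A ∈ pathsN S L N x y) :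
    A ∈ paths S x y ∨ ∃ (N' : ℕ) (u v : V d) (A₁ A₂ : Finset (Sym2 (V d))), N = N' + 1 ∧
      s(u, v) ∈ L ∧ A₁ ∈ paths S x u ∧ A₂ ∈ pathsN S L N' v y ∧ s(u, v) ∉ A₁ ∧
      Disjoint (insert s(u, v) A₁) A₂ ∧ A = (insert s(u, v) A₁) ∪ A₂ := by
  classical
  obtain ⟨⟨w, hw, hwS, rfl⟩, hN⟩ := hA
  rcases walk_dec w hwS hw.edges_nodup with h | ⟨u, v, w₁, w₂, huv, h1, h2⟩
  · left
    exact ⟨w, hw, h, rfl⟩
  · right
    have hnd := hw.edges_nodup
    rw [h2, List.nodup_append] at hnd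
    obtain ⟨hn1, hn2, hn3⟩ := hnd
    obtain ⟨hn4, hn5⟩ := List.nodup_cons.1 hn2
    have hL2 : ∀ e ∈ w₂.edges, e ∈ S ∪ L := fun e he => hwS e (by rw [h2]; simp [he])
    have hnot1 : s(u, v) ∉ w₁.edges.toFinset := by
      rw [List.mem_toFinset]
      intro h'
      exact hn3 _ h' _ List.mem_cons_self rfl
    have hdisj : Disjoint (insert s(u, v) w₁.edges.toFinset) w₂.edges.toFinset := by
      rw [Finset.disjoint_left]
      intro e he he2
      rw [List.mem_toFinset] at he2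
      rcases Finset.mem_insert.1 he with rfl | he
      · exact hn4 he2
      · rw [List.mem_toFinset] at he
        exact hn3 _ he _ (List.mem_cons_of_mem _ he2) rfl
    have hA : w.edges.toFinset = (insert s(u, v) w₁.edges.toFinset) ∪ w₂.edges.toFinset := by
      rw [h2]
      ext e
      simp only [List.mem_toFinset, List.mem_append, List.mem_cons, Finset.mem_union,
        Finset.mem_insert]
      tauto
    have hcard : (w₂.edges.toFinset.filter (· ∈ L)).card + 1 ≤ N := by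
      refine le_trans ?_ hN
      have hnotin : s(u, v) ∉ w₂.edges.toFinset.filter (· ∈ L) := by
        simp [hn4]
      rw [← Finset.card_insert_of_notMem hnotin]
      apply Finset.card_le_card
      intro e he
      rw [hA]
      rcases Finset.mem_insert.1 he with rfl | he
      · rw [Finset.mem_filter]
        exact ⟨Finset.mem_union_left _ (Finset.mem_insert_self _ _), huv⟩
      · rw [Finset.mem_filter] at he ⊢
        exact ⟨Finset.mem_union_right _ he.1, he.2⟩
    obtain ⟨N', rfl⟩ : ∃ N', N = N' + 1 := ⟨N - 1, by omega⟩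
    refine ⟨N', u, v, w₁.edges.toFinset, w₂.edges.toFinset, rfl, huv, ⟨w₁, ⟨hn1⟩, h1, rfl⟩,
      ⟨⟨w₂, ⟨hn5⟩, hL2, rfl⟩, by omega⟩, hnot1, hdisj, hA⟩

theorem prd_union {φ : Sym2 (V d) → ℝ → ℝ≥0∞} {A B : Finset (Sym2 (V d))} (h : Disjoint A B)
    (ω : Sym2 (V d) → ℝ) : prd φ (A ∪ B) ω = prd φ A ω * prd φ B ω :=
  Finset.prod_union h

/-- Pointwise renewal inequality. -/
theorem KN_le_pointwise (lam : ℝ) {S L : Set (Sym2 (V d))} (hSL : Disjoint S L) (N : ℕ)
    (x y : V d) (ω : Sym2 (V d) → ℝ) :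
    KN lam S L (N + 1) x y ω ≤ K lam S x y ω +
      ∑' q : V d × V d, (L.indicator 1 s(q.1, q.2) : ℝ≥0∞) *
        ⨆ p ∈ {p : Finset (Sym2 (V d)) × Finset (Sym2 (V d)) |
          (p.1 ∈ {B | ∃ A₁ ∈ paths S x q.1, s(q.1, q.2) ∉ A₁ ∧ B = insert s(q.1, q.2) A₁}) ∧
          p.2 ∈ pathsN S L N q.2 y ∧ Disjoint p.1 p.2}, prd (phi lam) p.1 ω * prd (phi lam) p.2 ω := by
  refine iSup₂_le fun A hA => ?_
  rcases pathsN_dec hSL hA with h | ⟨N', u, v, A₁, A₂, hN, huv, h1, h2, h3, h4, h5⟩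
  · exact le_add_right (le_iSup₂_of_le (f := fun A (_ : A ∈ paths S x y) => prd (phi lam) A ω)
      A h le_rfl)
  · obtain rfl : N = N' := by omega
    refine le_add_left ?_
    refine le_trans ?_ (ENNReal.le_tsum (u, v))
    rw [Set.indicator_of_mem huv, Pi.one_apply, one_mul, h5, prd_union h4]
    exact le_iSup₂_of_le (f := fun p (_ : p ∈ {p : Finset (Sym2 (V d)) × Finset (Sym2 (V d)) |
          (p.1 ∈ {B | ∃ A₁ ∈ paths S x u, s(u, v) ∉ A₁ ∧ B = insert s(u, v) A₁}) ∧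
          p.2 ∈ pathsN S L N v y ∧ Disjoint p.1 p.2}) => prd (phi lam) p.1 ω * prd (phi lam) p.2 ω)
      (insert s(u, v) A₁, A₂) ⟨⟨A₁, h1, h3, rfl⟩, h2, h4⟩ le_rfl

theorem KN_zero_le (lam : ℝ) {S L : Set (Sym2 (V d))} (hSL : Disjoint S L)
    (x y : V d) (ω : Sym2 (V d) → ℝ) : KN lam S L 0 x y ω ≤ K lam S x y ω := by
  refine iSup₂_le fun A hA => ?_
  rcases pathsN_dec hSL hA with h | ⟨N', u, v, A₁, A₂, hN, _⟩
  · exact le_iSup₂_of_le (f := fun A (_ : A ∈ paths S x y) => prd (phi lam) A ω) A h le_rfl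
  · omega

/-- The expected factor of one pair. -/
noncomputable def ephi (lam : ℝ) (e : Sym2 (V d)) : ℝ≥0∞ := ∫⁻ s, phi lam e s ∂(expMeasure 1)

theorem lintegral_phi (lam : ℝ) (e : Sym2 (V d)) :
    ∫⁻ ω, prd (phi lam) {e} ω ∂(Pr d) = ephi lam e := by
  unfold prd ephi Pr
  simp only [Finset.prod_singleton]
  exact (measurePreserving_eval_infinitePi (fun _ : Sym2 (V d) => expMeasure 1) e).lintegral_comp
    (measurable_phi lam e)

/-- **Renewal inequality.** -/
theorem lintegral_KN_le (lam : ℝ) {S L : Set (Sym2 (V d))} (hSL : Disjoint S L) (N : ℕ)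
    (x y : V d) :
    ∫⁻ ω, KN lam S L (N + 1) x y ω ∂(Pr d) ≤ ∫⁻ ω, K lam S x y ω ∂(Pr d) +
      ∑' q : V d × V d, (L.indicator 1 s(q.1, q.2) : ℝ≥0∞) *
        ((∫⁻ ω, K lam S x q.1 ω ∂(Pr d)) * ephi lam s(q.1, q.2) *
          ∫⁻ ω, KN lam S L N q.2 y ω ∂(Pr d)) := by
  classical
  refine (lintegral_mono (KN_le_pointwise lam hSL N x y)).trans ?_
  have hm := measurable_phi (d := d) lam
  rw [lintegral_add_left (measurable_K lam S x y), lintegral_tsum]
  · gcongr with q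
    rw [lintegral_const_mul' _ _ (by
      by_cases h : s(q.1, q.2) ∈ L
      · simp [h]
      · simp [h])]
    gcongr
    refine (bk (fun _ => expMeasure 1) hm
      {B | ∃ A₁ ∈ paths S x q.1, s(q.1, q.2) ∉ A₁ ∧ B = insert s(q.1, q.2) A₁}
      (pathsN S L N q.2 y) _ fun p hp => ⟨hp.1, hp.2.1, hp.2.2⟩).trans ?_
    refine mul_le_mul' ?_ le_rfl
    have h2 : ∀ ω : Sym2 (V d) → ℝ,
        ⨆ B ∈ {B | ∃ A₁ ∈ paths S x q.1, s(q.1, q.2) ∉ A₁ ∧ B = insert s(q.1, q.2) A₁},
          prd (phi lam) B ω ≤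
        ⨆ p ∈ {p : Finset (Sym2 (V d)) × Finset (Sym2 (V d)) | p.1 ∈ paths S x q.1 ∧
          p.2 ∈ ({({s(q.1, q.2)} : Finset (Sym2 (V d)))} : Set (Finset (Sym2 (V d)))) ∧
          Disjoint p.1 p.2}, prd (phi lam) p.1 ω * prd (phi lam) p.2 ω := by
      intro ω
      refine iSup₂_le fun B hB => ?_
      obtain ⟨A₁, hA₁, hn, rfl⟩ := hB
      have hd : Disjoint A₁ {s(q.1, q.2)} := by
        rw [Finset.disjoint_singleton_right]; exact hn
      have h3 : insert s(q.1, q.2) A₁ = A₁ ∪ {s(q.1, q.2)} := by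
        rw [Finset.union_comm]; rfl
      rw [h3, prd_union hd]
      exact le_iSup₂_of_le (f := fun p (_ : p ∈ {p : Finset (Sym2 (V d)) × Finset (Sym2 (V d)) |
          p.1 ∈ paths S x q.1 ∧
          p.2 ∈ ({({s(q.1, q.2)} : Finset (Sym2 (V d)))} : Set (Finset (Sym2 (V d)))) ∧
          Disjoint p.1 p.2}) => prd (phi lam) p.1 ω * prd (phi lam) p.2 ω)
        (A₁, {s(q.1, q.2)}) ⟨hA₁, rfl, hd⟩ le_rfl
    refine (lintegral_mono h2).trans ?_
    refine (bk (fun _ => expMeasure 1) hm (paths S x q.1) {{s(q.1, q.2)}} _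
      fun p hp => ⟨hp.1, hp.2.1, hp.2.2⟩).trans ?_
    refine mul_le_mul' le_rfl ?_
    simp only [Set.mem_singleton_iff, iSup_iSup_eq_left]
    exact (lintegral_phi lam s(q.1, q.2)).le
  · intro q
    refine Measurable.aemeasurable (Measurable.const_mul ?_ _)
    refine Measurable.biSup _ (Set.to_countable _) fun p _ => ?_
    exact (measurable_prd hm _).mul (measurable_prd hm _)

theorem K_eq_iSup_KN (lam : ℝ) (S L : Set (Sym2 (V d))) (x y : V d) (ω : Sym2 (V d) → ℝ) :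
    K lam (S ∪ L) x y ω = ⨆ N : ℕ, KN lam S L N x y ω := by
  classical
  apply le_antisymm
  · refine iSup₂_le fun A hA => ?_
    refine le_iSup_of_le (A.filter (· ∈ L)).card ?_
    exact le_iSup₂_of_le (f := fun A (_ : A ∈ pathsN S L _ x y) => prd (phi lam) A ω) A
      ⟨hA, le_rfl⟩ le_rfl
  · refine iSup_le fun N => iSup₂_le fun A hA => ?_
    exact le_iSup₂_of_le (f := fun A (_ : A ∈ paths (S ∪ L) x y) => prd (phi lam) A ω) A
      hA.1 le_rfl

theorem lintegral_K_eq (lam : ℝ) (S L : Set (Sym2 (V d))) (x y : V d) :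
    ∫⁻ ω, K lam (S ∪ L) x y ω ∂(Pr d) = ⨆ N : ℕ, ∫⁻ ω, KN lam S L N x y ω ∂(Pr d) := by
  simp_rw [K_eq_iSup_KN lam S L]
  refine lintegral_iSup (fun N => measurable_KN lam S L N x y) ?_
  intro N N' hNN' ω
  refine iSup₂_le fun A hA => ?_
  exact le_iSup₂_of_le (f := fun A (_ : A ∈ pathsN S L N' x y) => prd (phi lam) A ω) A
    ⟨hA.1, hA.2.trans hNN'⟩ le_rfl

end Pool.Agent.R963.LR
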